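import Pool.Agent.R908.BalDefs
import Pool.Agent.H914R2.DDefs

/-!
# Relations between the determinants of Frobenius elements on the blocks of an abelian variety: definitions
-/

set_option autoImplicit false

open CategoryTheory AlgebraicGeometry

universe u v

namespace Pool.Agent.Helper786.Det

open Pool.Agent.H914 Pool.Agent.H914.VarClass Pool.Agent.H914.VarClass.Obj
  Pool.Agent.H914.WeilCohomology Pool.Agent.R908

section Gen

variable {K B : Type*} [Field K] [Ring B] [Algebra K B]

/-- The number `q ^ d` in the field `K`. -/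
def natPow (K : Type*) [Field K] (q d : ℕ) : K := (q : K) ^ d

/-- Some power `σ ^ s`, `s > 0`, of the automorphism multiplies `x` by `q ^ (j s)`. -/
def Scales (σ : B ≃ₐ[K] B) (q j : ℕ) (x : B) : Prop :=
  ∃ s : ℕ, 0 < s ∧ (σ ^ s) x = ((q : K) ^ j) ^ s • x

/-- The automorphism commutes with the operator `p` on the subspace `N`. -/
def CommutesOn (N : Submodule K B) (σ : B ≃ₐ[K] B) (p : Module.End K B) : Prop :=
  ∀ x ∈ N, σ (p x) = p (σ x)

/-- The subspace of all `x` in `N` with `p x = x`. -/
def fixSub (N : Submodule K B) (p : Module.End K B) : Submodule K B :=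
  N ⊓ LinearMap.eqLocus p LinearMap.id

open Classical in
/-- The determinant of `σ` on the stable subspace `M`. -/
noncomputable def detOn (M : Submodule K B) (σ : B ≃ₐ[K] B) : K :=
  if h : ∀ x ∈ M, σ.toLinearMap x ∈ M then LinearMap.det (σ.toLinearMap.restrict h) else 0

/-- The product of the powers with the exponents `d l` of the determinants of `σ` on the subspaces
`{x ∈ N | p l x = x}`. -/
noncomputable def detProd {Λ : Type} [Fintype Λ] (N : Submodule K B) (p : Λ → Module.End K B)
    (σ : B ≃ₐ[K] B) (d : Λ → ℕ) : K :=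
  ∏ l, detOn (fixSub N (p l)) σ ^ d l

/-- For some `s > 0`, the product of `κ ^ s` and of a power of `q` (with an exponent in `ℤ`) is an
eigenvalue of `σ ^ s`. -/
def EigenUpTo (σ : B ≃ₐ[K] B) (q : ℕ) (κ : K) : Prop :=
  ∃ (s : ℕ) (a : ℤ) (y : B), 0 < s ∧ y ≠ 0 ∧ (σ ^ s) y = (κ ^ s * (q : K) ^ a) • y

end Gen

variable {k : Type u} [Field k] {𝒱 : VarClass k} {ops : CycleOps 𝒱}
  {W : WeilCohomology.{u, v} ops}

/-- The symmetry `S` behaves like the geometric Frobenius element of a closed point with residue field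
of `q` elements: it multiplies the orientation of `X` by `q ^ dim X`, and some power `S ^ s`, `s > 0`,
multiplies the class of a given cycle of codimension `j` by `q ^ (j s)`. -/
def IsFrobeniusElement (S : Symmetry W) (q : ℕ) : Prop :=
  0 < q ∧ ∀ X : 𝒱.Obj, S.c X = natPow W.K q X.dim ∧
    ∀ (j : ℕ) (z : X.Cycles), X.IsCyc j z → Scales (S.σ X) q j (W.cl X z)

variable {A : 𝒱.Obj} {Λ : Type}

/-- The symmetry `S` commutes with the projections onto the blocks. -/
def PreservesBlocks (S : Symmetry W) (p : Λ → Module.End W.K (W.H A)) : Prop :=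
  ∀ l, CommutesOn (W.gr A 1) (S.σ A) (p l)

/-- The product of the powers with the exponents `d l` of the determinants of `S` on the blocks is,
up to a power of `q` and after taking the `s`-th power, an eigenvalue of `S ^ s` on the cohomology of
a product of members of `𝒴`. -/
def IsDetRelation [Fintype Λ] (p : Λ → Module.End W.K (W.H A)) (𝒴 : Set 𝒱.Obj) (S : Symmetry W)
    (q : ℕ) (d : Λ → ℕ) : Prop :=
  ∃ Z : 𝒱.Obj, IsProductOf 𝒴 Z ∧ EigenUpTo (S.σ Z) q (detProd (W.gr A 1) p (S.σ A) d)

end Pool.Agent.Helper786.Det
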