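import Pool.Agent.R908.KqB
import Pool.Agent.Helper786_Inv.DetDefs

/-!
# Eigenvalues of Frobenius elements on the forms given by cycles
-/

set_option autoImplicit false
set_option linter.unusedSectionVars false
set_option linter.unusedVariables false
set_option linter.deprecated false

open CategoryTheory AlgebraicGeometry Polynomial

universe u v

namespace Pool.Agent.Helper786.Det

open Pool.Agent.H914 Pool.Agent.H914.VarClass Pool.Agent.H914.VarClass.Obj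
  Pool.Agent.H914.WeilCohomology Pool.Agent.R908

variable {k : Type u} [Field k] {𝒱 : VarClass k} {ops : CycleOps 𝒱}
  {W : WeilCohomology.{u, v} ops}

theorem pow_intertwines' {B C : Type*} [Ring B] [Algebra W.K B] [Ring C] [Algebra W.K C]
    (σ : B ≃ₐ[W.K] B) (σ' : C ≃ₐ[W.K] C) (f : B → C) (h : ∀ a, f (σ a) = σ' (f a)) (s : ℕ)
    (a : B) : f ((σ ^ s) a) = (σ' ^ s) (f a) := by
  induction s generalizing a with
  | zero => rfl
  | succ s ih =>
    rw [pow_succ, pow_succ]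
    change f ((σ ^ s) (σ a)) = (σ' ^ s) (σ' (f a))
    rw [ih, h]

theorem tr_pow' (S : Symmetry W) (X : 𝒱.Obj) (s : ℕ) (a : W.H X) :
    W.tr X (((S.σ X) ^ s) a) = S.c X ^ s * W.tr X a := by
  induction s generalizing a with
  | zero => rw [pow_zero, pow_zero, one_mul]; rfl
  | succ s ih =>
    rw [pow_succ]
    change W.tr X (((S.σ X) ^ s) ((S.σ X) a)) = _
    rw [ih, (S.sim X).tr]
    ring

theorem pow_iff {B : Type*} [Ring B] [Algebra W.K B] (σ : B ≃ₐ[W.K] B) (M : B → Prop)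
    (h : ∀ a, M (σ a) ↔ M a) (s : ℕ) (a : B) : M ((σ ^ s) a) ↔ M a := by
  induction s generalizing a with
  | zero => rfl
  | succ s ih =>
    rw [pow_succ]
    change M ((σ ^ s) (σ a)) ↔ _
    rw [ih, h]

/-- The powers of a symmetry. -/
noncomputable def spow (S : Symmetry W) (s : ℕ) : Symmetry W where
  σ X := (S.σ X) ^ s
  c X := (S.c X) ^ s
  sim X :=
    { ne_zero := pow_ne_zero _ (S.c_ne_zero X)
      gr := fun i a => pow_iff (S.σ X) (fun a => a ∈ W.gr X i) (fun a => (S.sim X).gr i a) s a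
      tr := tr_pow' S X s }
  monoidal := fun X Y =>
    ⟨fun a => pow_intertwines' (S.σ X) (S.σ (X.prod Y)) _ ((S.monoidal X Y).1) s a,
      fun a => pow_intertwines' (S.σ Y) (S.σ (X.prod Y)) _ ((S.monoidal X Y).2) s a⟩
  cycles := fun X p a => pow_iff (S.σ X) (fun a => a ∈ spanCycles W X p) (S.cycles X p) s a

section Forms

variable {A : Mot W} {θ : W.H A.X →ₗ[W.K] W.H A.X} {X Z : 𝒱.Obj}

lemma msl_smul_g (c : W.K) : ∀ (m : ℕ) (f : Fin m → (W.H X →ₗ[W.K] W.K))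
    (g : W.H Z →ₗ[W.K] W.K), msl W m f (c • g) = c • msl W m f g := by
  intro m
  induction m with
  | zero => exact fun _ _ => rfl
  | succ m ih =>
    intro f g
    rw [msl_succ, msl_succ, ih, tens_smul_right]

/-- The form given by the class `x` and the linear form `g`. -/
noncomputable def Fgx (A : Mot W) (θ : W.H A.X →ₗ[W.K] W.H A.X) {Z : 𝒱.Obj} (m : ℕ)
    (x : W.H (pX A.X Z m)) (g : W.H Z →ₗ[W.K] W.K) : (Fin m → TT A) → W.K :=
  fun v => msl W m (fun s => psi A θ (v s)) g x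

/-- Precomposition with a symmetry. -/
noncomputable def TS (A : Mot W) (S : Symmetry W) (m : ℕ) :
    Module.End W.K ((Fin m → TT A) → W.K) := preL A (fun v => restS A S ∘ v)

lemma TS_apply (S : Symmetry W) (m : ℕ) (F : (Fin m → TT A) → W.K) (v : Fin m → TT A) :
    TS A S m F v = F (restS A S ∘ v) := rfl

lemma Fgx_add (m : ℕ) (x : W.H (pX A.X Z m)) (g g' : W.H Z →ₗ[W.K] W.K) :
    Fgx A θ m x (g + g') = Fgx A θ m x g + Fgx A θ m x g' := by
  funext v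
  rw [Fgx, msl_add_g, LinearMap.add_apply]
  rfl

lemma Fgx_smul (m : ℕ) (x : W.H (pX A.X Z m)) (c : W.K) (g : W.H Z →ₗ[W.K] W.K) :
    Fgx A θ m x (c • g) = c • Fgx A θ m x g := by
  funext v
  rw [Fgx, msl_smul_g, LinearMap.smul_apply]
  rfl

lemma Fgx_zero (m : ℕ) (x : W.H (pX A.X Z m)) : Fgx A θ m x 0 = 0 := by
  have h := Fgx_smul (A := A) (θ := θ) m x 0 0
  rwa [zero_smul, zero_smul] at h

lemma TS_Fgx {S : Symmetry W} (hA : Comm S A) {c : W.K} (hc : c ≠ 0)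
    (h1 : ∀ a b, psi A θ (S.σ A.X a) (S.σ A.X b) = c * psi A θ a b) (m : ℕ)
    (x : W.H (pX A.X Z m)) (g : W.H Z →ₗ[W.K] W.K) :
    TS A S m (Fgx A θ m x g) =
      c ^ m • Fgx A θ m (S.inv.L (pX A.X Z m) x) (g ∘ₗ S.L Z) := by
  funext v
  have h3 : (fun s => psi A θ (((restS A S ∘ v) s : TT A) : W.H A.X)) =
      fun s => c • (psi A θ (v s) ∘ₗ S.inv.L A.X) := by
    funext s
    apply LinearMap.ext
    intro y
    rw [Function.comp_apply, restS_apply hA, LinearMap.smul_apply, LinearMap.comp_apply,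
      smul_eq_mul, ← h1]
    congr 1
    exact (S.L_inv y).symm
  have h4 : g = (g ∘ₗ S.L Z) ∘ₗ S.inv.L Z := by
    apply LinearMap.ext
    intro y
    rw [LinearMap.comp_apply, LinearMap.comp_apply, S.L_inv]
  change msl W m (fun s => psi A θ (((restS A S ∘ v) s : TT A) : W.H A.X)) g x = _
  rw [h3, msl_smul_all, LinearMap.smul_apply, Pi.smul_apply]
  congr 1
  conv_lhs => rw [h4]
  rw [← S.inv.msl_L]
  rfl

lemma TS_pow {S : Symmetry W} (hA : Comm S A) {c : W.K} (hc : c ≠ 0)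
    (h1 : ∀ a b, psi A θ (S.σ A.X a) (S.σ A.X b) = c * psi A θ a b) (m : ℕ) (s : ℕ)
    (x : W.H (pX A.X Z m)) (g : W.H Z →ₗ[W.K] W.K) :
    (TS A S m ^ s) (Fgx A θ m x g) = (c ^ m) ^ s •
      Fgx A θ m (((S.inv.L (pX A.X Z m) : Module.End W.K _) ^ s) x)
        (g ∘ₗ ((S.L Z : Module.End W.K _) ^ s)) := by
  induction s generalizing x g with
  | zero =>
    rw [pow_zero, pow_zero, one_smul, pow_zero, pow_zero]
    rfl
  | succ s ih =>
    rw [pow_succ, Module.End.mul_apply, TS_Fgx hA hc h1, map_smul, ih, smul_smul,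
      ← pow_succ' (c ^ m), pow_succ (S.inv.L (pX A.X Z m) : Module.End W.K _),
      Module.End.mul_apply, LinearMap.comp_assoc, pow_succ' (S.L Z : Module.End W.K _)]
    rfl

lemma L_pow (S : Symmetry W) (Z : 𝒱.Obj) (s : ℕ) (y : W.H Z) :
    ((S.L Z : Module.End W.K _) ^ s) y = ((S.σ Z) ^ s) y := by
  induction s generalizing y with
  | zero => rfl
  | succ s ih =>
    rw [pow_succ, Module.End.mul_apply, ih, pow_succ]
    rfl

lemma inv_pow_L (S : Symmetry W) (X : 𝒱.Obj) (s : ℕ) (x : W.H X) :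
    ((S.inv.L X : Module.End W.K _) ^ s) (((S.L X : Module.End W.K _) ^ s) x) = x := by
  induction s generalizing x with
  | zero => rfl
  | succ s ih =>
    rw [pow_succ, Module.End.mul_apply, pow_succ' (S.L X : Module.End W.K _),
      Module.End.mul_apply, S.inv_L, ih]

/-- The eigenvalues on the form given by an eigenvector. -/
lemma exists_poly {S : Symmetry W} (hA : Comm S A) {c : W.K} (hc : c ≠ 0)
    (h1 : ∀ a b, psi A θ (S.σ A.X a) (S.σ A.X b) = c * psi A θ a b) (m : ℕ)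
    {x : W.H (pX A.X Z m)} {s : ℕ} {t : W.K} (ht : t ≠ 0)
    (hx : ((S.σ (pX A.X Z m)) ^ s) x = t • x) (g : W.H Z →ₗ[W.K] W.K) :
    ∃ R : W.K[X], aeval (TS A S m) R (Fgx A θ m x g) = 0 ∧ ∀ κ, R.IsRoot κ →
      ∃ y : W.H Z, y ≠ 0 ∧ ((S.σ Z) ^ s) y = (κ ^ s * ((c ^ m) ^ s * t⁻¹)⁻¹) • y := by
  have hx' : ((S.inv.L (pX A.X Z m) : Module.End W.K _) ^ s) x = t⁻¹ • x := by
    have h2 := inv_pow_L S (pX A.X Z m) s x
    rw [L_pow S, hx, map_smul] at h2
    rw [eq_inv_smul_iff₀ ht]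
    exact h2
  set μ : W.K := (c ^ m) ^ s * t⁻¹ with hμ
  have hμ0 : μ ≠ 0 := mul_ne_zero (pow_ne_zero _ (pow_ne_zero _ hc)) (inv_ne_zero ht)
  set L : Module.End W.K (W.H Z) := (S.L Z : Module.End W.K _) ^ s with hL
  set U : Module.End W.K ((Fin m → TT A) → W.K) := μ⁻¹ • TS A S m ^ s with hU
  have hxs : ∀ g : W.H Z →ₗ[W.K] W.K, Fgx A θ m (t⁻¹ • x) g = t⁻¹ • Fgx A θ m x g := by
    intro g
    funext v
    change msl W m (fun s => psi A θ (v s)) g (t⁻¹ • x) = _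
    rw [map_smul]
    rfl
  have hU1 : ∀ g : W.H Z →ₗ[W.K] W.K, U (Fgx A θ m x g) = Fgx A θ m x (g ∘ₗ L) := by
    intro g
    rw [hU, LinearMap.smul_apply, TS_pow hA hc h1, hx', hxs, smul_smul, smul_smul, mul_assoc,
      ← hμ, inv_mul_cancel₀ hμ0, one_smul]
  have hU2 : ∀ (n : ℕ) (g : W.H Z →ₗ[W.K] W.K), (U ^ n) (Fgx A θ m x g) =
      Fgx A θ m x (g ∘ₗ L ^ n) := by
    intro n
    induction n with
    | zero => intro g; rfl
    | succ n ih =>
      intro g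
      rw [pow_succ, Module.End.mul_apply, hU1, ih, LinearMap.comp_assoc, pow_succ']
      rfl
  have hU3 : ∀ (P : W.K[X]) (g : W.H Z →ₗ[W.K] W.K), aeval U P (Fgx A θ m x g) =
      Fgx A θ m x (g ∘ₗ aeval L P) := by
    intro P g
    induction P using Polynomial.induction_on' with
    | add P Q hP hQ =>
      rw [map_add, map_add, LinearMap.add_apply, hP, hQ, LinearMap.comp_add, Fgx_add]
    | monomial n a =>
      rw [aeval_monomial, aeval_monomial, Module.End.mul_apply, Module.algebraMap_end_apply, hU2,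
        ← Fgx_smul]
      congr 1
      apply LinearMap.ext
      intro y
      rw [LinearMap.smul_apply, LinearMap.comp_apply, LinearMap.comp_apply,
        Module.End.mul_apply, Module.algebraMap_end_apply, map_smul]
  refine ⟨(minpoly W.K L).comp (C μ⁻¹ * X ^ s), ?_, fun κ hκ => ?_⟩
  · rw [aeval_comp]
    have h2 : aeval (TS A S m) (C μ⁻¹ * X ^ s : W.K[X]) = U := by
      rw [map_mul, aeval_C, map_pow, aeval_X, hU, Algebra.smul_def]
    rw [h2, hU3, minpoly.aeval, LinearMap.comp_zero, Fgx_zero]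
  · rw [IsRoot, eval_comp, eval_mul, eval_C, eval_pow, eval_X] at hκ
    have h2 : L.HasEigenvalue (μ⁻¹ * κ ^ s) := Module.End.hasEigenvalue_of_isRoot hκ
    obtain ⟨y, hy⟩ := h2.exists_hasEigenvector
    refine ⟨y, hy.2, ?_⟩
    rw [← L_pow, mul_comm (κ ^ s)]
    exact hy.apply_eq_smul

/-- The eigenvalues on the space of forms. -/
lemma exists_poly_FA {𝒴 : Set 𝒱.Obj} {S : Symmetry W} (hA : Comm S A) {q : ℕ} (hq : 0 < q) {c₀ : ℤ}
    (h1 : ∀ a b, psi A θ (S.σ A.X a) (S.σ A.X b) = (q : W.K) ^ c₀ * psi A θ a b)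
    (hcyc : ∀ (X : 𝒱.Obj) (j : ℕ) (z : X.Cycles), X.IsCyc j z →
      ∃ s : ℕ, 0 < s ∧ ∃ n : ℕ, ((S.σ X) ^ s) (W.cl X z) = (q : W.K) ^ n • W.cl X z) (m : ℕ)
    {F : (Fin m → TT A) → W.K} (hF : F ∈ FA A θ (QP W 𝒴) m) :
    ∃ R : W.K[X], aeval (TS A S m) R F = 0 ∧ ∀ κ, R.IsRoot κ →
      ∃ Z : 𝒱.Obj, IsProductOf 𝒴 Z ∧ EigenUpTo (S.σ Z) q κ := by
  have hq0 : (q : W.K) ≠ 0 := Nat.cast_ne_zero.2 hq.ne'
  have hadd : ∀ F F' : (Fin m → TT A) → W.K,
      (∃ R : W.K[X], aeval (TS A S m) R F = 0 ∧ ∀ κ, R.IsRoot κ →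
        ∃ Z : 𝒱.Obj, IsProductOf 𝒴 Z ∧ EigenUpTo (S.σ Z) q κ) →
      (∃ R : W.K[X], aeval (TS A S m) R F' = 0 ∧ ∀ κ, R.IsRoot κ →
        ∃ Z : 𝒱.Obj, IsProductOf 𝒴 Z ∧ EigenUpTo (S.σ Z) q κ) →
      ∃ R : W.K[X], aeval (TS A S m) R (F + F') = 0 ∧ ∀ κ, R.IsRoot κ →
        ∃ Z : 𝒱.Obj, IsProductOf 𝒴 Z ∧ EigenUpTo (S.σ Z) q κ := by
    rintro F F' ⟨R, hR, hR'⟩ ⟨Q, hQ, hQ'⟩
    refine ⟨R * Q, ?_, fun κ hκ => ?_⟩
    · rw [map_add, map_mul, Module.End.mul_apply, Module.End.mul_apply, hQ, map_zero, add_zero,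
        ← Module.End.mul_apply, ← map_mul, mul_comm, map_mul, Module.End.mul_apply, hR, map_zero]
    · rw [IsRoot, eval_mul, mul_eq_zero] at hκ
      rcases hκ with h | h
      · exact hR' κ h
      · exact hQ' κ h
  have hsmul : ∀ (a : W.K) (F : (Fin m → TT A) → W.K),
      (∃ R : W.K[X], aeval (TS A S m) R F = 0 ∧ ∀ κ, R.IsRoot κ →
        ∃ Z : 𝒱.Obj, IsProductOf 𝒴 Z ∧ EigenUpTo (S.σ Z) q κ) →
      ∃ R : W.K[X], aeval (TS A S m) R (a • F) = 0 ∧ ∀ κ, R.IsRoot κ →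
        ∃ Z : 𝒱.Obj, IsProductOf 𝒴 Z ∧ EigenUpTo (S.σ Z) q κ := by
    rintro a F ⟨R, hR, hR'⟩
    exact ⟨R, by rw [map_smul, hR, smul_zero], hR'⟩
  have hzero : ∃ R : W.K[X], aeval (TS A S m) R (0 : (Fin m → TT A) → W.K) = 0 ∧
      ∀ κ, R.IsRoot κ → ∃ Z : 𝒱.Obj, IsProductOf 𝒴 Z ∧ EigenUpTo (S.σ Z) q κ := by
    refine ⟨1, map_zero _, fun κ hκ => ?_⟩
    rw [IsRoot, eval_one] at hκ
    exact absurd hκ one_ne_zero
  have hgen : ∀ (Z : 𝒱.Obj), IsProductOf 𝒴 Z → ∀ (g : W.H Z →ₗ[W.K] W.K) (j : ℤ)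
      (x : W.H (pX A.X Z m)), x ∈ spanCycles W (pX A.X Z m) j →
      ∃ R : W.K[X], aeval (TS A S m) R (Fgx A θ m x g) = 0 ∧ ∀ κ, R.IsRoot κ →
        ∃ Z : 𝒱.Obj, IsProductOf 𝒴 Z ∧ EigenUpTo (S.σ Z) q κ := by
    intro Z hZ g j x hx
    induction hx using Submodule.span_induction with
    | mem x hx =>
      obtain ⟨p, hp, z, hz, rfl⟩ := hx
      obtain ⟨s, hs, n, hsn⟩ := hcyc _ _ z hz
      obtain ⟨R, hR, hR'⟩ := exists_poly hA (zpow_ne_zero c₀ hq0) h1 m (pow_ne_zero n hq0) hsn g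
      refine ⟨R, hR, fun κ hκ => ⟨Z, hZ, ?_⟩⟩
      obtain ⟨y, hy, hy'⟩ := hR' κ hκ
      refine ⟨s, -(c₀ * m * s) + n, y, hs, hy, ?_⟩
      rw [hy']
      congr 2
      rw [mul_inv, inv_inv, zpow_add₀ hq0, zpow_neg, zpow_mul, zpow_mul, zpow_natCast,
        zpow_natCast, zpow_natCast]
    | zero =>
      have h2 : Fgx A θ m (0 : W.H (pX A.X Z m)) g = 0 := by
        funext v
        exact map_zero _
      rw [h2]
      exact hzero
    | add x x' _ _ hx hx' =>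
      have h2 : Fgx A θ m (x + x' : W.H (pX A.X Z m)) g = Fgx A θ m x g + Fgx A θ m x' g := by
        funext v
        exact map_add _ _ _
      rw [h2]
      exact hadd _ _ hx hx'
    | smul a x _ hx =>
      have h2 : Fgx A θ m (a • x : W.H (pX A.X Z m)) g = a • Fgx A θ m x g := by
        funext v
        exact map_smul _ _ _
      rw [h2]
      exact hsmul _ _ hx
  induction hF using Submodule.span_induction with
  | mem F hF =>
    obtain ⟨B, q', g, j, x, hB, hq', hg, hx, hn, rfl⟩ := hF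
    obtain ⟨Z, hZ, rfl⟩ := hB
    exact hgen Z hZ g j x hx
  | zero => exact hzero
  | add F F' _ _ hF hF' => exact hadd _ _ hF hF'
  | smul a F _ hF => exact hsmul _ _ hF

/-- The eigenvalue of an eigenvector. -/
lemma eigen_FA {𝒴 : Set 𝒱.Obj} {S : Symmetry W} (hA : Comm S A) {q : ℕ} (hq : 0 < q) {c₀ : ℤ}
    (h1 : ∀ a b, psi A θ (S.σ A.X a) (S.σ A.X b) = (q : W.K) ^ c₀ * psi A θ a b)
    (hcyc : ∀ (X : 𝒱.Obj) (j : ℕ) (z : X.Cycles), X.IsCyc j z →
      ∃ s : ℕ, 0 < s ∧ ∃ n : ℕ, ((S.σ X) ^ s) (W.cl X z) = (q : W.K) ^ n • W.cl X z) (m : ℕ)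
    {F : (Fin m → TT A) → W.K} (hF : F ∈ FA A θ (QP W 𝒴) m) (hne : F ≠ 0) {κ : W.K}
    (hκ : ∀ v, F (restS A S ∘ v) = κ * F v) :
    ∃ Z : 𝒱.Obj, IsProductOf 𝒴 Z ∧ EigenUpTo (S.σ Z) q κ := by
  obtain ⟨R, hR, hR'⟩ := exists_poly_FA hA hq h1 hcyc m hF
  apply hR'
  have h2 : TS A S m F = κ • F := by
    funext v
    exact hκ v
  have h3 : ∀ P : W.K[X], aeval (TS A S m) P F = P.eval κ • F := by
    intro P
    induction P using Polynomial.induction_on' with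
    | add P Q hP hQ => rw [map_add, LinearMap.add_apply, hP, hQ, eval_add, add_smul]
    | monomial n a =>
      rw [aeval_monomial, Module.End.mul_apply, Module.algebraMap_end_apply, eval_monomial,
        mul_smul]
      congr 1
      induction n with
      | zero => rw [pow_zero, pow_zero, one_smul]; rfl
      | succ n ih =>
        rw [pow_succ, Module.End.mul_apply, h2, map_smul, ih, smul_smul, pow_succ, mul_comm]
  rw [h3] at hR
  exact (smul_eq_zero.1 hR).resolve_right hne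

end Forms

end Pool.Agent.Helper786.Det
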