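import Pool.Agent.Helper786_Inv.Vol

/-!
# A family of forms which is not zero contains a product of volume forms
-/

set_option linter.unusedSectionVars false
set_option linter.unusedVariables false
set_option linter.deprecated false

namespace Pool.Agent.Helper786.Inv

open Finset Function Pool.Agent.R908.Km

variable {K : Type*} [Field K] {V : Type*} [AddCommGroup V] [Module K V] {ι : Type}
  [Fintype ι] [DecidableEq ι] {ψ : V →ₗ[K] V →ₗ[K] K} {b c : ι → V} {ε : K}
  {Λ : Type*} [DecidableEq Λ]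
  {β : ι → Λ} {bar : Λ → Λ} {P : Λ → (V →ₗ[K] V)} {𝓕 : FIdeal ψ b c}

lemma card_bar_le (h : DualPair ψ b c ε) (hPb : ∀ l i, P l (b i) = if β i = l then b i else 0)
    (hPadj : ∀ l x y, ψ (P l x) y = ψ x (P (bar l) y)) (hbb : ∀ l, bar (bar l) = l) (l : Λ) :
    Fintype.card (BI β (bar l)) ≤ Fintype.card (BI β l) := by
  classical
  have hinj : Function.Injective (fun i : BI β l => c i) := by
    intro i j hij
    by_contra hne
    have h1 := h.delta (i : ι) j
    have h2 := h.delta (j : ι) j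
    have h3 : c (i : ι) = c (j : ι) := hij
    rw [h3, h2, if_pos rfl, if_neg (fun h4 => hne (Subtype.ext h4))] at h1
    exact one_ne_zero h1
  rw [← Set.card_range_of_injective hinj]
  refine linearIndependent_le_span_aux' (R := K) (fun k : BI β (bar l) => b k) ?_ _ ?_
  · rw [Fintype.linearIndependent_iff]
    intro a ha k
    have h1 := congrArg (ψ (c k)) ha
    rw [map_sum, map_zero, Finset.sum_eq_single k] at h1
    · rw [map_smul, h.delta, if_pos rfl, smul_eq_mul, mul_one] at h1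
      exact h1
    · intro j _ hj
      rw [map_smul, h.delta, if_neg (fun h4 => hj (Subtype.ext h4.symm)), smul_zero]
    · intro h0
      exact absurd (Finset.mem_univ _) h0
  · rintro _ ⟨k, rfl⟩
    have h1 : (b k : V) = ∑ i : BI β l, ψ (b k) (b i) • c i := by
      rw [← Pbar_apply h hPb hPadj hbb, hPb, if_pos k.2]
    beta_reduce
    rw [h1]
    exact Submodule.sum_mem _ fun i _ => Submodule.smul_mem _ _
      (Submodule.subset_span ⟨i, rfl⟩)

lemma card_bar (h : DualPair ψ b c ε) (hPb : ∀ l i, P l (b i) = if β i = l then b i else 0)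
    (hPadj : ∀ l x y, ψ (P l x) y = ψ x (P (bar l) y)) (hbb : ∀ l, bar (bar l) = l) (l : Λ) :
    Fintype.card (BI β (bar l)) = Fintype.card (BI β l) := by
  refine le_antisymm (card_bar_le h hPb hPadj hbb l) ?_
  have h1 := card_bar_le h hPb hPadj hbb (bar l)
  rwa [hbb] at h1

/-- A point with labels. -/
lemma IsVol.exists_point [Fintype Λ] (h : DualPair ψ b c ε)
    (hPb : ∀ l i, P l (b i) = if β i = l then b i else 0)
    (hPadj : ∀ l x y, ψ (P l x) y = ψ x (P (bar l) y)) (hbb : ∀ l, bar (bar l) = l)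
    {d : Λ → ℕ} {S : Type} {ω : (S → V) → K} (hω : IsVol ψ b c β bar d S ω) :
    ∃ (_ : Fintype S) (x : S → V) (lab : S → Λ), ω x ≠ 0 ∧ (∀ s, P (lab s) (x s) = x s) ∧
      ∀ v : Λ → ℝ, ∑ s, v (lab s) = ∑ l, (d l : ℝ) * (Fintype.card (BI β l) * v l) := by
  have hs : ∀ (l : Λ) (f : Λ → ℝ), ∑ l', ((Pi.single l 1 : Λ → ℕ) l' : ℝ) * f l' = f l := by
    intro l f
    rw [Finset.sum_eq_single l]
    · rw [Pi.single_eq_same, Nat.cast_one, one_mul]
    · intro l' _ hl
      rw [Pi.single_eq_of_ne hl, Nat.cast_zero, zero_mul]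
    · intro h0
      exact absurd (Finset.mem_univ _) h0
  induction hω with
  | one =>
    refine ⟨inferInstance, fun _ => 0, fun e => e.elim, one_ne_zero, fun e => e.elim, fun v => ?_⟩
    simp
  | vol l =>
    refine ⟨inferInstance, fun k => b k, fun _ => l, ?_, fun k => ?_, fun v => ?_⟩
    · rw [vol_b h]
      exact one_ne_zero
    · rw [hPb, if_pos k.2]
    · rw [hs, Finset.sum_const, nsmul_eq_mul, Finset.card_univ]
  | vol' l =>
    refine ⟨inferInstance, fun k => c k, fun _ => bar l, ?_, fun k => ?_, fun v => ?_⟩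
    · rw [vol'_c h]
      exact one_ne_zero
    · rw [Pbar_c h hPb hPadj hbb, if_pos k.2]
    · rw [hs, Finset.sum_const, nsmul_eq_mul, Finset.card_univ, card_bar h hPb hPadj hbb]
  | mul _ _ h1 h2 =>
    obtain ⟨_, x, lab, h3, h4, h5⟩ := h1
    obtain ⟨_, x', lab', h3', h4', h5'⟩ := h2
    refine ⟨inferInstance, Sum.elim x x', Sum.elim lab lab', ?_, ?_, fun v => ?_⟩
    · exact mul_ne_zero h3 h3'
    · rintro (s | s)
      · exact h4 s
      · exact h4' s
    · rw [Fintype.sum_sum_type]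
      simp only [Sum.elim_inl, Sum.elim_inr, Pi.add_apply, Nat.cast_add, add_mul,
        Finset.sum_add_distrib]
      rw [h5, h5']

/-- Heavy products of volume forms. -/
lemma exists_heavy (h : DualPair ψ b c ε)
    (hPb : ∀ l i, P l (b i) = if β i = l then b i else 0)
    (hPadj : ∀ l x y, ψ (P l x) y = ψ x (P (bar l) y)) (hbb : ∀ l, bar (bar l) = l)
    (v : Λ → ℝ) (hv : ∀ i, v (bar (β i)) = -v (β i)) :
    ∀ (n : ℕ) (j : Fin n → ι), ∃ (d : Λ → ℕ) (S : Type) (_ : Fintype S) (ω : (S → V) → K)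
      (x : S → V) (lab : S → Λ), IsVol ψ b c β bar d S ω ∧
      Fintype.card S = ∑ s, Fintype.card (BI β (β (j s))) ∧ ω x ≠ 0 ∧
      (∀ s, P (lab s) (x s) = x s) ∧ ∑ s, |v (β (j s))| ≤ ∑ s, v (lab s) := by
  intro n
  induction n with
  | zero =>
    intro j
    refine ⟨0, Empty, inferInstance, _, fun _ => 0, fun e => e.elim, IsVol.one, ?_, one_ne_zero,
      fun e => e.elim, ?_⟩
    · simp
    · simp
  | succ n ih =>
    intro j
    obtain ⟨d, S, _, ω, x, lab, h1, h2, h3, h4, h5⟩ := ih fun s => j s.succ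
    have hcard : (1 : ℝ) ≤ Fintype.card (BI β (β (j 0))) := by
      have h6 : 0 < Fintype.card (BI β (β (j 0))) := Fintype.card_pos_iff.2 ⟨⟨j 0, rfl⟩⟩
      exact_mod_cast h6
    by_cases hpos : 0 ≤ v (β (j 0))
    · refine ⟨_, _, inferInstance, _, Sum.elim (fun k : BI β (β (j 0)) => b k) x,
        Sum.elim (fun _ => β (j 0)) lab, IsVol.mul (IsVol.vol (β (j 0))) h1, ?_, ?_, ?_, ?_⟩
      · rw [Fintype.card_sum, Fin.sum_univ_succ, h2]
      · exact mul_ne_zero (by
          change volF ψ c β (β (j 0)) (fun k => b k) ≠ 0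
          rw [vol_b h]
          exact one_ne_zero) h3
      · rintro (s | s)
        · change P (β (j 0)) (b s) = b s
          rw [hPb, if_pos s.2]
        · exact h4 s
      · rw [Fintype.sum_sum_type, Fin.sum_univ_succ]
        simp only [Sum.elim_inl, Sum.elim_inr]
        rw [Finset.sum_const, nsmul_eq_mul, Finset.card_univ, abs_of_nonneg hpos]
        have h6 := mul_le_mul_of_nonneg_right hcard hpos
        rw [one_mul] at h6
        exact add_le_add h6 h5
    · push Not at hpos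
      refine ⟨_, _, inferInstance, _, Sum.elim (fun k : BI β (β (j 0)) => c k) x,
        Sum.elim (fun _ => bar (β (j 0))) lab, IsVol.mul (IsVol.vol' (β (j 0))) h1, ?_, ?_, ?_, ?_⟩
      · rw [Fintype.card_sum, Fin.sum_univ_succ, h2]
      · exact mul_ne_zero (by
          change volG ψ b β (β (j 0)) (fun k => c k) ≠ 0
          rw [vol'_c h]
          exact one_ne_zero) h3
      · rintro (s | s)
        · change P (bar (β (j 0))) (c s) = c s
          rw [Pbar_c h hPb hPadj hbb, if_pos s.2]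
        · exact h4 s
      · rw [Fintype.sum_sum_type, Fin.sum_univ_succ]
        simp only [Sum.elim_inl, Sum.elim_inr]
        rw [Finset.sum_const, nsmul_eq_mul, Finset.card_univ, hv, abs_of_neg hpos]
        have h6 := mul_le_mul_of_nonneg_right hcard (neg_nonneg.2 hpos.le)
        rw [one_mul] at h6
        exact add_le_add h6 h5

/-- **A family of forms which is not zero contains a product of volume forms, which is not
balanced.** -/
theorem exists_vol [CharZero K] [Fintype Λ] (𝓕 : FIdeal ψ b c) (h : DualPair ψ b c ε) {m : ℕ}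
    {f₀ : (Fin m → V) → K} (hf₀ : f₀ ∈ 𝓕.F m) (h0 : f₀ ≠ 0)
    (hPb : ∀ l i, P l (b i) = if β i = l then b i else 0)
    (hPadj : ∀ l x y, ψ (P l x) y = ψ x (P (bar l) y)) (hbb : ∀ l, bar (bar l) = l)
    (hPst : ∀ l, 𝓕.VarSt (P l))
    (hirr : ∀ U : Submodule K V,
      (∀ u u' : V →ₗ[K] V, (∀ x y, ψ (u x) y = ψ x (u' y)) → 𝓕.VarSt u → 𝓕.VarSt u' →
        ∀ x ∈ U, u x ∈ U) →
      (∀ (σ : V →ₗ[K] V) (χ : K), χ ≠ 0 → (∀ x y, ψ (σ x) (σ y) = χ * ψ x y) →
        (∀ l x, σ (P l x) = P l (σ x)) →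
        (∀ (m : ℕ) (f : (Fin m → V) → K), f ∈ 𝓕.F m → (fun v => f (σ ∘ v)) ∈ 𝓕.F m) →
        ∀ x ∈ U, σ x ∈ U) →
      ∀ l, (∃ x ∈ U, x ≠ 0 ∧ P l x = x) → ∀ y, P l y = y → y ∈ U) :
    ∃ (d : Λ → ℕ) (S : Type) (ω : (S → V) → K), IsVol ψ b c β bar d S ω ∧ ω ∈ 𝓕.FF S ∧
      ∃ l, d (bar l) ≠ d l := by
  classical
  -- existence
  obtain ⟨d, S, ω, hω, hωF⟩ : ∃ (d : Λ → ℕ) (S : Type) (ω : (S → V) → K),
      IsVol ψ b c β bar d S ω ∧ ω ∈ 𝓕.FF S := by
    by_contra hcon
    push Not at hcon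
    set 𝒲 : ∀ S : Type, Set ((S → V) → K) := fun S => {ω | ∃ d, IsVol ψ b c β bar d S ω} with h𝒲
    have hM : MSys 𝓕 𝒲 := by
      refine ⟨?_, ?_, ?_, ?_⟩
      · rintro S ω ⟨d, hω⟩
        obtain ⟨_, x, lab, h1, -, -⟩ := hω.exists_point h hPb hPadj hbb
        exact ⟨x, h1⟩
      · rintro S ω ⟨d, hω⟩
        exact hω.finite
      · rintro S S' ω ω' ⟨d, hω⟩ ⟨d', hω'⟩
        exact ⟨d + d', hω.mul hω'⟩
      · rintro S ω ⟨d, hω⟩
        exact hcon d S ω hω
    -- a multi-index with nonzero value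
    have hf₀F : f₀ ∈ 𝓕.FF (Fin m) := (𝓕.mem_FF (Equiv.refl _)).2 hf₀
    obtain ⟨j, hj⟩ : ∃ j : Fin m → ι, f₀ (fun s => b (j s)) ≠ 0 := by
      by_contra hj
      push Not at hj
      obtain ⟨g, hg⟩ := 𝓕.multi hf₀
      apply h0
      funext w
      have h1 : w = fun s => ∑ i, ψ (c i) (w s) • b i := funext fun s => h.exp_b (w s)
      rw [← hg, h1, g.map_sum]
      refine Finset.sum_eq_zero fun J _ => ?_
      rw [g.map_smul_univ, hg, hj, smul_zero]
    -- the products with heavy volume forms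
    have hbig : ∀ (v : Λ → ℝ), (∀ i, v (bar (β i)) = -v (β i)) →
        ∃ f ∈ (loc hM).F (m + ∑ s, Fintype.card (BI β (β (j s)))),
        ∃ (x : Fin (m + ∑ s, Fintype.card (BI β (β (j s)))) → V)
          (lab : Fin (m + ∑ s, Fintype.card (BI β (β (j s)))) → Λ), f x ≠ 0 ∧
          (∀ s, P (lab s) (x s) = x s) ∧ 0 ≤ ∑ s, v (lab s) := by
      intro v hv
      obtain ⟨d, S, _, ω, x, lab, h1, h2, h3, h4, h5⟩ := exists_heavy h hPb hPadj hbb v hv m j
      obtain ⟨d', S', ω', h1', h6⟩ := h1.exists_partner h hPb hPst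
      have := h1'.finite
      have h7 := h6 (Fin m) f₀ hf₀F
      set e : Fin (m + ∑ s, Fintype.card (BI β (β (j s)))) ≃ Fin m ⊕ S :=
        (finSumFinEquiv.symm).trans (Equiv.sumCongr (Equiv.refl (Fin m))
          ((finCongr h2.symm).trans (Fintype.equivFin S).symm)) with he
      refine ⟨fun v => otimes f₀ ω (v ∘ e.symm), ?_, Sum.elim (fun s => b (j s)) x ∘ e,
        Sum.elim (fun s => β (j s)) lab ∘ e, ?_, ?_, ?_⟩
      · refine loc_mem hM (ω := ω') ⟨d', h1'⟩ ?_
        have h8 := 𝓕.FF_reindex ((Equiv.sumAssoc (Fin m) S S').symm.trans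
          (Equiv.sumCongr e.symm (Equiv.refl S'))) h7
        have h9 : (fun v : Fin (m + ∑ s, Fintype.card (BI β (β (j s)))) ⊕ S' → V =>
            otimes f₀ (otimes ω ω') (v ∘ ((Equiv.sumAssoc (Fin m) S S').symm.trans
          (Equiv.sumCongr e.symm (Equiv.refl S'))))) =
            otimes (fun v => otimes f₀ ω (v ∘ e.symm)) ω' := by
          funext v
          rw [otimes, otimes, otimes, otimes, mul_assoc]
          rfl
        rw [h9] at h8
        exact h8
      · have h8 : (Sum.elim (fun s => b (j s)) x ∘ e) ∘ e.symm =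
            (Sum.elim (fun s => b (j s)) x : Fin m ⊕ S → V) := by
          funext s
          simp
        beta_reduce
        rw [h8]
        exact mul_ne_zero hj h3
      · intro s
        rw [Function.comp_apply, Function.comp_apply]
        rcases e s with t | t
        · rw [Sum.elim_inl, Sum.elim_inl, hPb, if_pos rfl]
        · rw [Sum.elim_inr, Sum.elim_inr]
          exact h4 t
      · have h8 : ∑ s, v ((Sum.elim (fun s => β (j s)) lab ∘ e) s) =
            ∑ s : Fin m ⊕ S, v (Sum.elim (fun s => β (j s)) lab s) :=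
          Equiv.sum_comp e fun s => v (Sum.elim (fun s => β (j s)) lab s)
        rw [h8, Fintype.sum_sum_type]
        simp only [Sum.elim_inl, Sum.elim_inr]
        have h9 : ∑ s, -|v (β (j s))| ≤ ∑ s, v (β (j s)) :=
          Finset.sum_le_sum fun s _ => neg_abs_le _
        rw [Finset.sum_neg_distrib] at h9
        linarith
    obtain ⟨f₁, hf₁, x₁, -, hx₁, -⟩ := hbig 0 (fun i => by simp)
    obtain ⟨v, hv1, hv2⟩ := (loc hM).exists_wts h hf₁
      (fun h1 => hx₁ (by rw [h1]; rfl)) β bar P hPb hPadj hbb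
      (fun l => loc_varSt hM (hPst l)) (by
        intro U hU1 hU2 l hl y hy
        refine hirr U ?_ ?_ l hl y hy
        · intro u u' hadj hu hu'
          exact hU1 u u' hadj (loc_varSt hM hu) (loc_varSt hM hu')
        · intro σ χ hχ hσχ hσP hσF
          refine hU2 σ χ hχ hσχ (loc_sym hM hσF ?_)
          rintro S ω ⟨d, hω⟩
          exact hω.exists_eig h hPb hPadj hbb σ hσP hχ hσχ)
    obtain ⟨f, hf, x, lab, hx, hlab, hsum⟩ := hbig v hv1
    have h1 := hv2 f hf x lab hlab hx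
    exact absurd hsum (not_le.2 h1)
  -- it is not balanced
  refine ⟨d, S, ω, hω, hωF, ?_⟩
  by_contra hbal
  push Not at hbal
  obtain ⟨_, x, lab, h1, h2, h3⟩ := hω.exists_point h hPb hPadj hbb
  set e : Fin (Fintype.card S) ≃ S := (Fintype.equivFin S).symm with he
  have h4 := hωF (Fintype.card S) e
  have h5 : (x ∘ e) ∘ e.symm = x := by
    funext s
    simp
  obtain ⟨v, hv1, hv2⟩ := 𝓕.exists_wts h h4 (by
      intro h6
      apply h1
      have h7 := congrFun h6 (x ∘ e)
      beta_reduce at h7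
      rw [h5] at h7
      exact h7) β bar P hPb hPadj hbb hPst (by
      intro U hU1 hU2
      exact hirr U hU1 fun σ χ hχ hσχ _ hσF => hU2 σ χ hχ hσχ hσF)
  have h6 := hv2 _ h4 (x ∘ e) (lab ∘ e) (fun s => h2 (e s)) (by
    beta_reduce
    rw [h5]
    exact h1)
  have h7 : ∑ s, v ((lab ∘ e) s) = ∑ s, v (lab s) := Equiv.sum_comp e fun s => v (lab s)
  rw [h7, h3 v] at h6
  have h8 : ∑ l, (d l : ℝ) * (Fintype.card (BI β l) * v l) =
      ∑ l, (d (bar l) : ℝ) * (Fintype.card (BI β (bar l)) * v (bar l)) :=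
    (Equiv.sum_comp (⟨bar, bar, hbb, hbb⟩ : Λ ≃ Λ)
      fun l => (d l : ℝ) * (Fintype.card (BI β l) * v l)).symm
  have h9 : ∑ l, (d (bar l) : ℝ) * (Fintype.card (BI β (bar l)) * v (bar l)) =
      -∑ l, (d l : ℝ) * (Fintype.card (BI β l) * v l) := by
    rw [← Finset.sum_neg_distrib]
    refine Finset.sum_congr rfl fun l _ => ?_
    rw [hbal, card_bar h hPb hPadj hbb]
    by_cases hl : ∃ i, β i = l
    · obtain ⟨i, rfl⟩ := hl
      rw [hv1]
      ring
    · have h10 : Fintype.card (BI β l) = 0 :=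
        Fintype.card_eq_zero_iff.2 ⟨fun i => hl ⟨i, i.2⟩⟩
      rw [h10]
      simp
  rw [h9] at h8
  linarith

end Pool.Agent.Helper786.Inv
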