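import Pool.Agent.R908.KqC
import Pool.Agent.Helper786_Inv.VolMain
import Pool.Agent.Helper786_Inv.Good

/-!
# The conjecture D and the determinants of Frobenius elements on the blocks of an abelian variety
-/

set_option autoImplicit false
set_option linter.unusedSectionVars false
set_option linter.unusedVariables false
set_option linter.deprecated false

open CategoryTheory AlgebraicGeometry Polynomial TensorProduct Function

universe u v w

namespace Pool.Agent.Helper786.Det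

open Pool.Agent.H914 Pool.Agent.H914.VarClass Pool.Agent.H914.VarClass.Obj
  Pool.Agent.H914.WeilCohomology Pool.Agent.R908 Pool.Agent.R908.Km Pool.Agent.Helper786.Inv

/-! ### Determinants -/

lemma detOn_of {K B : Type*} [Field K] [Ring B] [Algebra K B] {M : Submodule K B} {σ : B ≃ₐ[K] B}
    (h : ∀ x ∈ M, σ x ∈ M) {J : Type} [Fintype J] [DecidableEq J] (φ : J → (B →ₗ[K] K))
    (w : J → B) (hw : ∀ j, w j ∈ M) (hφ : ∀ i j, φ i (w j) = if i = j then 1 else 0)
    (hexp : ∀ x ∈ M, x = ∑ i, φ i x • w i) :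
    detOn M σ = (Matrix.of fun i j => φ i (σ (w j))).det := by
  have h' : ∀ x ∈ M, σ.toLinearMap x ∈ M := h
  set e : M ≃ₗ[K] (J → K) :=
    { toFun := fun x i => φ i (x : B)
      map_add' := fun x y => by
        funext i
        exact map_add _ _ _
      map_smul' := fun r x => by
        funext i
        exact map_smul _ _ _
      invFun := fun a => ⟨∑ i, a i • w i, Submodule.sum_mem _ fun i _ =>
        Submodule.smul_mem _ _ (hw i)⟩
      left_inv := fun x => Subtype.ext (hexp x x.2).symm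
      right_inv := fun a => by
        funext i
        change φ i (∑ j, a j • w j) = a i
        rw [map_sum, Finset.sum_eq_single i]
        · rw [map_smul, hφ, if_pos rfl, smul_eq_mul, mul_one]
        · intro j _ hj
          rw [map_smul, hφ, if_neg (Ne.symm hj), smul_zero]
        · intro h0
          exact absurd (Finset.mem_univ _) h0 } with he
  rw [detOn, dif_pos h', ← LinearMap.det_toMatrix (Module.Basis.ofEquivFun e)]
  congr 1
  ext i j
  rw [LinearMap.toMatrix_apply, Module.Basis.ofEquivFun_repr_apply,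
    Module.Basis.coe_ofEquivFun, Matrix.of_apply]
  have h1 : ((e.symm (Pi.single j 1) : M) : B) = w j := by
    change ∑ i, (Pi.single j (1 : K) : J → K) i • w i = w j
    rw [Finset.sum_eq_single j]
    · rw [Pi.single_eq_same, one_smul]
    · intro i _ hi
      rw [Pi.single_eq_of_ne hi, zero_smul]
    · intro h0
      exact absurd (Finset.mem_univ _) h0
  change φ i (σ ((e.symm (Pi.single j 1) : M) : B)) = _
  rw [h1]

variable {k : Type u} [Field k] {𝒱 : VarClass k} {ops : CycleOps 𝒱}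
  {W : WeilCohomology.{u, v} ops}

section Blk

variable {A : Mot W} {w : ℕ} {ε : W.K} {θ θ' : W.H A.X →ₗ[W.K] W.H A.X} {Q : Mot W → Prop}
  {Λ : Type} [Fintype Λ] {bar : Λ → Λ} {p : Λ → (W.H A.X →ₗ[W.K] W.H A.X)}

lemma rest_b (hb : Blocks A θ Finset.univ bar p) {n : ℕ} {b : Fin n → TT A} {β : Fin n → Λ}
    (hβ : ∀ i, p (β i) (b i) = b i) [DecidableEq Λ] (l : Λ) (i : Fin n) :
    rest A (p l) (b i) = if β i = l then b i else 0 := by
  apply Subtype.ext
  rw [rest_block hb]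
  by_cases hl : β i = l
  · rw [if_pos hl, ← hl, hβ]
  · rw [if_neg hl, ← hβ i]
    exact congrArg (fun F => F (b i : W.H A.X)) (hb.ortho l (β i) (Ne.symm hl))

lemma rest_comm (hb : Blocks A θ Finset.univ bar p) {S : Symmetry W} (hS : Comm S A)
    (hc : ∀ l x, S.σ A.X (p l x) = p l (S.σ A.X x)) (l : Λ) (x : TT A) :
    restS A S (rest A (p l) x) = rest A (p l) (restS A S x) := by
  apply Subtype.ext
  rw [restS_apply hS, rest_block hb, rest_block hb, restS_apply hS, hc]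

lemma rest_adj (hb : Blocks A θ Finset.univ bar p) (l : Λ) (x y : TT A) :
    psiT A θ (rest A (p l) x) y = psiT A θ x (rest A (p (bar l)) y) := by
  rw [psiT_apply, psiT_apply, rest_block hb, rest_block hb, hb.adj]

/-- The product of volume forms in the space of forms. -/
theorem Blocks.exists_volume (h : SelfDual A w ε θ θ') (hb : Blocks A θ Finset.univ bar p)
    (hQt : ∀ B B', Q B → Q B' → Q (B.tensor B'))
    (hQ : ∀ B, Q B → B.Num) (𝒢 : Set (Symmetry W)) (hAS : ∀ S ∈ 𝒢, Comm S A)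
    (hθS : ∀ S ∈ 𝒢, SimTheta S θ) (hQS : ∀ S ∈ 𝒢, ∀ B, Q B → Comm S B)
    (hpS : ∀ S ∈ 𝒢, ∀ l x, S.σ A.X (p l x) = p l (S.σ A.X x))
    (hirr : ∀ U : Submodule W.K (W.H A.X), U ≤ LinearMap.range A.e →
      (∀ (δ : ℤ) (φ : W.H A.X →ₗ[W.K] W.H A.X), φ ∈ KOp W A.X A.X δ → ∀ x ∈ U, A.e (φ x) ∈ U) →
      (∀ S ∈ 𝒢, ∀ x ∈ U, S.σ A.X x ∈ U) → ∀ l, (∃ x ∈ U, x ≠ 0 ∧ p l x = x) →
        ∀ y, p l y = y → y ∈ U)
    {m : ℕ} {F₀ : (Fin m → TT A) → W.K} (hF₀ : F₀ ∈ FA A θ Q m) (hne : F₀ ≠ 0)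
    [DecidableEq Λ] :
    ∃ (n : ℕ) (b c : Fin n → TT A) (β : Fin n → Λ) (_ : DualPair (psiT A θ) b c ε),
      (∀ i, p (β i) (b i) = b i) ∧
      ∃ (d : Λ → ℕ) (S : Type) (ω : (S → TT A) → W.K), IsVol (psiT A θ) b c β bar d S ω ∧
        (∀ (N : ℕ) (e : Fin N ≃ S), (fun v : Fin N → TT A => ω (v ∘ e.symm)) ∈ FA A θ Q N) ∧
        ∃ l, d (bar l) ≠ d l := by
  obtain ⟨n, b, β, hβ⟩ := hb.exists_basis
  obtain ⟨c, hbc⟩ := h.exists_dual_of b
  refine ⟨n, fun i => b i, c, β, hbc, hβ, ?_⟩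
  obtain ⟨d, S, ω, hω, hωF, hl⟩ := exists_vol (fId h hQt hQ hbc) hbc hF₀ hne (β := β) (bar := bar)
    (P := fun l => rest A (p l)) (rest_b hb hβ) (rest_adj hb) hb.bb
    (by
      intro l m f hf s
      obtain ⟨δ, hδ⟩ := hb.mem l
      exact FA_subst h hδ s hf)
    (by
      intro U hU1 hU2 l hl y hy
      have h1 := hirr (U.map (TT A).subtype) (by
          rintro _ ⟨x, -, rfl⟩
          exact x.2) (by
          rintro δ φ hφ _ ⟨x, hx, rfl⟩
          obtain ⟨δ', Φ, hΦ, hadj⟩ := h.exists_adj hφ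
          refine ⟨rest A φ x, hU1 (rest A φ) (rest A Φ) ?_ ?_ ?_ x hx, rfl⟩
          · intro x y
            rw [psiT_apply, psiT_apply, rest_apply, rest_apply, h.psi_e_left, h.psi_e, ← hadj,
              TT_e]
          · intro m f hf s
            exact FA_subst h hφ s hf
          · intro m f hf s
            exact FA_subst h hΦ s hf) (by
          rintro S hS _ ⟨x, hx, rfl⟩
          obtain ⟨c, hc, h1⟩ := psi_sym (A := A) (hθS S hS)
          refine ⟨restS A S x, hU2 (restS A S) c hc ?_ ?_ ?_ x hx, restS_apply (hAS S hS) x⟩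
          · intro x y
            rw [psiT_apply, psiT_apply, restS_apply (hAS S hS), restS_apply (hAS S hS), h1]
          · exact rest_comm hb (hAS S hS) (hpS S hS)
          · intro m f hf
            exact FA_sym h (hAS S hS) (hθS S hS) (hQS S hS) hf) l (by
          obtain ⟨x, hx, hx0, hxl⟩ := hl
          refine ⟨x, ⟨x, hx, rfl⟩, fun h0 => hx0 (Subtype.ext h0), ?_⟩
          have h2 := congrArg Subtype.val hxl
          rwa [rest_block hb] at h2) y (by
          have h2 := congrArg Subtype.val hy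
          rwa [rest_block hb] at h2)
      obtain ⟨y', hy', h3⟩ := h1
      have h4 : y' = y := Subtype.ext h3
      rwa [h4] at hy')
  exact ⟨d, S, ω, hω, hωF, hl⟩

variable {n : ℕ} {b c : Fin n → TT A} {β : Fin n → Λ} [DecidableEq Λ]

lemma det_mL (hb : Blocks A θ Finset.univ bar p) (hbc : DualPair (psiT A θ) b c ε)
    (hβ : ∀ i, p (β i) (b i) = b i) {S : Symmetry W} (hS : Comm S A)
    (hc : ∀ l x, S.σ A.X (p l x) = p l (S.σ A.X x)) {M : Λ → Submodule W.K (W.H A.X)}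
    (hM : ∀ l x, x ∈ M l ↔ p l x = x) (l : Λ) :
    (mL (psiT A θ) b c β (restS A S) l).det = detOn (M l) (S.σ A.X) := by
  have hmem : ∀ x, p l x = x → ∃ x' : TT A, (x' : W.H A.X) = x ∧ rest A (p l) x' = x' := by
    intro x hx
    have h1 : A.e x = x := by
      rw [← hx]
      exact congrArg (fun F => F x) (hb.e_p l)
    refine ⟨⟨x, x, h1⟩, rfl, ?_⟩
    apply Subtype.ext
    rw [rest_block hb]
    exact hx
  rw [detOn_of (M := M l) (σ := S.σ A.X) (fun x hx => by
      rw [hM] at hx ⊢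
      rw [← hc, hx]) (J := BI β l) (fun i => psi A θ (c i : W.H A.X))
    (fun j => ((b j : TT A) : W.H A.X)) (fun j => by
      rw [hM]
      have h1 := congrArg Subtype.val (rest_b hb hβ l (j : Fin n))
      rw [rest_block hb, if_pos j.2] at h1
      exact h1) (fun i j => by
      have h1 := hbc.delta (i : Fin n) j
      rw [psiT_apply] at h1
      rw [h1]
      simp only [Subtype.ext_iff]) (fun x hx => by
      rw [hM] at hx
      obtain ⟨x', rfl, hx'⟩ := hmem x hx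
      have h1 := P_apply hbc (rest_b hb hβ) l x'
      rw [hx'] at h1
      have h2 := congrArg Subtype.val h1
      rw [AddSubmonoidClass.coe_finset_sum] at h2
      exact h2)]
  congr 1
  ext i j
  rw [mL, Matrix.of_apply, Matrix.of_apply, psiT_apply, restS_apply hS]

lemma det_mL' (hb : Blocks A θ Finset.univ bar p) (hbc : DualPair (psiT A θ) b c ε)
    (hβ : ∀ i, p (β i) (b i) = b i) {S : Symmetry W} (hS : Comm S A)
    (hc : ∀ l x, S.σ A.X (p l x) = p l (S.σ A.X x)) {M : Λ → Submodule W.K (W.H A.X)}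
    (hM : ∀ l x, x ∈ M l ↔ p l x = x) (l : Λ) :
    (mL' (psiT A θ) b c β (restS A S) l).det = detOn (M (bar l)) (S.σ A.X) := by
  have hmem : ∀ x, p (bar l) x = x → ∃ x' : TT A, (x' : W.H A.X) = x ∧
      rest A (p (bar l)) x' = x' := by
    intro x hx
    have h1 : A.e x = x := by
      rw [← hx]
      exact congrArg (fun F => F x) (hb.e_p (bar l))
    refine ⟨⟨x, x, h1⟩, rfl, ?_⟩
    apply Subtype.ext
    rw [rest_block hb]
    exact hx
  rw [detOn_of (M := M (bar l)) (σ := S.σ A.X) (fun x hx => by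
      rw [hM] at hx ⊢
      rw [← hc, hx]) (J := BI β l) (fun i => (psi A θ).flip (b i : W.H A.X))
    (fun j => ((c j : TT A) : W.H A.X)) (fun j => by
      rw [hM]
      have h1 := congrArg Subtype.val (Pbar_c (P := fun l => rest A (p l)) hbc (rest_b hb hβ)
        (rest_adj hb) hb.bb l (j : Fin n))
      rw [rest_block hb, if_pos j.2] at h1
      exact h1) (fun i j => by
      have h1 := hbc.delta (j : Fin n) i
      rw [psiT_apply] at h1
      rw [LinearMap.flip_apply, h1]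
      simp only [Subtype.ext_iff, eq_comm]) (fun x hx => by
      rw [hM] at hx
      obtain ⟨x', rfl, hx'⟩ := hmem x hx
      have h1 := Pbar_apply (P := fun l => rest A (p l)) hbc (rest_b hb hβ) (rest_adj hb) hb.bb
        l x'
      beta_reduce at h1
      rw [hx'] at h1
      have h2 := congrArg Subtype.val h1
      rw [AddSubmonoidClass.coe_finset_sum] at h2
      exact h2), ← Matrix.det_transpose]
  congr 1
  ext i j
  rw [Matrix.transpose_apply, mL', Matrix.of_apply, Matrix.of_apply, LinearMap.flip_apply,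
    psiT_apply, restS_apply hS]

end Blk

lemma restS_spow {A : Mot W} {S : Symmetry W} (hS : Comm S A) {s : ℕ} (hS' : Comm (spow S s) A)
    {N : Type} {F : (N → TT A) → W.K} {κ : W.K} (hF : ∀ v, F (restS A S ∘ v) = κ * F v)
    (v : N → TT A) : F (restS A (spow S s) ∘ v) = κ ^ s * F v := by
  have h1 : ∀ (s : ℕ) (hS' : Comm (spow S s) A) (x : TT A),
      ((restS A (spow S s) x : TT A) : W.H A.X) = ((S.σ A.X) ^ s) x := fun s hS' x =>
    restS_apply hS' x
  have h2 : ∀ (s : ℕ) (x : TT A), ∃ y : TT A, (y : W.H A.X) = ((S.σ A.X) ^ s) x ∧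
      y = (restS A S)^[s] x := by
    intro s
    induction s with
    | zero => intro x; exact ⟨x, rfl, rfl⟩
    | succ s ih =>
      intro x
      obtain ⟨y, hy, hy'⟩ := ih (restS A S x)
      refine ⟨y, ?_, ?_⟩
      · rw [hy, restS_apply hS, pow_succ]
        rfl
      · rw [hy', Function.iterate_succ_apply]
  have h3 : restS A (spow S s) ∘ v = (fun x => (restS A S)^[s] x) ∘ v := by
    funext i
    obtain ⟨y, hy, hy'⟩ := h2 s (v i)
    change restS A (spow S s) (v i) = (restS A S)^[s] (v i)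
    rw [← hy']
    apply Subtype.ext
    rw [h1 s hS', hy]
  rw [h3]
  clear h3
  induction s generalizing v with
  | zero =>
    rw [pow_zero, one_mul]
    rfl
  | succ s ih =>
    have hs : Comm (spow S s) A := by
      intro a
      exact (pow_intertwines' (S.σ A.X) (S.σ A.X) A.e (fun a => (hS a).symm) s a).symm
    have h4 := ih hs (restS A S ∘ v)
    have h5 : (fun x => (restS A S)^[s + 1] x) ∘ v = (fun x => (restS A S)^[s] x) ∘
        (restS A S ∘ v) := by
      funext i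
      exact Function.iterate_succ_apply _ _ _
    rw [h5, h4, hF, pow_succ, mul_assoc]

variable {A Y : 𝒱.Obj} {m : A.prod A ⟶ A} {D : A.Cycles}
  {𝒢 : Set (Symmetry W)} {Λ : Type} [Fintype Λ] {bar : Λ → Λ}
  {p : Λ → Module.End W.K (W.H A)} {π : ℕ → (W.H A →ₗ[W.K] W.H A)}

/-- The multiplier of a Frobenius element. -/
lemma psi_frob (hπ : IsProjs W A π) (hK : ∀ i, π i ∈ KOp W A A 0) {S : Symmetry W} {q : ℕ}
    (hS : IsFrobeniusElement S q) {s : ℕ}
    (hs : ((S.σ A) ^ s) (W.cl A D) = ((q : W.K) ^ 1) ^ s • W.cl A D) :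
    ∃ c₀ : ℤ, ∀ a b : W.H (Hi hπ hK 1).X,
      psi (Hi hπ hK 1) (lefP W A D (A.dim - 1) ∘ₗ π 1) ((spow S s).σ (Hi hπ hK 1).X a)
        ((spow S s).σ (Hi hπ hK 1).X b) =
      (q : W.K) ^ c₀ * psi (Hi hπ hK 1) (lefP W A D (A.dim - 1) ∘ₗ π 1) a b := by
  have hq0 : (q : W.K) ≠ 0 := Nat.cast_ne_zero.2 hS.1.ne'
  set t : W.K := ((q : W.K) ^ 1) ^ s with ht
  have ht0 : t ≠ 0 := pow_ne_zero _ (pow_ne_zero _ hq0)
  have hD : (spow S s).σ A (W.cl A D) = t • W.cl A D := hs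
  have key : ∀ a : W.H A, lefP W A D (A.dim - 1) (π 1 ((spow S s).σ A a)) =
      (t ^ (A.dim - 1))⁻¹ • (spow S s).σ A (lefP W A D (A.dim - 1) (π 1 a)) := by
    intro a
    rw [lefP_eq, lefP_eq, map_mul, map_pow, hD, _root_.smul_pow, smul_mul_assoc, smul_smul,
      inv_mul_cancel₀ (pow_ne_zero _ ht0), one_smul, hπ.comm]
  refine ⟨-((s * (A.dim - 1) : ℕ) : ℤ) + ((A.dim * s : ℕ) : ℤ), ?_⟩
  intro (a : W.H A) (b : W.H A)
  change W.tr A ((spow S s).σ A a * lefP W A D (A.dim - 1) (π 1 ((spow S s).σ A b))) =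
    _ * W.tr A (a * lefP W A D (A.dim - 1) (π 1 b))
  rw [key, mul_smul_comm, map_smul, ← map_mul, (spow S s).tr, smul_eq_mul, ← mul_assoc]
  congr 1
  have h1 : (spow S s).c A = ((q : W.K) ^ A.dim) ^ s := by
    change (S.c A) ^ s = _
    rw [(hS.2 A).1]
    rfl
  rw [h1, zpow_add₀ hq0, zpow_neg, zpow_natCast, zpow_natCast, ht, pow_one, ← pow_mul, ← pow_mul]

/-- **All forms given by numerically trivial classes vanish.** -/
theorem forms_zero {𝒴 : Set 𝒱.Obj} (hA : IsAbelianType 𝒢 A m D)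
    (hp : IsBlockSystemOne 𝒢 A D bar p) (h𝒢 : ∀ S ∈ 𝒢, PreservesBlocks S p)
    (hY : ∀ Z, IsProductOf 𝒴 Z → HomEqNum W Z) (𝓕 : Set (Symmetry W × ℕ))
    (h𝓕 : ∀ S ∈ 𝓕, IsFrobeniusElement S.1 S.2 ∧ PreservesBlocks S.1 p)
    (hdet : ∀ d : Λ → ℕ, (∀ S ∈ 𝓕, IsDetRelation p 𝒴 S.1 S.2 d) → ∀ l, d (bar l) = d l)
    (hπ : IsProjs W A π) (hK : ∀ i, π i ∈ KOp W A A 0) {θ' : W.H A →ₗ[W.K] W.H A}
    (hself : SelfDual (Hi hπ hK 1) 1 (-1) (lefP W A D (A.dim - 1) ∘ₗ π 1) θ') (n₀ : ℕ)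
    (F₀ : (Fin n₀ → TT (Hi hπ hK 1)) → W.K)
    (hF₀ : F₀ ∈ FA (Hi hπ hK 1) (lefP W A D (A.dim - 1) ∘ₗ π 1) (QP W 𝒴) n₀) : F₀ = 0 := by
  classical
  by_contra hF₀ne
  have hb := hp.blocks hA.divisor hπ hK
  have hcom : ∀ S : Symmetry W, PreservesBlocks S p → ∀ (l : Λ) (x : W.H (Hi hπ hK 1).X),
      S.σ (Hi hπ hK 1).X ((p l ∘ₗ π 1) x) = (p l ∘ₗ π 1) (S.σ (Hi hπ hK 1).X x) := by
    intro S hS l x
    change S.σ A (p l (π 1 x)) = p l (π 1 (S.σ A x))
    rw [← hπ.comm]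
    exact hS l _ (hπ.mem_gr 1 x)
  obtain ⟨n, b, c, β, hbc, hβ, d, S₁, ω, hω, hωF, hunb⟩ := Blocks.exists_volume hself hb
    (Q := QP W 𝒴)
    (by
      rintro B B' ⟨Z, hZ, rfl⟩ ⟨Z', hZ', rfl⟩
      exact ⟨Z.prod Z', IsProductOf.prod hZ hZ', whole_tensor Z Z'⟩)
    (by
      rintro B ⟨Z, hZ, rfl⟩
      exact num_whole (hY Z hZ)) 𝒢 (fun S _ => hπ.comm S 1)
    (by
      intro S hS
      obtain ⟨c, hc, hcD⟩ := hA.scaled S hS
      have key : ∀ a : W.H A, lefP W A D (A.dim - 1) (π 1 (S.σ A a)) =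
          (c ^ (A.dim - 1))⁻¹ • S.σ A (lefP W A D (A.dim - 1) (π 1 a)) := by
        intro a
        rw [lefP_eq, lefP_eq, map_mul, map_pow, hcD, _root_.smul_pow, smul_mul_assoc, smul_smul,
          inv_mul_cancel₀ (pow_ne_zero _ hc), one_smul, hπ.comm]
      exact ⟨(c ^ (A.dim - 1))⁻¹, inv_ne_zero (pow_ne_zero _ hc), key⟩)
    (by
      rintro S _ B ⟨Z, hZ, rfl⟩ a
      rfl)
    (fun S hS => hcom S (h𝒢 S hS))
    (by
      intro (U : Submodule W.K (W.H A)) hU hst' hS' l hl (y : W.H A) hy'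
      have hst : ∀ (δ : ℤ) (φ : W.H A →ₗ[W.K] W.H A), φ ∈ KOp W A A δ → ∀ x ∈ U,
        π 1 (φ x) ∈ U := hst'
      have hfix : ∀ x ∈ U, π 1 x = x := by
        intro x hx
        obtain ⟨y, hy⟩ := hU hx
        rw [← hy]
        exact congrArg (fun F => F y) (hπ.idem 1)
      have hgr : ∀ x ∈ U, x ∈ W.gr A 1 := by
        intro x hx
        rw [← hfix x hx]
        exact hπ.mem_gr 1 x
      obtain ⟨x, hx, hx0, hxl⟩ := hl
      have hy : p l (π 1 y) = y := hy'
      have hxl' : p l (π 1 x) = x := hxl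
      have hygr : y ∈ W.gr A 1 := by
        rw [← hy]
        exact Mot.hom_deg0 (hp.mem l) (hπ.mem_gr 1 y)
      refine hp.irreducible U hgr ?_ ?_ l ⟨x, hx, hx0, ?_⟩ y hygr ?_
      · rintro _ ⟨z, hz, rfl⟩ x hx
        have hφ0 : W.corr (W.cl _ z) ∈ KOp W A A 0 := KOp.gen (by rw [add_zero]) hz
        have h1 : π 1 (W.corr (W.cl _ z) x) = W.corr (W.cl _ z) x :=
          hπ.self (Mot.hom_deg0 hφ0 (hgr x hx))
        rw [← h1]
        exact hst _ _ hφ0 x hx
      · rintro _ ⟨S, hS, rfl⟩ x hx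
        exact hS' S hS x hx
      · rwa [hfix x hx] at hxl'
      · rwa [hπ.self hygr] at hy) hF₀ hF₀ne
  obtain ⟨l₀, hl₀⟩ := hunb
  apply hl₀
  refine hdet d (fun S hS => ?_) l₀
  obtain ⟨hfr, hpr⟩ := h𝓕 S hS
  obtain ⟨s, hs, hsD⟩ := (hfr.2 A).2 1 D hA.divisor
  obtain ⟨c₀, hc₀⟩ := psi_frob hπ hK hfr hsD
  have hM : ∀ (l : Λ) (x : W.H (Hi hπ hK 1).X), x ∈ fixSub (W.gr A 1) (p l) ↔
      (p l ∘ₗ π 1) x = x := by
    intro l (x : W.H A)
    constructor
    · intro hx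
      have h1 : x ∈ W.gr A 1 := hx.1
      have h2 : p l x = x := hx.2
      change p l (π 1 x) = x
      rw [hπ.self h1, h2]
    · intro hx'
      have hx : p l (π 1 x) = x := hx'
      have h1 : x ∈ W.gr A 1 := by
        rw [← hx]
        exact Mot.hom_deg0 (hp.mem l) (hπ.mem_gr 1 x)
      refine ⟨h1, ?_⟩
      rw [hπ.self h1] at hx
      exact hx
  -- the eigenvalue of the product of volume forms
  have heig := hω.eig hbc (rest_b hb hβ) (rest_adj hb) hb.bb (restS (Hi hπ hK 1) S.1)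
    (rest_comm hb (hπ.comm S.1 1) (hcom S.1 hpr))
    (D := fun l => detOn (fixSub (W.gr A 1) (p l)) (S.1.σ A))
    (det_mL hb hbc hβ (hπ.comm S.1 1) (hcom S.1 hpr) hM)
    (det_mL' hb hbc hβ (hπ.comm S.1 1) (hcom S.1 hpr) hM)
  have hfin := hω.finite
  obtain ⟨N, ⟨e'⟩⟩ := Finite.exists_equiv_fin S₁
  set e : Fin N ≃ S₁ := e'.symm with he
  have hcyc : ∀ (X : 𝒱.Obj) (j : ℕ) (z : X.Cycles), X.IsCyc j z →
      ∃ r : ℕ, 0 < r ∧ ∃ n : ℕ, (((spow S.1 s).σ X) ^ r) (W.cl X z) =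
        (S.2 : W.K) ^ n • W.cl X z := by
    intro X j z hz
    obtain ⟨r, hr, hr'⟩ := (hfr.2 X).2 j z hz
    refine ⟨r, hr, j * r * s, ?_⟩
    change (((S.1.σ X) ^ s) ^ r) (W.cl X z) = _
    rw [← pow_mul, mul_comm s r, pow_mul]
    have h1 : ∀ t : ℕ, (((S.1.σ X) ^ r) ^ t) (W.cl X z) =
        ((S.2 : W.K) ^ (j * r)) ^ t • W.cl X z := by
      intro t
      induction t with
      | zero => rw [pow_zero, pow_zero, one_smul]; rfl
      | succ t ih =>
        rw [pow_succ]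
        change (((S.1.σ X) ^ r) ^ t) (((S.1.σ X) ^ r) (W.cl X z)) = _
        rw [hr', map_smul, ih, smul_smul, ← pow_mul (S.2 : W.K) j r, ← pow_succ']
    rw [h1, ← pow_mul]
  obtain ⟨_, x₁, -, hx₁, -, -⟩ := hω.exists_point hbc (rest_b hb hβ) (rest_adj hb) hb.bb
  obtain ⟨Z, hZ, r, a, y, hr, hy, hy'⟩ := eigen_FA (A := Hi hπ hK 1) (𝒴 := 𝒴)
    (S := spow S.1 s) (hπ.comm (spow S.1 s) 1) hfr.1 hc₀ hcyc N (hωF N e)
    (by
      intro h0
      apply hx₁
      have h1 := congrFun h0 (x₁ ∘ e)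
      beta_reduce at h1
      have h2 : (x₁ ∘ e) ∘ e.symm = x₁ := by
        funext i
        simp
      rw [h2] at h1
      exact h1)
    (κ := (detProd (W.gr A 1) p (S.1.σ A) d) ^ s)
    (by
      intro v
      refine restS_spow (A := Hi hπ hK 1) (hπ.comm S.1 1) (hπ.comm (spow S.1 s) 1)
        (F := fun v : Fin N → TT (Hi hπ hK 1) => ω (v ∘ e.symm)) ?_ v
      intro v
      exact heig (v ∘ e.symm))
  refine ⟨Z, hZ, s * r, a, y, Nat.mul_pos hs hr, hy, ?_⟩
  rw [pow_mul, pow_mul]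
  exact hy'

end Pool.Agent.Helper786.Det
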