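import Pool.Agent.R908.KnI
import Pool.Agent.R908.KoC
import Pool.Agent.Helper786_Inv.DetMain

/-!
# From the forms to the conjecture D for products
-/

set_option autoImplicit false
set_option linter.unusedSectionVars false
set_option linter.unusedVariables false
set_option linter.deprecated false

open CategoryTheory AlgebraicGeometry TensorProduct Function

universe u v

namespace Pool.Agent.Helper786.Det

open Pool.Agent.H914 Pool.Agent.H914.VarClass Pool.Agent.H914.VarClass.Obj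
  Pool.Agent.H914.WeilCohomology Pool.Agent.R908 Pool.Agent.R908.Km Pool.Agent.Helper786.Inv

variable {k : Type u} [Field k] {𝒱 : VarClass k} {ops : CycleOps 𝒱}
  {W : WeilCohomology.{u, v} ops} {𝒴 : Set 𝒱.Obj}

/-- The property `Num` from the vanishing of the forms. -/
theorem pM_num_of_zero {A : Mot W} {w : ℕ} {ε : W.K} {θ θ' : W.H A.X →ₗ[W.K] W.H A.X}
    {Q : Mot W → Prop} (h : SelfDual A w ε θ θ')
    (hzero : ∀ (m : ℕ) (F : (Fin m → TT A) → W.K), F ∈ FA A θ Q m → F = 0)
    {B : Mot W} (hB : Q B) (m : ℕ) : (pM A B m).Num := by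
  intro j (x : W.H (pX A.X B.X m)) hx hn
  change pE A B m x = 0
  apply msl_sep
  intro f g
  have h1 := congrArg (fun F => F x) (msl_pE A B m f g)
  beta_reduce at h1
  rw [LinearMap.comp_apply] at h1
  rw [h1]
  choose t ht using fun s => h.exists_psi (f s)
  have h2 : (fun i => f i ∘ₗ A.e) = fun i => psi A θ (t i) := funext ht
  rw [h2]
  have hsum := sum_proj (W.isInternal B.X) (N := 2 * B.X.dim + 1)
    (fun i hi => W.gr_eq_bot B.X i (by omega))
  have h3 : g ∘ₗ B.e = ∑ i ∈ Finset.range (2 * B.X.dim + 1),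
      g ∘ₗ proj (W.isInternal B.X) i ∘ₗ B.e := by
    apply LinearMap.ext
    intro y
    rw [LinearMap.comp_apply, LinearMap.sum_apply]
    have h4 := congrArg (fun F => F (B.e y)) hsum
    simp only [LinearMap.sum_apply, Module.End.one_apply] at h4
    conv_lhs => rw [← h4]
    rw [map_sum]
    rfl
  rw [h3, msl_sum_g, LinearMap.sum_apply]
  apply Finset.sum_eq_zero
  intro i _
  have h4 := hzero m _ (FA_gen (A := A) (θ := θ) (Q := Q) ⟨B, i,
    g ∘ₗ proj (W.isInternal B.X) i ∘ₗ B.e, j, x, hB, par_proj g i B.mem, by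
      rw [LinearMap.comp_assoc, LinearMap.comp_assoc, B.idem], hx, hn, rfl⟩)
  exact congrFun h4 t

/-- The pieces built from `A`, pieces cut out by algebraic classes, and products of members of `𝒴`. -/
def PieceCls (𝒴 : Set 𝒱.Obj) (A : Mot W) (B : Mot W) : Prop :=
  NN (BaseCls (∅ : Set (Symmetry W)) 𝒴) [A] B.m

lemma PieceCls.tensor {A : Mot W} (B C : Mot W) (hB : PieceCls 𝒴 A B) (hC : PieceCls 𝒴 A C) :
    PieceCls 𝒴 A (B.tensor C) := by
  have h1 := NN_mul (BaseCls.mul (𝒢 := (∅ : Set (Symmetry W))) (𝒴 := 𝒴)) [A] _ _ hB hC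
  exact h1

lemma PieceCls.letter (A : Mot W) : PieceCls 𝒴 A A :=
  ⟨1, 1, BaseCls.one, by rw [pow_one, mul_one]⟩

lemma PieceCls.alg (A : Mot W) {B : Mot W} (hB : B.Alg) : PieceCls 𝒴 A B :=
  ⟨0, B.m, ⟨[B], by
    intro C hC
    rw [List.mem_singleton] at hC
    rw [hC]
    exact ⟨hB, fun S hS => absurd hS (Set.notMem_empty S)⟩, 1, Or.inl rfl, by
      rw [List.map_singleton, List.prod_singleton, mul_one]⟩, by rw [pow_zero, one_mul]⟩

lemma PieceCls.whole (A : Mot W) {Y : 𝒱.Obj} (hY : IsProductOf 𝒴 Y) :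
    PieceCls 𝒴 A (R908.whole W Y) :=
  ⟨0, (R908.whole W Y).m, ⟨[], fun B hB => absurd hB List.not_mem_nil, (R908.whole W Y).m,
    Or.inr ⟨Y, hY, rfl⟩, by rw [List.map_nil, List.prod_nil, one_mul]⟩, by
      rw [pow_zero, one_mul]⟩

/-- All these pieces have the property `Num`. -/
theorem PieceCls.num {A : Mot W} (hunit : ∃ Y, IsProductOf 𝒴 Y ∧ (1 : W.H Y) ≠ 0)
    (hnum : ∀ Y, IsProductOf 𝒴 Y → ∀ n, (pM A (R908.whole W Y) n).Num) {B : Mot W}
    (hB : PieceCls 𝒴 A B) : B.Num := by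
  have main : ∀ (n : ℕ) (L : List (Mot W)), (∀ B ∈ L, B.Alg ∧
      ∀ S ∈ (∅ : Set (Symmetry W)), Comm S B) → ∀ Y, IsProductOf 𝒴 Y →
      MNum (A.m ^ n * ((L.map Mot.m).prod * (R908.whole W Y).m)) := by
    intro n L hL Y hY
    induction L with
    | nil =>
      rw [List.map_nil, List.prod_nil, one_mul]
      have h1 : A.m ^ n * (R908.whole W Y).m = (pM A (R908.whole W Y) n).m :=
        (pM_m A (R908.whole W Y) n).symm
      rw [h1, mnum_m]
      exact hnum Y hY n
    | cons C L ih =>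
      rw [List.map_cons, List.prod_cons, mul_assoc, mul_left_comm]
      exact mnum_alg (hL C List.mem_cons_self).1
        (ih (fun B hB => hL B (List.mem_cons_of_mem _ hB)))
  obtain ⟨n, q, ⟨L, hL, z, hz, rfl⟩, hy⟩ := hB
  rcases hz with rfl | ⟨Y, hY, rfl⟩
  · obtain ⟨Y, hY, h1⟩ := hunit
    have hfund : (1 : W.H Y) ∈ spanCycles W Y 0 :=
      Submodule.subset_span ⟨0, rfl, Y.V.fundCycle, Y.V.fundCycle_mem, W.cl_fund Y⟩
    refine Mot.Num.of_unit (C := R908.whole W Y) hfund h1 ?_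
    rw [← mnum_m, Mot.m_tensor, hy, mul_one, mul_assoc]
    exact main n L hL Y hY
  · rw [← mnum_m, hy]
    exact main n L hL Y hY

/-- The conjecture D for the products. -/
theorem homEqNum_of_piece {A : Mot W} {X : 𝒱.Obj}
    (hunit : ∃ Y, IsProductOf 𝒴 Y ∧ (1 : W.H Y) ≠ 0)
    (hnum : ∀ Y, IsProductOf 𝒴 Y → ∀ n, (pM A (R908.whole W Y) n).Num)
    (hX : (LinearMap.id : W.H X →ₗ[W.K] W.H X) ∈ RetOp W (PieceCls 𝒴 A) X X) {Z : 𝒱.Obj}
    (hZ : IsProductOf ({X} ∪ 𝒴) Z) : HomEqNum W Z := by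
  refine RetOp.homEqNum (P := PieceCls 𝒴 A) (fun B hB => PieceCls.num hunit hnum hB) ?_
  induction hZ with
  | base hX' =>
    rename_i X'
    rcases hX' with hX' | hX'
    · obtain rfl : X' = X := hX'
      exact hX
    · exact RetOp.self (B := R908.whole W X') (PieceCls.whole A (IsProductOf.base hX'))
  | prod _ _ h1 h2 =>
    rw [← extHom_id]
    exact RetOp.ext PieceCls.tensor h1 h2

/-- If the cohomology of `X` is zero, the products with `X` are trivial. -/
lemma homEqNum_of_one_eq_zero {X : 𝒱.Obj} (hX : (1 : W.H X) = 0)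
    (h𝒴 : ∀ Y, IsProductOf 𝒴 Y → HomEqNum W Y) {Z : 𝒱.Obj}
    (hZ : IsProductOf ({X} ∪ 𝒴) Z) : HomEqNum W Z := by
  have key : IsProductOf 𝒴 Z ∨ (1 : W.H Z) = 0 := by
    induction hZ with
    | base hX' =>
      rename_i X'
      rcases hX' with hX' | hX'
      · obtain rfl : X' = X := hX'
        exact Or.inr hX
      · exact Or.inl (IsProductOf.base hX')
    | prod _ _ h1 h2 =>
      rename_i Z Z' _ _
      rcases h1 with h1 | h1
      · rcases h2 with h2 | h2
        · exact Or.inl (IsProductOf.prod h1 h2)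
        · right
          rw [← map_one (W.map (snd Z Z')), h2, map_zero]
      · right
        rw [← map_one (W.map (fst Z Z')), h1, map_zero]
  rcases key with h | h
  · exact h𝒴 Z h
  · intro j _ z _ _
    calc W.cl Z z = 1 * W.cl Z z := by rw [one_mul]
      _ = 0 := by rw [h, zero_mul]

end Pool.Agent.Helper786.Det
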