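import Mathlib

/-!
# The decomposition of a subspace under an operator with squarefree minimal polynomial of maximal degree
-/

set_option autoImplicit false

open Polynomial

namespace Pool.Agent.Helper786.Frob

lemma monic_of_normalized {K : Type*} [Field K] [DecidableEq K] {χ P : K[X]}
    (h1 : P ∈ UniqueFactorizationMonoid.normalizedFactors χ) : P.Monic := by
  have h2 := UniqueFactorizationMonoid.normalize_normalized_factor P h1
  rw [← h2]
  exact monic_normalize (UniqueFactorizationMonoid.irreducible_of_normalized_factor _ h1).ne_zero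

/-- The factors of a squarefree polynomial. -/
lemma exists_factors {K : Type*} [Field K] {χ : K[X]} (hm : χ.Monic) (hs : Squarefree χ) :
    ∃ (n : ℕ) (P : Fin n → K[X]), (∀ i, Irreducible (P i)) ∧ (∀ i, (P i).Monic) ∧
      Function.Injective P ∧ ∏ i, P i = χ := by
  classical
  have h0 : χ ≠ 0 := hm.ne_zero
  have hnd : (UniqueFactorizationMonoid.normalizedFactors χ).Nodup :=
    (UniqueFactorizationMonoid.squarefree_iff_nodup_normalizedFactors h0).1 hs
  have hprod : (UniqueFactorizationMonoid.normalizedFactors χ).prod = χ := by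
    have h1 : Associated (UniqueFactorizationMonoid.normalizedFactors χ).prod χ :=
      UniqueFactorizationMonoid.prod_normalizedFactors h0
    refine eq_of_monic_of_associated ?_ hm h1
    have h3 := monic_multiset_prod_of_monic (UniqueFactorizationMonoid.normalizedFactors χ)
      (fun x => x) (fun P hP => monic_of_normalized hP)
    rwa [Multiset.map_id'] at h3
  obtain ⟨s, hs'⟩ : ∃ s, s = UniqueFactorizationMonoid.normalizedFactors χ := ⟨_, rfl⟩
  rw [← hs'] at hnd hprod
  have hmem : ∀ P ∈ s, P ∈ UniqueFactorizationMonoid.normalizedFactors χ := by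
    intro P hP
    rwa [← hs']
  have hmem' : ∀ i, (s.toFinset.equivFin.symm i : K[X]) ∈ s := by
    intro i
    have h1 := (s.toFinset.equivFin.symm i).2
    rwa [Multiset.mem_toFinset] at h1
  refine ⟨s.toFinset.card, fun i => (s.toFinset.equivFin.symm i : K[X]), ?_, ?_, ?_, ?_⟩
  · intro i
    exact UniqueFactorizationMonoid.irreducible_of_normalized_factor _ (hmem _ (hmem' i))
  · intro i
    exact monic_of_normalized (hmem _ (hmem' i))
  · intro i j hij
    exact s.toFinset.equivFin.symm.injective (Subtype.ext hij)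
  · rw [Equiv.prod_comp s.toFinset.equivFin.symm (fun x : s.toFinset => (x : K[X])),
      Finset.prod_coe_sort s.toFinset (fun x => x), Finset.prod_eq_multiset_prod,
      Multiset.toFinset_val, hnd.dedup, Multiset.map_id', hprod]

section

variable {K : Type*} [Field K] {n : ℕ} {P : Fin n → K[X]}

lemma coprime_of_ne (hirr : ∀ i, Irreducible (P i)) (hm : ∀ i, (P i).Monic)
    (hinj : Function.Injective P) {i j : Fin n} (hij : i ≠ j) : IsCoprime (P i) (P j) := by
  rw [(hirr i).coprime_iff_not_dvd]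
  intro h
  exact hij (hinj (eq_of_monic_of_associated (hm i) (hm j) ((hirr i).associated_of_dvd (hirr j) h)))

/-- The idempotent polynomials. -/
lemma exists_idem (hirr : ∀ i, Irreducible (P i)) (hm : ∀ i, (P i).Monic)
    (hinj : Function.Injective P) : ∃ f : Fin n → K[X], (∀ i, P i ∣ f i - 1) ∧
      ∀ i j, j ≠ i → P j ∣ f i := by
  classical
  have h : ∀ i, ∃ f : K[X], P i ∣ f - 1 ∧ ∀ j, j ≠ i → P j ∣ f := by
    intro i
    have h1 : IsCoprime (P i) (∏ j ∈ Finset.univ.erase i, P j) := by
      apply IsCoprime.prod_right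
      intro j hj
      exact coprime_of_ne hirr hm hinj (Finset.ne_of_mem_erase hj).symm
    obtain ⟨a, b, hab⟩ := h1
    refine ⟨b * ∏ j ∈ Finset.univ.erase i, P j, ⟨-a, ?_⟩, ?_⟩
    · rw [← hab]
      ring
    · intro j hj
      exact Dvd.dvd.mul_left (Finset.dvd_prod_of_mem _ (Finset.mem_erase.2 ⟨hj, Finset.mem_univ _⟩)) _
  choose f hf1 hf2 using h
  exact ⟨f, hf1, hf2⟩

lemma prod_dvd (hirr : ∀ i, Irreducible (P i)) (hm : ∀ i, (P i).Monic)
    (hinj : Function.Injective P) {g : K[X]} (h : ∀ i, P i ∣ g) : ∏ i, P i ∣ g := by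
  apply Finset.prod_dvd_of_coprime
  · intro i _ j _ hij
    exact coprime_of_ne hirr hm hinj hij
  · intro i _
    exact h i

end

/-- `χ` is the minimal polynomial of `σ` on the subspace `N`. -/
def IsMinPolyOn {K V : Type*} [Field K] [AddCommGroup V] [Module K V] (N : Submodule K V)
    (σ : V →ₗ[K] V) (χ : K[X]) : Prop :=
  χ.Monic ∧ ∀ f : K[X], (∀ x ∈ N, aeval σ f x = 0) ↔ χ ∣ f

section

variable {K V : Type*} [Field K] [AddCommGroup V] [Module K V] {T : Submodule K V}
  {σ : V →ₗ[K] V}

lemma aeval_mem (hσ : ∀ x ∈ T, σ x ∈ T) (f : K[X]) {x : V} (hx : x ∈ T) : aeval σ f x ∈ T := by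
  induction f using Polynomial.induction_on' with
  | add f g hf hg => rw [map_add, LinearMap.add_apply]; exact T.add_mem hf hg
  | monomial m c =>
    rw [aeval_monomial, Module.End.mul_apply, Module.algebraMap_end_apply]
    refine T.smul_mem _ ?_
    induction m with
    | zero => simpa using hx
    | succ m ih => rw [pow_succ', Module.End.mul_apply]; exact hσ _ ih

/-- The data of the decomposition of `T`. -/
structure Dec (T : Submodule K V) (σ : V →ₗ[K] V) (χ : K[X]) where
  n : ℕ
  P : Fin n → K[X]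
  irr : ∀ i, Irreducible (P i)
  monic : ∀ i, (P i).Monic
  inj : Function.Injective P
  prod : ∏ i, P i = χ
  f : Fin n → K[X]
  one : ∀ i, P i ∣ f i - 1
  zero : ∀ i j, j ≠ i → P j ∣ f i

lemma exists_dec {χ : K[X]} (hm : χ.Monic) (hs : Squarefree χ) : Nonempty (Dec T σ χ) := by
  obtain ⟨n, P, h1, h2, h3, h4⟩ := exists_factors hm hs
  obtain ⟨f, h5, h6⟩ := exists_idem h1 h2 h3
  exact ⟨⟨n, P, h1, h2, h3, h4, f, h5, h6⟩⟩

namespace Dec

variable {χ : K[X]} (D : Dec T σ χ)

lemma vanish (hmin : IsMinPolyOn T σ χ) {g : K[X]} (h : ∀ i, D.P i ∣ g) {x : V} (hx : x ∈ T) :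
    aeval σ g x = 0 := by
  refine (hmin.2 g).2 ?_ x hx
  rw [← D.prod]
  exact prod_dvd D.irr D.monic D.inj h

lemma sum (hmin : IsMinPolyOn T σ χ) {x : V} (hx : x ∈ T) : ∑ i, aeval σ (D.f i) x = x := by
  classical
  have h1 : aeval σ (∑ i, D.f i - 1) x = 0 := by
    refine D.vanish hmin ?_ hx
    intro j
    rw [← Finset.add_sum_erase _ _ (Finset.mem_univ j)]
    have h2 : D.f j + ∑ i ∈ Finset.univ.erase j, D.f i - 1 =
        (D.f j - 1) + ∑ i ∈ Finset.univ.erase j, D.f i := by ring
    rw [h2]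
    refine dvd_add (D.one j) (Finset.dvd_sum ?_)
    intro i hi
    exact D.zero i j (Finset.ne_of_mem_erase hi).symm
  rw [map_sub, map_one, LinearMap.sub_apply, map_sum, LinearMap.sum_apply, Module.End.one_apply,
    sub_eq_zero] at h1
  exact h1

lemma idem (hmin : IsMinPolyOn T σ χ) (i : Fin D.n) {x : V} (hx : x ∈ T) :
    aeval σ (D.f i) (aeval σ (D.f i) x) = aeval σ (D.f i) x := by
  have h1 : aeval σ (D.f i * D.f i - D.f i) x = 0 := by
    refine D.vanish hmin ?_ hx
    intro j
    have h2 : D.f i * D.f i - D.f i = D.f i * (D.f i - 1) := by ring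
    rw [h2]
    by_cases hij : j = i
    · subst hij
      exact Dvd.dvd.mul_left (D.one j) _
    · exact Dvd.dvd.mul_right (D.zero i j hij) _
  rw [map_sub, map_mul, LinearMap.sub_apply, Module.End.mul_apply, sub_eq_zero] at h1
  exact h1

lemma ortho (hmin : IsMinPolyOn T σ χ) {i j : Fin D.n} (hij : i ≠ j) {x : V} (hx : x ∈ T) :
    aeval σ (D.f i) (aeval σ (D.f j) x) = 0 := by
  rw [← Module.End.mul_apply, ← map_mul]
  refine D.vanish hmin ?_ hx
  intro l
  by_cases hl : l = i
  · subst hl
    exact Dvd.dvd.mul_left (D.zero j l hij) _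
  · exact Dvd.dvd.mul_right (D.zero i l hl) _

lemma fix_iff (hmin : IsMinPolyOn T σ χ) (i : Fin D.n) {x : V} (hx : x ∈ T) :
    aeval σ (D.f i) x = x ↔ aeval σ (D.P i) x = 0 := by
  constructor
  · intro h
    rw [← h, ← Module.End.mul_apply, ← map_mul]
    refine D.vanish hmin ?_ hx
    intro j
    by_cases hij : j = i
    · subst hij
      exact Dvd.dvd.mul_right dvd_rfl _
    · exact Dvd.dvd.mul_left (D.zero i j hij) _
  · intro h
    obtain ⟨a, ha⟩ := D.one i
    have h1 : aeval σ (D.f i - 1) x = 0 := by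
      rw [ha, mul_comm, map_mul, Module.End.mul_apply, h, map_zero]
    rw [map_sub, map_one, LinearMap.sub_apply, Module.End.one_apply, sub_eq_zero] at h1
    exact h1

/-- The block. -/
noncomputable def blk (i : Fin D.n) : Submodule K V := T ⊓ LinearMap.ker (aeval σ (D.P i))

lemma mem_blk {i : Fin D.n} {x : V} : x ∈ D.blk i ↔ x ∈ T ∧ aeval σ (D.P i) x = 0 := by
  rw [blk, Submodule.mem_inf, LinearMap.mem_ker]

lemma proj_mem (hσ : ∀ x ∈ T, σ x ∈ T) (hmin : IsMinPolyOn T σ χ) (i : Fin D.n) {x : V}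
    (hx : x ∈ T) : aeval σ (D.f i) x ∈ D.blk i := by
  rw [mem_blk]
  refine ⟨aeval_mem hσ _ hx, ?_⟩
  rw [← D.fix_iff hmin i (aeval_mem hσ _ hx)]
  exact D.idem hmin i hx

/-- The blocks are not zero. -/
lemma exists_ne (hσ : ∀ x ∈ T, σ x ∈ T) (hmin : IsMinPolyOn T σ χ) (i : Fin D.n) :
    ∃ x ∈ D.blk i, x ≠ 0 := by
  classical
  by_contra hcon
  push Not at hcon
  have h1 : χ ∣ ∏ j ∈ Finset.univ.erase i, D.P j := by
    rw [← hmin.2]
    intro x hx
    apply hcon
    rw [mem_blk]
    refine ⟨aeval_mem hσ _ hx, ?_⟩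
    rw [← Module.End.mul_apply, ← map_mul, Finset.mul_prod_erase _ _ (Finset.mem_univ i), D.prod]
    exact (hmin.2 χ).2 dvd_rfl x hx
  have h2 : D.P i ∣ ∏ j ∈ Finset.univ.erase i, D.P j := by
    have h3 : D.P i ∣ ∏ j, D.P j := Finset.dvd_prod_of_mem _ (Finset.mem_univ i)
    exact dvd_trans (dvd_trans h3 (dvd_of_eq D.prod)) h1
  obtain ⟨j, hj, hij⟩ := (Prime.dvd_finsetProd_iff (D.irr i).prime _).1 h2
  have h3 := coprime_of_ne D.irr D.monic D.inj (Finset.ne_of_mem_erase hj).symm
  rw [(D.irr i).coprime_iff_not_dvd] at h3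
  exact h3 hij

/-- A polynomial of small degree does not kill a nonzero element of a block. -/
lemma eq_zero_of_deg (i : Fin D.n) {x : V} (hx : aeval σ (D.P i) x = 0) (hx0 : x ≠ 0) {g : K[X]}
    (hg : aeval σ g x = 0) : D.P i ∣ g := by
  by_contra hcon
  rw [← (D.irr i).coprime_iff_not_dvd] at hcon
  obtain ⟨a, b, hab⟩ := hcon
  apply hx0
  have h1 : aeval σ (a * D.P i + b * g) x = x := by rw [hab, map_one, Module.End.one_apply]
  rw [map_add, map_mul, map_mul, LinearMap.add_apply, Module.End.mul_apply, Module.End.mul_apply,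
    hx, hg, map_zero, map_zero, add_zero] at h1
  exact h1.symm

/-- Stable subspaces with a nonzero element of a block have at least the dimension `deg P i`. -/
lemma le_finrank [FiniteDimensional K V] (hσ : ∀ x ∈ T, σ x ∈ T) (i : Fin D.n) {x : V}
    (hx : x ∈ D.blk i) (hx0 : x ≠ 0) (U : Submodule K V) (hU : ∀ x ∈ U, σ x ∈ U) (hxU : x ∈ U) :
    (D.P i).natDegree ≤ Module.finrank K (U ⊓ D.blk i : Submodule K V) := by
  have hx' := D.mem_blk.1 hx
  have hmem : ∀ g : K[X], aeval σ g x ∈ U ⊓ D.blk i := by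
    intro g
    refine ⟨aeval_mem hU g hxU, D.mem_blk.2 ⟨aeval_mem hσ g hx'.1, ?_⟩⟩
    rw [← Module.End.mul_apply, ← map_mul, mul_comm, map_mul, Module.End.mul_apply, hx'.2, map_zero]
  set L : degreeLT K (D.P i).natDegree →ₗ[K] (U ⊓ D.blk i : Submodule K V) :=
    { toFun := fun g => ⟨aeval σ (g : K[X]) x, hmem g⟩
      map_add' := by
        intro a b
        apply Subtype.ext
        simp
      map_smul' := by
        intro c a
        apply Subtype.ext
        simp } with hL
  have hinj : Function.Injective L := by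
    rw [← LinearMap.ker_eq_bot, LinearMap.ker_eq_bot']
    intro g hg
    have h1 : aeval σ (g : K[X]) x = 0 := congrArg Subtype.val hg
    have h2 := D.eq_zero_of_deg i hx'.2 hx0 h1
    have h3 := g.2
    rw [mem_degreeLT] at h3
    apply Subtype.ext
    refine Polynomial.eq_zero_of_dvd_of_degree_lt h2 ?_
    rwa [degree_eq_natDegree (D.irr i).ne_zero]
  have h4 := LinearMap.finrank_le_finrank_of_injective hinj
  have h5 : Module.finrank K (degreeLT K (D.P i).natDegree) = (D.P i).natDegree := by
    rw [LinearEquiv.finrank_eq (degreeLTEquiv K (D.P i).natDegree)]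
    simp
  rwa [h5] at h4

/-- The sum of the dimensions of the blocks is at most the dimension of `T`. -/
lemma sum_finrank [FiniteDimensional K V] (hmin : IsMinPolyOn T σ χ) :
    ∑ i, Module.finrank K (D.blk i) ≤ Module.finrank K T := by
  classical
  set L : (∀ i, D.blk i) →ₗ[K] T :=
    { toFun := fun x => ⟨∑ i, (x i : V), T.sum_mem fun i _ => (D.mem_blk.1 (x i).2).1⟩
      map_add' := by
        intro a b
        apply Subtype.ext
        simp [Finset.sum_add_distrib]
      map_smul' := by
        intro c a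
        apply Subtype.ext
        simp [Finset.smul_sum] } with hL
  have hinj : Function.Injective L := by
    rw [← LinearMap.ker_eq_bot, LinearMap.ker_eq_bot']
    intro x hx
    have h1 : ∑ i, (x i : V) = 0 := congrArg Subtype.val hx
    funext j
    apply Subtype.ext
    have h2 : aeval σ (D.f j) (∑ i, (x i : V)) = (x j : V) := by
      rw [map_sum, Finset.sum_eq_single j]
      · rw [D.fix_iff hmin j (D.mem_blk.1 (x j).2).1]
        exact (D.mem_blk.1 (x j).2).2
      · intro i _ hi
        have h3 : aeval σ (D.f i) (x i : V) = x i :=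
          (D.fix_iff hmin i (D.mem_blk.1 (x i).2).1).2 (D.mem_blk.1 (x i).2).2
        rw [← h3]
        exact D.ortho hmin (Ne.symm hi) (D.mem_blk.1 (x i).2).1
      · intro h
        exact absurd (Finset.mem_univ j) h
    rw [← h2, h1, map_zero]
    rfl
  have h4 := LinearMap.finrank_le_finrank_of_injective hinj
  rwa [Module.finrank_pi_fintype] at h4

/-- The dimension of a block is the degree of the factor. -/
lemma finrank_blk [FiniteDimensional K V] (hσ : ∀ x ∈ T, σ x ∈ T) (hmin : IsMinPolyOn T σ χ)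
    (hdeg : χ.natDegree = Module.finrank K T) (i : Fin D.n) :
    Module.finrank K (D.blk i) = (D.P i).natDegree := by
  have h1 : ∀ i, (D.P i).natDegree ≤ Module.finrank K (D.blk i) := by
    intro i
    obtain ⟨x, hx, hx0⟩ := D.exists_ne hσ hmin i
    have h2 := D.le_finrank hσ i hx hx0 ⊤ (fun _ _ => Submodule.mem_top) Submodule.mem_top
    rwa [top_inf_eq] at h2
  have h3 : ∑ i, (D.P i).natDegree = χ.natDegree :=
    (natDegree_prod_of_monic _ _ (fun i _ => D.monic i)).symm.trans (congrArg natDegree D.prod)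
  have h4 := D.sum_finrank hmin
  rw [← hdeg, ← h3] at h4
  by_contra hne
  have h5 : ∑ i, (D.P i).natDegree < ∑ i, Module.finrank K (D.blk i) :=
    Finset.sum_lt_sum (fun i _ => h1 i) ⟨i, Finset.mem_univ _, lt_of_le_of_ne (h1 i) (Ne.symm hne)⟩
  omega

/-- The blocks are irreducible. -/
lemma irreducible [FiniteDimensional K V] (hσ : ∀ x ∈ T, σ x ∈ T) (hmin : IsMinPolyOn T σ χ)
    (hdeg : χ.natDegree = Module.finrank K T) (i : Fin D.n) (U : Submodule K V)
    (hU : ∀ x ∈ U, σ x ∈ U) {x : V} (hx : x ∈ D.blk i) (hx0 : x ≠ 0) (hxU : x ∈ U) :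
    D.blk i ≤ U := by
  have h1 := D.le_finrank hσ i hx hx0 U hU hxU
  rw [← D.finrank_blk hσ hmin hdeg i] at h1
  have h2 : U ⊓ D.blk i = D.blk i := Submodule.eq_of_le_of_finrank_le inf_le_right h1
  rw [← h2]
  exact inf_le_left

lemma blk_stable (hσ : ∀ x ∈ T, σ x ∈ T) (i : Fin D.n) : ∀ x ∈ D.blk i, σ x ∈ D.blk i := by
  intro x hx
  have hx' := D.mem_blk.1 hx
  rw [mem_blk]
  refine ⟨hσ x hx'.1, ?_⟩
  have h1 : aeval σ (D.P i) (σ x) = aeval σ (D.P i * X) x := by
    rw [map_mul, aeval_X, Module.End.mul_apply]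
  rw [h1, mul_comm, map_mul, Module.End.mul_apply, hx'.2, map_zero]

lemma aeval_restrict {N : Submodule K V} (h : ∀ x ∈ N, σ x ∈ N) (g : K[X]) (x : N) :
    ((aeval (σ.restrict h) g x : N) : V) = aeval σ g (x : V) := by
  induction g using Polynomial.induction_on' with
  | add f g hf hg =>
    rw [map_add, map_add, LinearMap.add_apply, LinearMap.add_apply, Submodule.coe_add, hf, hg]
  | monomial m c =>
    rw [aeval_monomial, aeval_monomial, Module.End.mul_apply, Module.End.mul_apply,
      Module.algebraMap_end_apply, Module.algebraMap_end_apply, Submodule.coe_smul]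
    congr 1
    induction m with
    | zero => simp
    | succ m ih =>
      rw [pow_succ', pow_succ', Module.End.mul_apply, Module.End.mul_apply, LinearMap.coe_restrict_apply,
        ih]

/-- The determinant of `σ` on a block. -/
lemma det_blk [FiniteDimensional K V] (hσ : ∀ x ∈ T, σ x ∈ T) (hmin : IsMinPolyOn T σ χ)
    (hdeg : χ.natDegree = Module.finrank K T) (i : Fin D.n) (N : Submodule K V) (hN : N = D.blk i)
    (h : ∀ x ∈ N, σ x ∈ N) :
    LinearMap.det (σ.restrict h) = (-1) ^ (D.P i).natDegree * (D.P i).coeff 0 := by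
  subst hN
  have h1 : (σ.restrict h).charpoly = D.P i := by
    obtain ⟨x, hx, hx0⟩ := D.exists_ne hσ hmin i
    have h2 : D.P i ∣ (σ.restrict h).charpoly := by
      refine D.eq_zero_of_deg i (D.mem_blk.1 hx).2 hx0 ?_
      have h3 := aeval_restrict h (σ.restrict h).charpoly ⟨x, hx⟩
      rw [LinearMap.aeval_self_charpoly] at h3
      rw [← h3]
      rfl
    have h4 : (σ.restrict h).charpoly.natDegree = (D.P i).natDegree := by
      rw [LinearMap.charpoly_natDegree, D.finrank_blk hσ hmin hdeg i]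
    exact (eq_of_monic_of_dvd_of_natDegree_le (D.monic i) (LinearMap.charpoly_monic _) h2
      (le_of_eq h4)).symm ▸ rfl
  rw [LinearMap.det_eq_sign_charpoly_coeff, h1, ← D.finrank_blk hσ hmin hdeg i]

end Dec

end

end Pool.Agent.Helper786.Frob
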