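import Pool.Agent.Helper786_Inv.Frob

/-!
# The conjugation of the blocks, and the roots
-/

set_option autoImplicit false

open Polynomial

namespace Pool.Agent.Helper786.Frob

/-- The reciprocal polynomial. -/
noncomputable def rcp {K : Type*} [Field K] (c : K) (Q : K[X]) : K[X] :=
  ∑ j ∈ Finset.range (Q.natDegree + 1), C (Q.coeff j * c ^ j) * X ^ (Q.natDegree - j)

section

variable {K V : Type*} [Field K] [AddCommGroup V] [Module K V]

lemma pair_pow {σ : V →ₗ[K] V} {β : V →ₗ[K] V →ₗ[K] K} {c : K}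
    (hβ : ∀ x y, β (σ x) (σ y) = c * β x y) (j : ℕ) (x y : V) :
    β ((σ ^ j) x) ((σ ^ j) y) = c ^ j * β x y := by
  induction j with
  | zero => simp
  | succ j ih => rw [pow_succ', Module.End.mul_apply, Module.End.mul_apply, hβ, ih, pow_succ']; ring

lemma pair_rcp {σ : V →ₗ[K] V} {β : V →ₗ[K] V →ₗ[K] K} {c : K}
    (hβ : ∀ x y, β (σ x) (σ y) = c * β x y) (Q : K[X]) (x y : V) :
    β (aeval σ (rcp c Q) x) y = β ((σ ^ Q.natDegree) x) (aeval σ Q y) := by
  have h1 : aeval σ Q y = ∑ j ∈ Finset.range (Q.natDegree + 1), Q.coeff j • (σ ^ j) y := by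
    rw [aeval_eq_sum_range, LinearMap.sum_apply]
    rfl
  rw [h1, map_sum, rcp, map_sum, LinearMap.sum_apply, map_sum, LinearMap.sum_apply]
  apply Finset.sum_congr rfl
  intro j hj
  have hj' : j ≤ Q.natDegree := Nat.lt_succ_iff.1 (Finset.mem_range.1 hj)
  have h2 : (σ ^ Q.natDegree) x = (σ ^ j) ((σ ^ (Q.natDegree - j)) x) := by
    rw [← Module.End.mul_apply, ← pow_add, Nat.add_sub_cancel' hj']
  rw [h2, map_smul, pair_pow hβ, map_mul, aeval_C, map_pow, aeval_X, Module.End.mul_apply,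
    Module.algebraMap_end_apply, map_smul, LinearMap.smul_apply, smul_eq_mul, smul_eq_mul]
  ring

lemma aeval_rcp {Ω : Type*} [Field Ω] [Algebra K Ω] (c : K) (Q : K[X]) {π : Ω} (hπ : π ≠ 0) :
    aeval π (rcp c Q) = π ^ Q.natDegree * aeval (algebraMap K Ω c / π) Q := by
  rw [rcp, map_sum, aeval_eq_sum_range, Finset.mul_sum]
  apply Finset.sum_congr rfl
  intro j hj
  have hj' : j ≤ Q.natDegree := Nat.lt_succ_iff.1 (Finset.mem_range.1 hj)
  rw [map_mul, aeval_C, map_pow, aeval_X, map_mul, map_pow, Algebra.smul_def, div_pow]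
  have h2 : π ^ Q.natDegree = π ^ (Q.natDegree - j) * π ^ j := by
    rw [← pow_add, Nat.sub_add_cancel hj']
  rw [h2]
  field_simp

end

namespace Dec

variable {K V : Type*} [Field K] [AddCommGroup V] [Module K V] {T : Submodule K V}
  {σ : V →ₗ[K] V} {χ : K[X]} (D : Dec T σ χ) {β : V →ₗ[K] V →ₗ[K] K} {c : K}
  {Ω : Type*} [Field Ω] [Algebra K Ω]

lemma root_ne_zero (hσ : ∀ x ∈ T, σ x ∈ T) (hmin : IsMinPolyOn T σ χ) (hinj : ∀ x, σ x = 0 → x = 0)
    (i : Fin D.n) {π : Ω} (hπ : aeval π (D.P i) = 0) : π ≠ 0 := by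
  rintro rfl
  have h1 : (D.P i).coeff 0 = 0 := by
    rw [← coeff_zero_eq_aeval_zero', FaithfulSMul.algebraMap_eq_zero_iff] at hπ
    exact hπ
  have h2 : (X : K[X]) ∣ D.P i := X_dvd_iff.2 h1
  have h3 : D.P i ∣ X := (irreducible_X.associated_of_dvd (D.irr i) h2).symm.dvd
  obtain ⟨x, hx, hx0⟩ := D.exists_ne hσ hmin i
  apply hx0
  apply hinj
  obtain ⟨g, hg⟩ := h3
  have h4 : σ x = aeval σ (X : K[X]) x := by rw [aeval_X]
  rw [h4, hg, mul_comm, map_mul, Module.End.mul_apply, (D.mem_blk.1 hx).2, map_zero]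

lemma unique_root {i j : Fin D.n} {π : Ω} (hi : aeval π (D.P i) = 0) (hj : aeval π (D.P j) = 0) :
    i = j := by
  by_contra hij
  obtain ⟨a, b, hab⟩ := coprime_of_ne D.irr D.monic D.inj hij
  have h1 : aeval π (a * D.P i + b * D.P j) = 0 := by
    rw [map_add, map_mul, map_mul, hi, hj, mul_zero, mul_zero, add_zero]
  rw [hab, map_one] at h1
  exact one_ne_zero h1

/-- The blocks `i` and `j` pair nontrivially. -/
def R (β : V →ₗ[K] V →ₗ[K] K) (i j : Fin D.n) : Prop :=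
  ∃ x ∈ D.blk i, ∃ y ∈ D.blk j, β x y ≠ 0

lemma R_root (hσ : ∀ x ∈ T, σ x ∈ T) (hmin : IsMinPolyOn T σ χ) (hinj : ∀ x, σ x = 0 → x = 0)
    (hβ : ∀ x y, β (σ x) (σ y) = c * β x y) {i j : Fin D.n} (h : D.R β i j) {π : Ω}
    (hπ : aeval π (D.P i) = 0) : aeval (algebraMap K Ω c / π) (D.P j) = 0 := by
  have hπ0 := D.root_ne_zero hσ hmin hinj i hπ
  have h1 : D.P i ∣ rcp c (D.P j) := by
    by_contra hcon
    rw [← (D.irr i).coprime_iff_not_dvd] at hcon
    obtain ⟨a, b, hab⟩ := hcon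
    obtain ⟨x, hx, y, hy, hxy⟩ := h
    apply hxy
    have h2 : x = aeval σ (rcp c (D.P j)) (aeval σ b x) := by
      have h3 : aeval σ (a * D.P i + b * rcp c (D.P j)) x = x := by
        rw [hab, map_one, Module.End.one_apply]
      rw [map_add, map_mul, mul_comm b, map_mul, LinearMap.add_apply, Module.End.mul_apply,
        Module.End.mul_apply, (D.mem_blk.1 hx).2, map_zero, zero_add] at h3
      exact h3.symm
    rw [h2, pair_rcp hβ, (D.mem_blk.1 hy).2, map_zero]
  obtain ⟨g, hg⟩ := h1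
  have h2 := aeval_rcp (Ω := Ω) c (D.P j) hπ0
  rw [hg, map_mul, hπ, zero_mul] at h2
  exact (mul_eq_zero.1 h2.symm).resolve_left (pow_ne_zero _ hπ0)

lemma R_exists (hσ : ∀ x ∈ T, σ x ∈ T) (hmin : IsMinPolyOn T σ χ)
    (hnd : ∀ x ∈ T, x ≠ 0 → ∃ y ∈ T, β x y ≠ 0) (i : Fin D.n) : ∃ j, D.R β i j := by
  obtain ⟨x, hx, hx0⟩ := D.exists_ne hσ hmin i
  obtain ⟨y, hy, hxy⟩ := hnd x (D.mem_blk.1 hx).1 hx0
  rw [← D.sum hmin hy, map_sum] at hxy
  obtain ⟨j, -, hj⟩ := Finset.exists_ne_zero_of_sum_ne_zero hxy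
  exact ⟨j, x, hx, _, D.proj_mem hσ hmin j hy, hj⟩

lemma exists_root [IsAlgClosed Ω] (i : Fin D.n) : ∃ π : Ω, aeval π (D.P i) = 0 := by
  have h1 : (D.P i).degree ≠ 0 := (degree_pos_of_irreducible (D.irr i)).ne'
  obtain ⟨π, hπ⟩ := IsAlgClosed.exists_aeval_eq_zero Ω (D.P i) h1
  exact ⟨π, hπ⟩

/-- The conjugation of the blocks. -/
lemma exists_bar (hσ : ∀ x ∈ T, σ x ∈ T) (hmin : IsMinPolyOn T σ χ)
    (hinj : ∀ x, σ x = 0 → x = 0) (hc : c ≠ 0) (hβ : ∀ x y, β (σ x) (σ y) = c * β x y)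
    (hnd : ∀ x ∈ T, x ≠ 0 → ∃ y ∈ T, β x y ≠ 0) (Ω : Type*) [Field Ω] [Algebra K Ω]
    [IsAlgClosed Ω] : ∃ bar : Fin D.n → Fin D.n, (∀ i, bar (bar i) = i) ∧
      (∀ i, ∀ x ∈ T, ∀ y ∈ T, β (aeval σ (D.f i) x) y = β x (aeval σ (D.f (bar i)) y)) ∧
      ∀ i, ∀ π : Ω, aeval π (D.P i) = 0 → aeval (algebraMap K Ω c / π) (D.P (bar i)) = 0 := by
  choose bar hbar using D.R_exists hσ hmin hnd
  have hroot : ∀ i, ∀ π : Ω, aeval π (D.P i) = 0 →
      aeval (algebraMap K Ω c / π) (D.P (bar i)) = 0 :=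
    fun i π hπ => D.R_root hσ hmin hinj hβ (hbar i) hπ
  have huniq : ∀ i j, D.R β i j → j = bar i := by
    intro i j hij
    obtain ⟨π, hπ⟩ := D.exists_root (Ω := Ω) i
    exact D.unique_root (D.R_root hσ hmin hinj hβ hij hπ) (hroot i π hπ)
  have hc' : algebraMap K Ω c ≠ 0 := by
    rw [Ne, FaithfulSMul.algebraMap_eq_zero_iff]
    exact hc
  have hinv : ∀ i, bar (bar i) = i := by
    intro i
    obtain ⟨π, hπ⟩ := D.exists_root (Ω := Ω) i
    have h0 := D.root_ne_zero hσ hmin hinj i hπ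
    have h1 := hroot _ _ (hroot i π hπ)
    rw [div_div_cancel₀ hc'] at h1
    exact D.unique_root h1 hπ
  refine ⟨bar, hinv, ?_, hroot⟩
  intro i x hx y hy
  have e1 : β (aeval σ (D.f i) x) y = β (aeval σ (D.f i) x) (aeval σ (D.f (bar i)) y) := by
    conv_lhs => rw [← D.sum hmin hy]
    rw [map_sum]
    apply Finset.sum_eq_single
    · intro j _ hj
      by_contra hne
      exact hj (huniq i j ⟨_, D.proj_mem hσ hmin i hx, _, D.proj_mem hσ hmin j hy, hne⟩)
    · intro h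
      exact absurd (Finset.mem_univ _) h
  have e2 : β x (aeval σ (D.f (bar i)) y) = β (aeval σ (D.f i) x) (aeval σ (D.f (bar i)) y) := by
    conv_lhs => rw [← D.sum hmin hx]
    rw [map_sum, LinearMap.sum_apply]
    apply Finset.sum_eq_single
    · intro j _ hj
      by_contra hne
      have h1 := huniq j (bar i) ⟨_, D.proj_mem hσ hmin j hx, _, D.proj_mem hσ hmin (bar i) hy, hne⟩
      exact hj (by rw [← hinv j, ← h1, hinv])
    · intro h
      exact absurd (Finset.mem_univ _) h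
  rw [e1, e2]

variable [IsAlgClosed Ω]

lemma prod_aroots (i : Fin D.n) : ((D.P i).aroots Ω).prod =
    algebraMap K Ω ((-1) ^ (D.P i).natDegree * (D.P i).coeff 0) := by
  have h1 := (IsAlgClosed.splits ((D.P i).map (algebraMap K Ω))).coeff_zero_eq_prod_roots_of_monic
    ((D.monic i).map _)
  rw [coeff_map, natDegree_map] at h1
  rw [map_mul, h1, map_pow, map_neg, map_one, ← mul_assoc, ← mul_pow, neg_one_mul, neg_neg,
    one_pow, one_mul]

/-- The product of the roots with exponents. -/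
lemma prod_roots (d : Fin D.n → ℕ) (m : Ω → ℕ)
    (hm : ∀ i, ∀ π : Ω, aeval π (D.P i) = 0 → m π = d i) :
    ((χ.aroots Ω).map fun x => x ^ m x).prod =
      algebraMap K Ω (∏ i, ((-1) ^ (D.P i).natDegree * (D.P i).coeff 0) ^ d i) := by
  classical
  have key : ∀ s : Finset (Fin D.n), (((∏ i ∈ s, D.P i).aroots Ω).map fun x => x ^ m x).prod =
      algebraMap K Ω (∏ i ∈ s, ((-1) ^ (D.P i).natDegree * (D.P i).coeff 0) ^ d i) := by
    intro s
    induction s using Finset.induction_on with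
    | empty => simp
    | insert i s hi ih =>
      rw [Finset.prod_insert hi, Finset.prod_insert hi, aroots_mul, Multiset.map_add,
        Multiset.prod_add, ih, map_mul]
      · congr 1
        have h1 : ((D.P i).aroots Ω).map (fun x => x ^ m x) =
            ((D.P i).aroots Ω).map (fun x => x ^ d i) := by
          apply Multiset.map_congr rfl
          intro x hx
          rw [mem_aroots] at hx
          rw [hm i x hx.2]
        rw [h1, Multiset.prod_map_pow, Multiset.map_id', D.prod_aroots, map_pow]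
      · refine mul_ne_zero (D.irr i).ne_zero (Finset.prod_ne_zero_iff.2 ?_)
        intro j _
        exact (D.irr j).ne_zero
  have h1 := key Finset.univ
  have h2 : (∏ i ∈ Finset.univ, D.P i).aroots Ω = χ.aroots Ω := by
    rw [show (∏ i ∈ Finset.univ, D.P i) = χ from D.prod]
  rw [← h2]
  exact h1

end Dec

end Pool.Agent.Helper786.Frob
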