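import Pool.Agent.Helper786_Inv.TransDefs

/-!
# Relations between the eigenvalues of Frobenius: definitions
-/

set_option autoImplicit false

open Polynomial

universe u v

namespace Pool.Agent.Helper786.Det

section

variable {K B : Type*} [Field K] [Ring B] [Algebra K B]

/-- The polynomial `χ` is squarefree, it is the minimal polynomial of the automorphism `σ` on the
stable subspace `N`, and its degree is the dimension of `N` (so `χ` is also the characteristic
polynomial of `σ` on `N`). -/
def IsSquarefreePolyOn (N : Submodule K B) (σ : B ≃ₐ[K] B) (χ : K[X]) : Prop :=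
  Squarefree χ ∧ χ.natDegree = Module.finrank K N ∧ χ.Monic ∧
    ∀ f : K[X], (∀ x ∈ N, aeval σ.toLinearMap f x = 0) ↔ χ ∣ f

/-- The exponents are invariant under the Galois group of the algebraic closure of `K`. -/
def GaloisInvariant (m : AlgebraicClosure K → ℕ) : Prop :=
  ∀ (g : AlgebraicClosure K ≃ₐ[K] AlgebraicClosure K) (x : AlgebraicClosure K), m (g x) = m x

/-- The product of the powers `x ^ m x` over the roots `x` of `χ` in the algebraic closure. -/
noncomputable def rootProd (χ : K[X]) (m : AlgebraicClosure K → ℕ) : AlgebraicClosure K :=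
  ((χ.aroots (AlgebraicClosure K)).map fun x => x ^ m x).prod

/-- For some `s > 0` and `a` in `ℤ`, the number `κ ^ s * q ^ a` is an eigenvalue of `σ ^ s`. -/
def EigenUpToQ (σ : B ≃ₐ[K] B) (q : ℕ) (κ : AlgebraicClosure K) : Prop :=
  ∃ (s : ℕ) (a : ℤ) (μ : K) (y : B), 0 < s ∧ y ≠ 0 ∧ (σ ^ s) y = μ • y ∧
    algebraMap K (AlgebraicClosure K) μ = κ ^ s * (q : AlgebraicClosure K) ^ a

/-- The exponents of each root `x` of `χ` and of `c / x` are equal. -/
def BalancedExponents (χ : K[X]) (c : K) (m : AlgebraicClosure K → ℕ) : Prop :=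
  ∀ x ∈ χ.aroots (AlgebraicClosure K), m (algebraMap K (AlgebraicClosure K) c / x) = m x

end

end Pool.Agent.Helper786.Det
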