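import Pool.Agent.Helper786_Inv.DetDefs
import Pool.Agent.R908.AnisoDefs

/-!
# Blocks of the transcendental cohomology: definitions
-/

set_option autoImplicit false

open CategoryTheory AlgebraicGeometry

universe u v

namespace Pool.Agent.Helper786.Det

open Pool.Agent.H914 Pool.Agent.H914.VarClass Pool.Agent.H914.VarClass.Obj
  Pool.Agent.H914.WeilCohomology Pool.Agent.R908

/-- The form `x, y ↦ tr (x y)`. -/
def cupForm {K B : Type*} [Field K] [Ring B] [Algebra K B] (tr : B →ₗ[K] K) (x y : B) : K :=
  tr (x * y)

/-- All elements of `T` of degree `i` are zero if `i + w` is odd. -/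
def HasParity {K B : Type*} [Field K] [Ring B] [Algebra K B] (gr : ℕ → Submodule K B)
    (T : Submodule K B) (w : ℕ) : Prop :=
  ∀ i, Odd (i + w) → ∀ a ∈ gr i, a ∈ T → a = 0

variable {k : Type u} [Field k] {𝒱 : VarClass k} {ops : CycleOps 𝒱}
  {W : WeilCohomology.{u, v} ops} {X : 𝒱.Obj} {Λ : Type}

/-- A block system in the transcendental cohomology `T(X)`, with the cup product form, the algebraic
correspondences of degree `0` and the symmetries in `𝒢`. -/
def IsBlockSystemTr [Fintype Λ] (𝒢 : Set (Symmetry W)) (X : 𝒱.Obj) (bar : Λ → Λ)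
    (p : Λ → Module.End W.K (W.H X)) : Prop :=
  IsBlockSystem (transcendental W X) (cupForm (W.tr X)) (cycleOperators W X)
    (symmetryOperators 𝒢 X) bar p

/-- The symmetry `S` commutes on the transcendental cohomology with the operators `p l`. -/
def PreservesBlocksTr (S : Symmetry W) (p : Λ → Module.End W.K (W.H X)) : Prop :=
  ∀ l, CommutesOn (transcendental W X) (S.σ X) (p l)

/-- The product of the powers with the exponents `d l` of the determinants of `S` on the blocks is,
up to a power of `q` and after taking the `s`-th power, an eigenvalue of `S ^ s` on the cohomology of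
a product of members of `𝒴`. -/
def IsDetRelationTr [Fintype Λ] (p : Λ → Module.End W.K (W.H X)) (𝒴 : Set 𝒱.Obj)
    (S : Symmetry W) (q : ℕ) (d : Λ → ℕ) : Prop :=
  ∃ Z : 𝒱.Obj, IsProductOf 𝒴 Z ∧
    EigenUpTo (S.σ Z) q (detProd (transcendental W X) p (S.σ X) d)

end Pool.Agent.Helper786.Det
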