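import Pool.Agent.Helper786_Inv.FrobDefs

/-!
# The parts of the transcendental cohomology of given parity: definitions
-/

set_option autoImplicit false

open CategoryTheory AlgebraicGeometry

universe u v

namespace Pool.Agent.Helper786.Det

open Pool.Agent.H914 Pool.Agent.H914.VarClass Pool.Agent.H914.VarClass.Obj
  Pool.Agent.H914.WeilCohomology Pool.Agent.R908

section

variable {K B C D : Type*} [Field K] [Ring B] [Algebra K B] [Ring C] [Algebra K C] [Ring D]
  [Algebra K D]

/-- The sum of the spaces `gr i` with `i + w` even. -/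
def parityPart (gr : ℕ → Submodule K B) (w : ℕ) : Submodule K B :=
  ⨆ i : {i : ℕ // Even (i + w)}, gr i

/-- On the elements of degree `i` of `N` the map `φ` is zero if `i + w` is even, and the identity
if `i + w` is odd. -/
def IsOddProjectorOn (gr : ℕ → Submodule K B) (N : Submodule K B) (w : ℕ) (φ : B → B) : Prop :=
  ∀ i, ∀ a ∈ gr i, a ∈ N → (Even (i + w) → φ a = 0) ∧ (Odd (i + w) → φ a = a)

/-- The map `x ↦ g (c * f x)`. -/
def kernelMap (f : B →ₐ[K] C) (g : C →ₗ[K] D) (c : C) (x : B) : D := g (c * f x)

/-- The map `φ` is a `K`-linear combination of maps in `P`. -/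
def IsCombination (K : Type*) {B : Type*} [Field K] [Ring B] [Algebra K B] (P : Set (B → B))
    (φ : B → B) : Prop :=
  ∃ (n : ℕ) (c : Fin n → K) (e : Fin n → B → B), (∀ i, e i ∈ P) ∧ ∀ x, φ x = ∑ i, c i • e i x

end

/-- The compositions of a map in `P a` and a map in `Q b`, where `a + b = n`. -/
def compositions {B C : Type*} (P : ℕ → Set (B → C)) (Q : ℕ → Set (C → B)) (n : ℕ) :
    Set (B → B) :=
  {e | ∃ (a b : ℕ) (u : B → C) (v : C → B), a + b = n ∧ u ∈ P a ∧ v ∈ Q b ∧ e = fun x => v (u x)}

variable {k : Type u} [Field k] {𝒱 : VarClass k} {ops : CycleOps 𝒱}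

/-- The part `T_w(X)` of the transcendental cohomology in the degrees `i` with `i + w` even. -/
def transPart (W : WeilCohomology.{u, v} ops) (X : 𝒱.Obj) (w : ℕ) : Submodule W.K (W.H X) :=
  transcendental W X ⊓ parityPart (W.gr X) w

/-- The maps from the cohomology of `X` to that of `Y` given by the cycles of codimension `p` on
`X × Y` with rational coefficients, `x ↦ pr₂_* (cl z * pr₁^* x)`. -/
def cycleMaps (W : WeilCohomology.{u, v} ops) (X Y : 𝒱.Obj) (p : ℕ) : Set (W.H X → W.H Y) :=
  {e | ∃ z, (X.prod Y).IsCyc p z ∧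
    e = kernelMap (W.map (fst X Y)) (W.push (snd X Y)) (W.cl (X.prod Y) z)}

/-- The compositions (of degree zero) of algebraic correspondences from `X` to `Y` and from `Y` to
`X`, for all products `Y` of members of `𝒴`. -/
def throughProducts (W : WeilCohomology.{u, v} ops) (𝒴 : Set 𝒱.Obj) (X : 𝒱.Obj) :
    Set (W.H X → W.H X) :=
  {φ | ∃ Y : 𝒱.Obj, IsProductOf 𝒴 Y ∧
    φ ∈ compositions (cycleMaps W X Y) (cycleMaps W Y X) (X.dim + Y.dim)}

/-- The part of the transcendental cohomology of `X` in the degrees `i` with `i + w` odd comes from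
products of members of `𝒴`: the projection onto it is a combination of compositions of algebraic
correspondences through such products. -/
def OtherPartFrom (W : WeilCohomology.{u, v} ops) (𝒴 : Set 𝒱.Obj) (X : 𝒱.Obj) (w : ℕ) : Prop :=
  ∃ φ : W.H X → W.H X, IsCombination W.K (throughProducts W 𝒴 X) φ ∧
    IsOddProjectorOn (W.gr X) (transcendental W X) w φ

end Pool.Agent.Helper786.Det
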