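import Pool.Agent.Helper786_Inv.Words2
import Pool.Agent.Helper786_Inv.PartDefs

/-!
# The conjecture D for powers, and the determinants of Frobenius elements on the blocks of the part
of given parity of the transcendental cohomology
-/

set_option autoImplicit false
set_option linter.unusedSectionVars false
set_option linter.unusedVariables false
set_option linter.deprecated false

open CategoryTheory AlgebraicGeometry TensorProduct Function

universe u v

namespace Pool.Agent.Helper786.Part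

open Pool.Agent.H914 Pool.Agent.H914.VarClass Pool.Agent.H914.VarClass.Obj
  Pool.Agent.H914.WeilCohomology Pool.Agent.R908 Pool.Agent.R908.Km Pool.Agent.Helper786.Inv
  Pool.Agent.Helper786.Det

variable {k : Type u} [Field k] {𝒱 : VarClass k} {ops : CycleOps 𝒱}
  {W : WeilCohomology.{u, v} ops} {𝒴 : Set 𝒱.Obj} {X : 𝒱.Obj}
  {𝒢 : Set (Symmetry W)} {Λ : Type} [Fintype Λ] {bar : Λ → Λ}
  {p : Λ → Module.End W.K (W.H X)} {w : ℕ}

/-- A block system in the part of parity `w`. -/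
def IsBlockSystemPart (𝒢 : Set (Symmetry W)) (X : 𝒱.Obj) (w : ℕ) (bar : Λ → Λ)
    (p : Λ → Module.End W.K (W.H X)) : Prop :=
  IsBlockSystem (transPart W X w) (cupForm (W.tr X)) (cycleOperators W X)
    (symmetryOperators 𝒢 X) bar p

/-- The symmetry commutes with the projections on the blocks. -/
def PreservesBlocksPart (S : Symmetry W) (w : ℕ) (p : Λ → Module.End W.K (W.H X)) : Prop :=
  ∀ l, CommutesOn (transPart W X w) (S.σ X) (p l)

/-- Relations between the determinants. -/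
def IsDetRelationPart (w : ℕ) (p : Λ → Module.End W.K (W.H X)) (𝒴 : Set 𝒱.Obj)
    (S : Symmetry W) (q : ℕ) (d : Λ → ℕ) : Prop :=
  ∃ Z : 𝒱.Obj, IsProductOf 𝒴 Z ∧
    EigenUpTo (S.σ Z) q (detProd (transPart W X w) p (S.σ X) d)

lemma IsBlockSystemPart.mem (hp : IsBlockSystemPart 𝒢 X w bar p) (l : Λ) : p l ∈ KOp W X X 0 :=
  span_cycleOperators_le (hp.algebraic l)

section

variable (s : TSplit W X) {κ : W.H X →ₗ[W.K] W.H X} (hκ : κ ∈ KOp W X X 0)
  (hs : ∀ i, ∀ a ∈ W.gr X i, a ∈ transcendental W X → κ a = (-1 : W.K) ^ i • a)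

include hs in
lemma ew_comm' (l : Λ) (hp : IsBlockSystemPart 𝒢 X w bar p) (x : W.H X) :
    p l (s.ew κ w x) = s.ew κ w (p l x) :=
  congrArg (fun F => F x) (s.ew_comm hs w (hp.mem l))

include hs in
lemma ew_parity {y : W.H X} (hy : y ∈ parityPart (W.gr X) w) : s.ew κ w y = s.eT y := by
  refine Submodule.iSup_induction (fun i : {i : ℕ // Even (i + w)} => W.gr X i)
    (motive := fun y => s.ew κ w y = s.eT y) hy ?_ ?_ ?_
  · intro i a ha
    rw [s.ew_apply hs w ha, if_pos i.2]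
  · rw [map_zero, map_zero]
  · intro a b ha hb
    rw [map_add, map_add, ha, hb]

include hs in
lemma ew_fix (x : W.H X) (hx : x ∈ transPart W X w) : s.ew κ w x = x := by
  rw [ew_parity s hs hx.2]
  exact s.fix _ hx.1

include hs in
lemma ew_T (x : W.H X) : s.ew κ w x ∈ transPart W X w := by
  refine ⟨s.ew_range hs w x, ?_⟩
  refine gr_induction (W.isInternal X) (p := fun a => s.ew κ w a ∈ parityPart (W.gr X) w)
    ?_ ?_ x
  · intro i a ha
    rw [s.ew_apply hs w ha]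
    split_ifs with he
    · exact Submodule.mem_iSup_of_mem (p := fun i : {i : ℕ // Even (i + w)} => W.gr X i) ⟨i, he⟩
        (Mot.hom_deg0 s.mem0 ha)
    · exact Submodule.zero_mem _
  · intro a b ha hb
    rw [map_add]
    exact Submodule.add_mem _ ha hb

/-- The blocks. -/
lemma IsBlockSystemPart.blocks (hp : IsBlockSystemPart 𝒢 X w bar p) :
    Blocks (s.Mw hκ hs w) (s.ew κ w)
      (Finset.univ : Finset Λ) bar (fun l => p l ∘ₗ s.ew κ w) where
  mem l := ⟨_, KOp.comp (hp.mem l) (s.ew_mem hκ w)⟩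
  e_p l := by
    apply LinearMap.ext
    intro (x : W.H X)
    change s.ew κ w (p l (s.ew κ w x)) = p l (s.ew κ w x)
    rw [← ew_comm' s hs l hp, ew_fix s hs _ (ew_T s hs x)]
  p_e l := by
    apply LinearMap.ext
    intro (x : W.H X)
    change p l (s.ew κ w (s.ew κ w x)) = p l (s.ew κ w x)
    rw [ew_fix s hs _ (ew_T s hs x)]
  idem l := by
    apply LinearMap.ext
    intro (x : W.H X)
    change p l (s.ew κ w (p l (s.ew κ w x))) =
      p l (s.ew κ w x)
    rw [← ew_comm' s hs l hp, ew_fix s hs _ (ew_T s hs x), hp.idem l _ (ew_T s hs x)]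
  ortho l l' hl := by
    apply LinearMap.ext
    intro (x : W.H X)
    change p l (s.ew κ w (p l' (s.ew κ w x))) = 0
    rw [← ew_comm' s hs l' hp, ew_fix s hs _ (ew_T s hs x), hp.ortho l l' hl _ (ew_T s hs x)]
  sum := by
    apply LinearMap.ext
    intro (x : W.H X)
    rw [LinearMap.sum_apply]
    exact hp.sum _ (ew_T s hs x)
  bb := hp.involutive
  adj := by
    intro l (x : W.H X) (y : W.H X)
    have hself := s.Mw_self hκ hs w
    change W.tr X (p l (s.ew κ w x) * s.ew κ w y) =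
      W.tr X (x * s.ew κ w (p (bar l) (s.ew κ w y)))
    have h1 : W.tr X (p l (s.ew κ w x) * s.ew κ w y) =
        W.tr X (s.ew κ w x * p (bar l) (s.ew κ w y)) :=
      hp.adjoint l _ (ew_T s hs x) _ (ew_T s hs y)
    have h2 : W.tr X (s.ew κ w x *
        s.ew κ w (p (bar l) (s.ew κ w y))) =
        W.tr X (x * s.ew κ w (p (bar l) (s.ew κ w y))) :=
      hself.psi_e_left x (p (bar l) (s.ew κ w y))
    have h3 : s.ew κ w (p (bar l) (s.ew κ w y)) =
        p (bar l) (s.ew κ w y) := by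
      rw [← ew_comm' s hs (bar l) hp, ew_fix s hs _ (ew_T s hs y)]
    rw [← h2, h3, h1]

/-- **All forms given by numerically trivial classes vanish.** -/
theorem forms_zero_part (hp : IsBlockSystemPart 𝒢 X w bar p)
    (h𝒢 : ∀ S ∈ 𝒢, PreservesBlocksPart S w p)
    (hY : ∀ Z, IsProductOf 𝒴 Z → HomEqNum W Z) (𝓕 : Set (Symmetry W × ℕ))
    (h𝓕 : ∀ S ∈ 𝓕, IsFrobeniusElement S.1 S.2 ∧ PreservesBlocksPart S.1 w p)
    (hdet : ∀ d : Λ → ℕ, (∀ S ∈ 𝓕, IsDetRelationPart w p 𝒴 S.1 S.2 d) → ∀ l, d (bar l) = d l)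
    (n₀ : ℕ) (F₀ : (Fin n₀ → TT (s.Mw hκ hs w)) → W.K)
    (hF₀ : F₀ ∈ FA (s.Mw hκ hs w) (s.ew κ w) (QP W 𝒴) n₀) :
    F₀ = 0 := by
  classical
  by_contra hF₀ne
  have hself := s.Mw_self hκ hs w
  have hb := hp.blocks s hκ hs
  have hcA : ∀ S : Symmetry W, Comm S (s.Mw hκ hs w) := fun S =>
    s.Mw_comm hκ hs w S
  have hcom : ∀ S : Symmetry W, PreservesBlocksPart S w p → ∀ (l : Λ)
      (x : W.H (s.Mw hκ hs w).X),
      S.σ (s.Mw hκ hs w).X ((p l ∘ₗ s.ew κ w) x) =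
        (p l ∘ₗ s.ew κ w) (S.σ (s.Mw hκ hs w).X x) := by
    intro S hS l (x : W.H X)
    have h1 : S.σ X (s.ew κ w x) = s.ew κ w (S.σ X x) := hcA S x
    change S.σ X (p l (s.ew κ w x)) = p l (s.ew κ w (S.σ X x))
    rw [← h1]
    exact hS l _ (ew_T s hs x)
  obtain ⟨n, b, c, β, hbc, hβ, d, S₁, ω, hω, hωF, hunb⟩ := Blocks.exists_volume hself hb
    (Q := QP W 𝒴)
    (by
      rintro B B' ⟨Z, hZ, rfl⟩ ⟨Z', hZ', rfl⟩
      exact ⟨Z.prod Z', IsProductOf.prod hZ hZ', whole_tensor Z Z'⟩)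
    (by
      rintro B ⟨Z, hZ, rfl⟩
      exact num_whole (hY Z hZ)) 𝒢 (fun S _ => hcA S)
    (fun S _ => ⟨1, one_ne_zero, fun a => by
      rw [one_smul]
      exact (hcA S a).symm⟩)
    (by
      rintro S _ B ⟨Z, hZ, rfl⟩ a
      rfl)
    (fun S hS => hcom S (h𝒢 S hS))
    (by
      intro (U : Submodule W.K (W.H X)) hU hst' hS' l hl (y : W.H X) hy'
      have hst : ∀ (δ : ℤ) (φ : W.H X →ₗ[W.K] W.H X), φ ∈ KOp W X X δ → ∀ x ∈ U,
        s.ew κ w (φ x) ∈ U := hst'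
      have hfix : ∀ x ∈ U, s.ew κ w x = x := by
        intro x hx
        obtain ⟨y, hy⟩ := hU hx
        rw [← hy]
        exact ew_fix s hs _ (ew_T s hs y)
      have hT : ∀ x ∈ U, x ∈ transPart W X w := by
        intro x hx
        rw [← hfix x hx]
        exact ew_T s hs x
      obtain ⟨x, hx, hx0, hxl⟩ := hl
      have hy : p l (s.ew κ w y) = y := hy'
      have hxl' : p l (s.ew κ w x) = x := hxl
      have hyT : y ∈ transPart W X w := by
        rw [← hy, ew_comm' s hs l hp]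
        exact ew_T s hs _
      refine hp.irreducible U hT ?_ ?_ l ⟨x, hx, hx0, ?_⟩ y hyT ?_
      · rintro _ ⟨z, hz, rfl⟩ x hx
        have hφ0 : W.corr (W.cl _ z) ∈ KOp W X X 0 := KOp.gen (by rw [add_zero]) hz
        have h1 : s.ew κ w (W.corr (W.cl _ z) x) = W.corr (W.cl _ z) x := by
          have h2 : W.corr (W.cl _ z) (s.ew κ w x) =
              s.ew κ w (W.corr (W.cl _ z) x) :=
            congrArg (fun F => F x) (s.ew_comm hs w hφ0)
          rw [← h2, hfix x hx]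
        rw [← h1]
        exact hst _ _ hφ0 x hx
      · rintro _ ⟨S, hS, rfl⟩ x hx
        exact hS' S hS x hx
      · rwa [hfix x hx] at hxl'
      · rwa [ew_fix s hs y hyT] at hy) hF₀ hF₀ne
  obtain ⟨l₀, hl₀⟩ := hunb
  apply hl₀
  refine hdet d (fun S hS => ?_) l₀
  obtain ⟨hfr, hpr⟩ := h𝓕 S hS
  have hM : ∀ (l : Λ) (x : W.H (s.Mw hκ hs w).X),
      x ∈ fixSub (transPart W X w) (p l) ↔ (p l ∘ₗ s.ew κ w) x = x := by
    intro l (x : W.H X)
    constructor
    · intro hx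
      have h1 : x ∈ transPart W X w := hx.1
      have h2 : p l x = x := hx.2
      change p l (s.ew κ w x) = x
      rw [ew_fix s hs x h1, h2]
    · intro hx'
      have hx : p l (s.ew κ w x) = x := hx'
      have h1 : x ∈ transPart W X w := by
        rw [← hx, ew_comm' s hs l hp]
        exact ew_T s hs _
      refine ⟨h1, ?_⟩
      rw [ew_fix s hs x h1] at hx
      exact hx
  -- the eigenvalue of the product of volume forms
  have heig := hω.eig hbc (rest_b hb hβ) (rest_adj hb) hb.bb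
    (restS (s.Mw hκ hs w) S.1)
    (rest_comm hb (hcA S.1) (hcom S.1 hpr))
    (D := fun l => detOn (fixSub (transPart W X w) (p l)) (S.1.σ X))
    (det_mL hb hbc hβ (hcA S.1) (hcom S.1 hpr) hM)
    (det_mL' hb hbc hβ (hcA S.1) (hcom S.1 hpr) hM)
  have hfin := hω.finite
  obtain ⟨N, ⟨e'⟩⟩ := Finite.exists_equiv_fin S₁
  set e : Fin N ≃ S₁ := e'.symm with he
  have hcyc : ∀ (X : 𝒱.Obj) (j : ℕ) (z : X.Cycles), X.IsCyc j z →
      ∃ r : ℕ, 0 < r ∧ ∃ n : ℕ, ((S.1.σ X) ^ r) (W.cl X z) =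
        (S.2 : W.K) ^ n • W.cl X z := by
    intro X j z hz
    obtain ⟨r, hr, hr'⟩ := (hfr.2 X).2 j z hz
    refine ⟨r, hr, j * r, ?_⟩
    rw [hr', ← pow_mul]
  obtain ⟨_, x₁, -, hx₁, -, -⟩ := hω.exists_point hbc (rest_b hb hβ) (rest_adj hb) hb.bb
  have hc₀ : ∀ a b : W.H (s.Mw hκ hs w).X,
      psi (s.Mw hκ hs w) (s.ew κ w)
        (S.1.σ (s.Mw hκ hs w).X a)
        (S.1.σ (s.Mw hκ hs w).X b) =
      (S.2 : W.K) ^ (X.dim : ℤ) *
        psi (s.Mw hκ hs w) (s.ew κ w) a b := by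
    intro (a : W.H X) (b : W.H X)
    have h1 : S.1.σ X (s.ew κ w b) = s.ew κ w (S.1.σ X b) := hcA S.1 b
    change W.tr X (S.1.σ X a * s.ew κ w (S.1.σ X b)) =
      _ * W.tr X (a * s.ew κ w b)
    rw [← h1, ← map_mul, S.1.tr, (hfr.2 X).1, zpow_natCast]
    rfl
  refine eigen_FA (A := s.Mw hκ hs w) (𝒴 := 𝒴)
    (S := S.1) (hcA S.1) hfr.1 hc₀ hcyc N (hωF N e)
    (by
      intro h0
      apply hx₁
      have h1 := congrFun h0 (x₁ ∘ e)
      beta_reduce at h1
      have h2 : (x₁ ∘ e) ∘ e.symm = x₁ := by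
        funext i
        simp
      rw [h2] at h1
      exact h1)
    (κ := detProd (transPart W X w) p (S.1.σ X) d)
    (by
      intro v
      exact heig (v ∘ e.symm))

end

lemma exists_linear {φ : W.H X → W.H X} (h : IsCombination W.K (throughProducts W 𝒴 X) φ) :
    ∃ φ' : W.H X →ₗ[W.K] W.H X, (∀ x, φ' x = φ x) ∧ φ' ∈ KOp W X X 0 ∧
      ∀ A : Mot W, φ' ∈ RetOp W (PieceCls 𝒴 A) X X := by
  obtain ⟨n, c, e, he, hφ⟩ := h
  have h1 : ∀ i, ∃ ψ : W.H X →ₗ[W.K] W.H X, (∀ x, ψ x = e i x) ∧ ψ ∈ KOp W X X 0 ∧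
      ∀ A : Mot W, ψ ∈ RetOp W (PieceCls 𝒴 A) X X := by
    intro i
    obtain ⟨Y, hY, a, b, u, v, hab, ⟨z, hz, rfl⟩, ⟨z', hz', rfl⟩, h2⟩ := he i
    have h3 : W.corr (W.cl _ z) ∈ KOp W X Y ((a : ℤ) - X.dim) := KOp.gen (by ring) hz
    have h4 : W.corr (W.cl _ z') ∈ KOp W Y X ((b : ℤ) - Y.dim) := KOp.gen (by ring) hz'
    refine ⟨W.corr (W.cl _ z') ∘ₗ W.corr (W.cl _ z), ?_, KOp.cast (KOp.comp h4 h3) ?_, ?_⟩
    · intro x
      rw [h2, LinearMap.comp_apply, corr_apply, corr_apply]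
      rfl
    · have h5 : (a : ℤ) + b = X.dim + Y.dim := by exact_mod_cast hab
      linarith
    · intro A
      exact RetOp.gen (B := R908.whole W Y) (PieceCls.whole A hY) h3 h4
  choose ψ hψ1 hψ2 hψ3 using h1
  refine ⟨∑ i, c i • ψ i, ?_, ?_, ?_⟩
  · intro x
    rw [hφ, LinearMap.sum_apply]
    refine Finset.sum_congr rfl fun i _ => ?_
    rw [LinearMap.smul_apply, hψ1]
  · exact Submodule.sum_mem _ fun i _ => Submodule.smul_mem _ _ (hψ2 i)
  · intro A
    exact Submodule.sum_mem _ fun i _ => Submodule.smul_mem _ _ (hψ3 i A)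

/-- **The conjecture D for all products of copies of `X` and of other varieties.** -/
theorem homEqNum_part (hD : HomEqNum W X) (hother : OtherPartFrom W 𝒴 X w)
    (hp : IsBlockSystemPart 𝒢 X w bar p)
    (h𝒢 : ∀ S ∈ 𝒢, PreservesBlocksPart S w p)
    (hY : ∀ Z, IsProductOf 𝒴 Z → HomEqNum W Z)
    (hunit : ∃ Y, IsProductOf 𝒴 Y ∧ (1 : W.H Y) ≠ 0) (𝓕 : Set (Symmetry W × ℕ))
    (h𝓕 : ∀ S ∈ 𝓕, IsFrobeniusElement S.1 S.2 ∧ PreservesBlocksPart S.1 w p)
    (hdet : ∀ d : Λ → ℕ, (∀ S ∈ 𝓕, IsDetRelationPart w p 𝒴 S.1 S.2 d) → ∀ l, d (bar l) = d l)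
    {Z : 𝒱.Obj} (hZ : IsProductOf ({X} ∪ 𝒴) Z) : HomEqNum W Z := by
  obtain ⟨s⟩ := exists_tSplit hD
  obtain ⟨φ₀, hφ₀, hφo'⟩ := hother
  obtain ⟨φ, hφe, hφK, hφR⟩ := exists_linear hφ₀
  have hφo : ∀ i, ∀ a ∈ W.gr X i, a ∈ transcendental W X →
      (Even (i + w) → φ a = 0) ∧ (Odd (i + w) → φ a = a) := by
    intro i a ha hT
    rw [hφe]
    exact hφo' i a ha hT
  set κ : W.H X →ₗ[W.K] W.H X := ((-1 : W.K) ^ w) • (LinearMap.id - (2 : W.K) • φ) with hκdef
  have hκ : κ ∈ KOp W X X 0 :=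
    Submodule.smul_mem _ _ (Submodule.sub_mem _ (KOp.id X) (Submodule.smul_mem _ _ hφK))
  have hs : ∀ i, ∀ a ∈ W.gr X i, a ∈ transcendental W X → κ a = (-1 : W.K) ^ i • a := by
    intro i a ha hT
    obtain ⟨h1, h2⟩ := hφo i a ha hT
    change ((-1 : W.K) ^ w) • (a - (2 : W.K) • φ a) = _
    rcases Nat.even_or_odd (i + w) with he | ho
    · rw [h1 he, smul_zero, sub_zero]
      congr 1
      rw [Nat.even_add] at he
      rcases Nat.even_or_odd i with hi | hi
      · rw [hi.neg_one_pow, (he.1 hi).neg_one_pow]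
      · rw [hi.neg_one_pow, (Nat.not_even_iff_odd.1 fun h =>
          (Nat.not_even_iff_odd.2 hi) (he.2 h)).neg_one_pow]
    · rw [h2 ho, two_smul, sub_add_cancel_left, smul_neg, ← neg_smul]
      congr 1
      rw [Nat.odd_add] at ho
      rcases Nat.even_or_odd i with hi | hi
      · have h3 : Odd w := by
          rw [← Nat.not_even_iff_odd]
          intro h
          exact (Nat.not_even_iff_odd.2 (ho.2 h)) hi
        rw [hi.neg_one_pow, h3.neg_one_pow, neg_neg]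
      · rw [hi.neg_one_pow, (ho.1 hi).neg_one_pow]
  have hself := s.Mw_self hκ hs w
  refine homEqNum_of_piece (A := s.Mw hκ hs w) hunit (fun Y hYY n => ?_) ?_ hZ
  · exact pM_num_of_zero hself (forms_zero_part s hκ hs hp h𝒢 hY 𝓕 h𝓕 hdet)
      (⟨Y, hYY, rfl⟩ : QP W 𝒴 (R908.whole W Y)) n
  · have h1 : (LinearMap.id : W.H X →ₗ[W.K] W.H X) = s.eC + s.ew κ w + φ ∘ₗ s.eT := by
      apply gr_ext (W.isInternal X)
      intro i a ha
      rw [LinearMap.add_apply, LinearMap.add_apply, LinearMap.comp_apply, s.eC_apply,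
        s.ew_apply hs w ha, LinearMap.id_apply]
      obtain ⟨h1, h2⟩ := hφo i _ (Mot.hom_deg0 s.mem0 ha) (s.mem_T a)
      by_cases he : Even (i + w)
      · rw [if_pos he, h1 he, add_zero, sub_add_cancel]
      · rw [if_neg he, h2 (Nat.not_even_iff_odd.1 he), add_zero, sub_add_cancel]
    rw [h1]
    refine Submodule.add_mem _ (Submodule.add_mem _ ?_ ?_) ?_
    · exact RetOp.self (B := s.MC) (PieceCls.alg _ s.MC_alg)
    · exact RetOp.self (B := s.Mw hκ hs w) (PieceCls.letter _)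
    · exact RetOp.comp_right (hφR _) s.mem0

end Pool.Agent.Helper786.Part
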