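import Pool.Agent.R908.MainK
import Pool.Agent.R908.AbL
import Pool.Agent.Helper786_Inv.PartMain
import Pool.Agent.Helper786_Inv.Frob2

/-!
# The conjecture D over finite fields and the relations between the eigenvalues of Frobenius
-/

set_option autoImplicit false

open CategoryTheory AlgebraicGeometry Polynomial

universe u v

namespace Pool.Agent.Helper786.Part

open Pool.Agent.H914 Pool.Agent.H914.VarClass Pool.Agent.H914.VarClass.Obj
  Pool.Agent.H914.WeilCohomology Pool.Agent.R908 Pool.Agent.Helper786.Frob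
  Pool.Agent.Helper786.Det

variable {k : Type u} [Field k] {𝒱 : VarClass k} {ops : CycleOps 𝒱}
  {W : WeilCohomology.{u, v} ops} {𝒴 : Set 𝒱.Obj} {X : 𝒱.Obj} {w : ℕ}

lemma KOp_le_span : KOp W X X 0 ≤ Submodule.span W.K (cycleOperators W X) := by
  apply Submodule.span_mono
  rintro φ ⟨p, hp, z, hz, rfl⟩
  rw [add_zero] at hp
  have hp' : p = X.dim := by exact_mod_cast hp
  subst hp'
  exact ⟨z, hz, rfl⟩

section

variable {S : Symmetry W} {χ : W.K[X]}

lemma isMinPolyOn (hχ : IsSquarefreePolyOn (transPart W X w) (S.σ X) χ) :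
    IsMinPolyOn (transPart W X w) (S.σ X).toLinearMap χ := ⟨hχ.2.2.1, hχ.2.2.2⟩

lemma sigma_part (S : Symmetry W) {x : W.H X} (hx : x ∈ transPart W X w) :
    S.σ X x ∈ transPart W X w := by
  refine ⟨S.trans hx.1, ?_⟩
  have h1 := hx.2
  refine Submodule.iSup_induction (fun i : {i : ℕ // Even (i + w)} => W.gr X i)
    (motive := fun y => S.σ X y ∈ parityPart (W.gr X) w) h1 ?_ ?_ ?_
  · intro i a ha
    exact Submodule.mem_iSup_of_mem (p := fun i : {i : ℕ // Even (i + w)} => W.gr X i) i
      (S.gr.2 ha)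
  · rw [map_zero]
    exact Submodule.zero_mem _
  · intro a b ha hb
    rw [map_add]
    exact Submodule.add_mem _ ha hb

/-- The cup product form is nondegenerate on the part of given parity. -/
lemma nondeg_part (hD : HomEqNum W X) {x : W.H X} (hx : x ∈ transPart W X w) (hx0 : x ≠ 0) :
    ∃ y ∈ transPart W X w, bil W X x y ≠ 0 := by
  obtain ⟨s⟩ := exists_tSplit hD
  by_contra hcon
  push Not at hcon
  apply hx0
  refine W.nondeg x ?_
  intro y
  refine gr_induction (W.isInternal X) (p := fun y => W.tr X (x * y) = 0) ?_ ?_ y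
  · intro j a ha
    by_cases he : Even (j + w)
    · rw [s.tr_right hx.1 a]
      exact hcon _ ⟨s.mem_T a, Submodule.mem_iSup_of_mem
        (p := fun i : {i : ℕ // Even (i + w)} => W.gr X i) ⟨j, he⟩ (Mot.hom_deg0 s.mem0 ha)⟩
    · refine Submodule.iSup_induction (fun i : {i : ℕ // Even (i + w)} => W.gr X i)
        (motive := fun x => W.tr X (x * a) = 0) hx.2 ?_ ?_ ?_
      · intro i b hb
        refine W.tr_eq_zero (W.mul_mem hb ha) ?_
        intro h
        apply he
        have h2 := i.2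
        have h3 : Even ((i : ℕ) + j) := ⟨X.dim, by omega⟩
        rw [Nat.even_add] at h2 h3 ⊢
        tauto
      · rw [zero_mul, map_zero]
      · intro b c hb hc
        rw [add_mul, map_add, hb, hc, add_zero]
  · intro a b ha hb
    rw [mul_add, map_add, ha, hb, add_zero]

lemma exists_system (hD : HomEqNum W X) {q : ℕ} (hS : IsFrobeniusElement S q) {F : X ⟶ X}
    (hF : ∀ x, W.map F x = S.σ X x)
    (hχ : IsSquarefreePolyOn (transPart W X w) (S.σ X) χ)
    (D : Dec (transPart W X w) (S.σ X).toLinearMap χ) :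
    ∃ bar : Fin D.n → Fin D.n,
      IsBlockSystemPart {S} X w bar (fun i => aeval (S.σ X).toLinearMap (D.f i)) ∧
      ∀ i, ∀ π : AlgebraicClosure W.K, aeval π (D.P i) = 0 →
        aeval (algebraMap W.K (AlgebraicClosure W.K) ((q : W.K) ^ X.dim) / π) (D.P (bar i)) = 0 := by
  have hmin := isMinPolyOn hχ
  have hσ : ∀ x ∈ transPart W X w, (S.σ X).toLinearMap x ∈ transPart W X w :=
    fun x hx => sigma_part S hx
  have hinj : ∀ x, (S.σ X).toLinearMap x = 0 → x = 0 := by
    intro x hx
    exact (S.σ X).injective (by rw [map_zero]; exact hx)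
  have hc : ((q : W.K) ^ X.dim) ≠ 0 := by
    have h1 := (S.sim X).ne_zero
    rw [(hS.2 X).1] at h1
    exact h1
  have hβ : ∀ x y, bil W X ((S.σ X).toLinearMap x) ((S.σ X).toLinearMap y) =
      ((q : W.K) ^ X.dim) * bil W X x y := by
    intro x y
    rw [bil_apply, bil_apply]
    change W.tr X (S.σ X x * S.σ X y) = _
    rw [← map_mul, S.tr, (hS.2 X).1]
    rfl
  have hnd : ∀ x ∈ transPart W X w, x ≠ 0 → ∃ y ∈ transPart W X w, bil W X x y ≠ 0 :=
    fun x hx hx0 => nondeg_part hD hx hx0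
  obtain ⟨bar, h1, h2, h3⟩ := D.exists_bar hσ hmin hinj hc hβ hnd (AlgebraicClosure W.K)
  have hK : (S.σ X).toLinearMap ∈ KOp W X X 0 := by
    have h4 : (W.map F).toLinearMap = (S.σ X).toLinearMap := by
      apply LinearMap.ext
      intro x
      exact hF x
    rw [← h4]
    exact KOp.mapHom F
  refine ⟨bar, ?_, h3⟩
  constructor
  · intro l
    exact KOp_le_span (KOp.aeval hK _)
  · intro x hx
    exact D.sum hmin hx
  · intro l x hx
    exact D.idem hmin l hx
  · intro l l' hl x hx
    exact D.ortho hmin hl hx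
  · exact h1
  · intro l x hx y hy
    exact h2 l x hx y hy
  · intro U hU _ hG l hl y hy hy'
    obtain ⟨x, hxU, hx0, hx⟩ := hl
    have hst : ∀ x ∈ U, (S.σ X).toLinearMap x ∈ U := fun x hx => hG _ ⟨S, rfl, rfl⟩ x hx
    have hxb : x ∈ D.blk l := D.mem_blk.2 ⟨hU hxU, (D.fix_iff hmin l (hU hxU)).1 hx⟩
    exact D.irreducible hσ hmin hχ.2.1.symm.symm l U hst hxb hx0 hxU
      (D.mem_blk.2 ⟨hy, (D.fix_iff hmin l hy).1 hy'⟩)

lemma preserves (D : Dec (transPart W X w) (S.σ X).toLinearMap χ) :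
    PreservesBlocksPart S w (fun i => (aeval (S.σ X).toLinearMap (D.f i) : Module.End W.K (W.H X))) := by
  intro l x _
  change (S.σ X).toLinearMap (aeval (S.σ X).toLinearMap (D.f l) x) =
    aeval (S.σ X).toLinearMap (D.f l) ((S.σ X).toLinearMap x)
  have h1 : aeval (S.σ X).toLinearMap (Polynomial.X * D.f l) x =
      aeval (S.σ X).toLinearMap (D.f l * Polynomial.X) x := by
    rw [mul_comm]
  rw [map_mul, map_mul, aeval_X, Module.End.mul_apply, Module.End.mul_apply] at h1
  exact h1

lemma fixSub_eq (hχ : IsSquarefreePolyOn (transPart W X w) (S.σ X) χ)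
    (D : Dec (transPart W X w) (S.σ X).toLinearMap χ) (i : Fin D.n) :
    fixSub (transPart W X w) (aeval (S.σ X).toLinearMap (D.f i)) = D.blk i := by
  ext x
  rw [D.mem_blk]
  constructor
  · rintro ⟨h1, h2⟩
    exact ⟨h1, (D.fix_iff (isMinPolyOn hχ) i h1).1 h2⟩
  · rintro ⟨h1, h2⟩
    exact ⟨h1, (D.fix_iff (isMinPolyOn hχ) i h1).2 h2⟩

lemma detOn_eq (hχ : IsSquarefreePolyOn (transPart W X w) (S.σ X) χ)
    (D : Dec (transPart W X w) (S.σ X).toLinearMap χ) (i : Fin D.n) :
    detOn (fixSub (transPart W X w) (aeval (S.σ X).toLinearMap (D.f i))) (S.σ X) =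
      (-1) ^ (D.P i).natDegree * (D.P i).coeff 0 := by
  have hσ : ∀ x ∈ transPart W X w, (S.σ X).toLinearMap x ∈ transPart W X w :=
    fun x hx => sigma_part S hx
  have hst : ∀ x ∈ fixSub (transPart W X w) (aeval (S.σ X).toLinearMap (D.f i)),
      (S.σ X).toLinearMap x ∈
        fixSub (transPart W X w) (aeval (S.σ X).toLinearMap (D.f i)) := by
    rw [fixSub_eq hχ D i]
    exact D.blk_stable hσ i
  rw [detOn, dif_pos hst]
  exact D.det_blk hσ (isMinPolyOn hχ) hχ.2.1 i _ (fixSub_eq hχ D i) hst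

end

/-- **The conjecture D and the invariant relations between the eigenvalues of Frobenius.** -/
theorem homEqNum_frob_part {S : Symmetry W} {q : ℕ} (hS : IsFrobeniusElement S q) {F : X ⟶ X}
    (hF : ∀ x, W.map F x = S.σ X x) (hD : HomEqNum W X)
    (hother : OtherPartFrom W 𝒴 X w) {χ : W.K[X]}
    (hχ : IsSquarefreePolyOn (transPart W X w) (S.σ X) χ)
    (hY : ∀ Z, IsProductOf 𝒴 Z → HomEqNum W Z)
    (hunit : ∃ Y, IsProductOf 𝒴 Y ∧ (1 : W.H Y) ≠ 0)
    (hrel : ∀ m : AlgebraicClosure W.K → ℕ, GaloisInvariant m →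
      (∃ Z, IsProductOf 𝒴 Z ∧ EigenUpToQ (S.σ Z) q (rootProd χ m)) →
        BalancedExponents χ ((q : W.K) ^ X.dim) m)
    {Z : 𝒱.Obj} (hZ : IsProductOf ({X} ∪ 𝒴) Z) : HomEqNum W Z := by
  classical
  obtain ⟨D⟩ := exists_dec (T := transPart W X w) (σ := (S.σ X).toLinearMap) hχ.2.2.1 hχ.1
  obtain ⟨bar, hsys, hbar⟩ := exists_system hD hS hF hχ D
  refine homEqNum_part (𝒢 := {S}) (𝓕 := {(S, q)}) hD hother hsys ?_ hY hunit ?_ ?_ hZ
  · rintro _ rfl
    exact preserves D
  · rintro _ rfl
    exact ⟨hS, preserves D⟩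
  · intro d hd l
    set m : AlgebraicClosure W.K → ℕ := fun x => ∑ i, if aeval x (D.P i) = 0 then d i else 0
      with hm
    have hmi : ∀ i, ∀ π : AlgebraicClosure W.K, aeval π (D.P i) = 0 → m π = d i := by
      intro i π hπ
      rw [hm]
      beta_reduce
      rw [Finset.sum_eq_single i]
      · rw [if_pos hπ]
      · intro j _ hj
        rw [if_neg]
        intro h
        exact hj (D.unique_root h hπ)
      · intro h
        exact absurd (Finset.mem_univ _) h
    have hinv : GaloisInvariant m := by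
      intro g x
      rw [hm]
      beta_reduce
      apply Finset.sum_congr rfl
      intro i _
      have h1 : aeval (g x) (D.P i) = g (aeval x (D.P i)) := by
        rw [Polynomial.aeval_algEquiv]
        rfl
      rw [h1, EmbeddingLike.map_eq_zero_iff]
    have hb := hrel m hinv ?_
    · obtain ⟨π, hπ⟩ := D.exists_root (Ω := AlgebraicClosure W.K) l
      have h1 : π ∈ χ.aroots (AlgebraicClosure W.K) := by
        rw [mem_aroots]
        refine ⟨hχ.2.2.1.ne_zero, ?_⟩
        have h2 : D.P l ∣ χ :=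
          dvd_trans (Finset.dvd_prod_of_mem _ (Finset.mem_univ l)) (dvd_of_eq D.prod)
        obtain ⟨g, hg⟩ := h2
        rw [hg, map_mul, hπ, zero_mul]
      have h3 := hb π h1
      rw [hmi l π hπ, hmi _ _ (hbar l π hπ)] at h3
      exact h3
    · obtain ⟨Z, hZ, s, a, y, hs, hy, hy'⟩ := hd (S, q) rfl
      refine ⟨Z, hZ, s, a, _, y, hs, hy, hy', ?_⟩
      have h1 : detProd (transPart W X w)
          (fun i => (aeval (S.σ X).toLinearMap (D.f i) : Module.End W.K (W.H X))) (S.σ X) d =
          ∏ i, ((-1) ^ (D.P i).natDegree * (D.P i).coeff 0) ^ d i := by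
        rw [detProd]
        apply Finset.prod_congr rfl
        intro i _
        rw [detOn_eq hχ D i]
      rw [h1, rootProd, D.prod_roots d m hmi, map_mul, map_pow, map_zpow₀, map_natCast]

end Pool.Agent.Helper786.Part
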