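import Pool.Agent.R908.KpB

/-!
# Localisation of a family of forms at a multiplicative set of forms
-/

set_option linter.unusedSectionVars false
set_option linter.unusedVariables false

namespace Pool.Agent.Helper786.Inv

open Finset Function Pool.Agent.R908.Km

variable {K : Type*} [Field K] {V : Type*} [AddCommGroup V] [Module K V] {ι : Type*}
  [Fintype ι] [DecidableEq ι] {ψ : V →ₗ[K] V →ₗ[K] K} {b c : ι → V}

/-- The product of two forms. -/
def otimes {S S' : Type} (g : (S → V) → K) (ω : (S' → V) → K) : (S ⊕ S' → V) → K :=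
  fun v => g (fun i => v (Sum.inl i)) * ω (fun s => v (Sum.inr s))

/-- A multiplicative system of forms. -/
structure MSys (𝓕 : FIdeal ψ b c) (𝒲 : ∀ S : Type, Set ((S → V) → K)) : Prop where
  ne : ∀ (S : Type) (ω : (S → V) → K), ω ∈ 𝒲 S → ∃ w, ω w ≠ 0
  fin : ∀ (S : Type) (ω : (S → V) → K), ω ∈ 𝒲 S → Finite S
  mul : ∀ (S S' : Type) (ω : (S → V) → K) (ω' : (S' → V) → K), ω ∈ 𝒲 S → ω' ∈ 𝒲 S' →
    otimes ω ω' ∈ 𝒲 (S ⊕ S')
  no : ∀ (S : Type) (ω : (S → V) → K), ω ∈ 𝒲 S → ω ∉ 𝓕.FF S

/-- The generators of the localisation. -/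
def locGen (𝓕 : FIdeal ψ b c) (𝒲 : ∀ S : Type, Set ((S → V) → K)) (m : ℕ) :
    Set ((Fin m → V) → K) :=
  {g | ∃ (S : Type) (ω : (S → V) → K), ω ∈ 𝒲 S ∧ otimes g ω ∈ 𝓕.FF (Fin m ⊕ S)}

/-- The localisation. -/
def locF (𝓕 : FIdeal ψ b c) (𝒲 : ∀ S : Type, Set ((S → V) → K)) (m : ℕ) :
    Submodule K ((Fin m → V) → K) :=
  Submodule.span K (locGen 𝓕 𝒲 m)

/-- Two more variables. -/
def eO (m : ℕ) (S : Type) : Option (Option (Fin m ⊕ S)) ≃ Fin (m + 2) ⊕ S where
  toFun := fun o => match o with
    | none => Sum.inl 0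
    | some none => Sum.inl 1
    | some (some (Sum.inl i)) => Sum.inl i.succ.succ
    | some (some (Sum.inr s)) => Sum.inr s
  invFun := fun s => match s with
    | Sum.inl i => Fin.cases none (fun j => Fin.cases (some none)
        (fun k => some (some (Sum.inl k))) j) i
    | Sum.inr s => some (some (Sum.inr s))
  left_inv := by
    rintro (_ | _ | s | s) <;> rfl
  right_inv := by
    rintro (i | i)
    · refine Fin.cases rfl (fun j => ?_) i
      refine Fin.cases rfl (fun k => rfl) j
    · rfl

variable {𝓕 : FIdeal ψ b c} {𝒲 : ∀ S : Type, Set ((S → V) → K)}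

lemma gen_multi (h : MSys 𝓕 𝒲) {m : ℕ} {g : (Fin m → V) → K} (hg : g ∈ locGen 𝓕 𝒲 m) :
    ∃ G : MultilinearMap K (fun _ : Fin m => V) K, ∀ v, G v = g v := by
  obtain ⟨S, ω, hω, hgω⟩ := hg
  have := h.fin S ω hω
  obtain ⟨w, hw⟩ := h.ne S ω hω
  obtain ⟨G, hG⟩ := 𝓕.FF_multi hgω
  have hw' : (ω w)⁻¹ * ω w = 1 := inv_mul_cancel₀ hw
  have hup : ∀ [DecidableEq (Fin m)] (v : Fin m → V) (i : Fin m) (x : V),
      (Sum.elim (update v i x) w : Fin m ⊕ S → V) = fun s => Sum.elim (update v i x) w s := by
    intro _ v i x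
    rfl
  classical
  have key : ∀ v : Fin m → V, g v = (ω w)⁻¹ * G (Sum.elim v w) := by
    intro v
    rw [hG]
    change g v = (ω w)⁻¹ * (g v * ω w)
    rw [mul_left_comm, hw', mul_one]
  have hup2 : ∀ (v : Fin m → V) (i : Fin m) (x : V),
      (Sum.elim (update v i x) w : Fin m ⊕ S → V) = update (Sum.elim v w) (Sum.inl i) x := by
    intro v i x
    funext s
    rcases s with s | s
    · by_cases h1 : s = i
      · subst h1
        rw [update_self, Sum.elim_inl, update_self]
      · rw [update_of_ne (fun h2 => h1 (Sum.inl_injective h2)), Sum.elim_inl, Sum.elim_inl,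
          update_of_ne h1]
    · rw [update_of_ne (by simp), Sum.elim_inr, Sum.elim_inr]
  refine ⟨MultilinearMap.mk' (fun v => g v) ?_ ?_, fun v => rfl⟩
  · intro v i x y
    rw [key, key, key, hup2, hup2, hup2, G.map_update_add, mul_add]
  · intro v i r x
    rw [key, key, hup2, hup2, G.map_update_smul, smul_eq_mul, smul_eq_mul, mul_left_comm]

lemma gen_zero (h : MSys 𝓕 𝒲) {g : (Fin 0 → V) → K} (hg : g ∈ locGen 𝓕 𝒲 0) : g = 0 := by
  obtain ⟨S, ω, hω, hgω⟩ := hg
  by_contra hne
  apply h.no S ω hω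
  obtain ⟨w, hw⟩ := Function.ne_iff.1 hne
  have h1 := 𝓕.FF_reindex (Equiv.emptySum (Fin 0) S) hgω
  have h2 : (fun v : S → V => otimes g ω (v ∘ (Equiv.emptySum (Fin 0) S))) = g w • ω := by
    funext v
    have e1 : (fun i : Fin 0 => (v ∘ (Equiv.emptySum (Fin 0) S)) (Sum.inl i)) = w :=
      Subsingleton.elim _ _
    change g (fun i : Fin 0 => (v ∘ (Equiv.emptySum (Fin 0) S)) (Sum.inl i)) *
      ω (fun s => (v ∘ (Equiv.emptySum (Fin 0) S)) (Sum.inr s)) = _
    rw [e1]
    rfl
  rw [h2] at h1
  have h3 := (𝓕.FF S).smul_mem (g w)⁻¹ h1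
  rwa [smul_smul, inv_mul_cancel₀ hw, one_smul] at h3

/-- **The localisation.** -/
def loc (h : MSys 𝓕 𝒲) : FIdeal ψ b c where
  F := locF 𝓕 𝒲
  multi := by
    intro m f hf
    induction hf using Submodule.span_induction with
    | mem f hf => exact gen_multi h hf
    | zero => exact ⟨0, fun v => rfl⟩
    | add f f' _ _ hf hf' =>
      obtain ⟨g, hg⟩ := hf
      obtain ⟨g', hg'⟩ := hf'
      exact ⟨g + g', fun v => by rw [MultilinearMap.add_apply, hg, hg']; rfl⟩
    | smul r f _ hf =>
      obtain ⟨g, hg⟩ := hf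
      exact ⟨r • g, fun v => by rw [MultilinearMap.smul_apply, hg]; rfl⟩
  zero := by
    intro f hf
    induction hf using Submodule.span_induction with
    | mem f hf => exact gen_zero h hf
    | zero => rfl
    | add f f' _ _ hf hf' => rw [hf, hf', add_zero]
    | smul r f _ hf => rw [hf, smul_zero]
  perm := by
    intro m f π hf
    induction hf using Submodule.span_induction with
    | mem f hf =>
      obtain ⟨S, ω, hω, hgω⟩ := hf
      refine Submodule.subset_span ⟨S, ω, hω, ?_⟩
      exact 𝓕.FF_reindex (Equiv.sumCongr π (Equiv.refl S)) hgω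
    | zero => exact Submodule.zero_mem _
    | add f f' _ _ hf hf' => exact Submodule.add_mem _ hf hf'
    | smul r f _ hf => exact Submodule.smul_mem _ r hf
  contr := by
    intro m f hf
    induction hf using Submodule.span_induction with
    | mem f hf =>
      obtain ⟨S, ω, hω, hgω⟩ := hf
      have := h.fin S ω hω
      refine Submodule.subset_span ⟨S, ω, hω, ?_⟩
      have h1 := 𝓕.FF_contr (𝓕.FF_reindex (eO m S).symm hgω)
      have h2 : (fun v : Fin m ⊕ S → V => ∑ i, otimes f ω
          ((FIdeal.oo (c i) (b i) v : Option (Option (Fin m ⊕ S)) → V) ∘ (eO m S).symm)) =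
          otimes (fun v : Fin m → V => ∑ i, f (Fin.cons (c i)
            (Fin.cons (b i) v : Fin (m + 1) → V) : Fin (m + 2) → V)) ω := by
        funext v
        rw [otimes]
        beta_reduce
        rw [Finset.sum_mul]
        refine Finset.sum_congr rfl fun i _ => ?_
        rw [otimes]
        congr 2
        funext s
        refine Fin.cases rfl (fun j => ?_) s
        refine Fin.cases rfl (fun k => rfl) j
      rw [h2] at h1
      exact h1
    | zero =>
      simp only [Pi.zero_apply, Finset.sum_const_zero]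
      exact Submodule.zero_mem _
    | add f f' _ _ hf hf' =>
      simp only [Pi.add_apply, Finset.sum_add_distrib]
      exact Submodule.add_mem _ hf hf'
    | smul r f _ hf =>
      simp only [Pi.smul_apply, ← Finset.smul_sum]
      exact Submodule.smul_mem _ r hf
  ins := by
    intro m f hf
    induction hf using Submodule.span_induction with
    | mem f hf =>
      obtain ⟨S, ω, hω, hgω⟩ := hf
      have := h.fin S ω hω
      refine Submodule.subset_span ⟨S, ω, hω, ?_⟩
      have h1 := 𝓕.FF_reindex (eO m S) (𝓕.FF_ins hgω)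
      have h2 : (fun v : Fin (m + 2) ⊕ S → V => ψ ((v ∘ (eO m S)) none)
          ((v ∘ (eO m S)) (some none)) * otimes f ω (fun s => (v ∘ (eO m S)) (some (some s)))) =
          otimes (fun v : Fin (m + 2) → V => ψ (v 0) (v 1) * f (fun j => v j.succ.succ)) ω := by
        funext v
        rw [otimes, otimes, mul_assoc]
        rfl
      rw [h2] at h1
      exact h1
    | zero =>
      simp only [Pi.zero_apply, mul_zero]
      exact Submodule.zero_mem _
    | add f f' _ _ hf hf' =>
      simp only [Pi.add_apply, mul_add]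
      exact Submodule.add_mem _ hf hf'
    | smul r f _ hf =>
      simp only [Pi.smul_apply, smul_eq_mul]
      have h1 := Submodule.smul_mem (locF 𝓕 𝒲 (m + 2)) r hf
      have h2 : (r • fun v : Fin (m + 2) → V => ψ (v 0) (v 1) * f (fun j => v j.succ.succ)) =
          fun v : Fin (m + 2) → V => ψ (v 0) (v 1) * (r * f (fun j => v j.succ.succ)) := by
        funext v
        rw [Pi.smul_apply, smul_eq_mul, mul_left_comm]
      rw [h2] at h1
      exact h1
  mul := by
    intro m n f g hf hg
    induction hf using Submodule.span_induction with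
    | mem f hf =>
      induction hg using Submodule.span_induction with
      | mem g hg =>
        obtain ⟨S, ω, hω, hgω⟩ := hf
        obtain ⟨S', ω', hω', hgω'⟩ := hg
        have := h.fin S ω hω
        have := h.fin S' ω' hω'
        refine Submodule.subset_span ⟨S ⊕ S', otimes ω ω', h.mul S S' ω ω' hω hω', ?_⟩
        have h1 := 𝓕.FF_reindex ((Equiv.sumSumSumComm (Fin m) S (Fin n) S').trans
          (Equiv.sumCongr finSumFinEquiv (Equiv.refl (S ⊕ S')))) (𝓕.FF_mul hgω hgω')
        have h2 : (fun v : Fin (m + n) ⊕ (S ⊕ S') → V =>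
            otimes f ω (fun s => (v ∘ ((Equiv.sumSumSumComm (Fin m) S (Fin n) S').trans
              (Equiv.sumCongr finSumFinEquiv (Equiv.refl (S ⊕ S'))))) (Sum.inl s)) *
            otimes g ω' (fun s => (v ∘ ((Equiv.sumSumSumComm (Fin m) S (Fin n) S').trans
              (Equiv.sumCongr finSumFinEquiv (Equiv.refl (S ⊕ S'))))) (Sum.inr s))) =
            otimes (fun v : Fin (m + n) → V => f (fun i => v (Fin.castAdd n i)) *
              g (fun j => v (Fin.natAdd m j))) (otimes ω ω') := by
          funext v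
          exact mul_mul_mul_comm _ _ _ _
        rw [h2] at h1
        exact h1
      | zero =>
        simp only [Pi.zero_apply, mul_zero]
        exact Submodule.zero_mem _
      | add g g' _ _ hg hg' =>
        simp only [Pi.add_apply, mul_add]
        exact Submodule.add_mem _ hg hg'
      | smul r g _ hg =>
        have h2 : (fun v : Fin (m + n) → V => f (fun i => v (Fin.castAdd n i)) *
            (r • g) (fun j => v (Fin.natAdd m j))) = r • fun v : Fin (m + n) → V =>
              f (fun i => v (Fin.castAdd n i)) * g (fun j => v (Fin.natAdd m j)) := by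
          funext v
          rw [Pi.smul_apply, Pi.smul_apply, smul_eq_mul, smul_eq_mul, mul_left_comm]
        rw [h2]
        exact Submodule.smul_mem _ r hg
    | zero =>
      simp only [Pi.zero_apply, zero_mul]
      exact Submodule.zero_mem _
    | add f f' _ _ hf hf' =>
      simp only [Pi.add_apply, add_mul]
      exact Submodule.add_mem _ hf hf'
    | smul r f _ hf =>
      have h2 : (fun v : Fin (m + n) → V => (r • f) (fun i => v (Fin.castAdd n i)) *
          g (fun j => v (Fin.natAdd m j))) = r • fun v : Fin (m + n) → V =>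
            f (fun i => v (Fin.castAdd n i)) * g (fun j => v (Fin.natAdd m j)) := by
        funext v
        rw [Pi.smul_apply, Pi.smul_apply, smul_eq_mul, smul_eq_mul, mul_assoc]
      rw [h2]
      exact Submodule.smul_mem _ r hf

lemma loc_mem (h : MSys 𝓕 𝒲) {m : ℕ} {S : Type} {ω : (S → V) → K} (hω : ω ∈ 𝒲 S)
    {g : (Fin m → V) → K} (hg : otimes g ω ∈ 𝓕.FF (Fin m ⊕ S)) : g ∈ (loc h).F m :=
  Submodule.subset_span ⟨S, ω, hω, hg⟩

/-- Stability under substitutions. -/
lemma loc_varSt (h : MSys 𝓕 𝒲) {u : V → V} (hu : 𝓕.VarSt u) : (loc h).VarSt u := by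
  classical
  intro m f hf s
  change _ ∈ locF 𝓕 𝒲 m
  replace hf : f ∈ locF 𝓕 𝒲 m := hf
  induction hf using Submodule.span_induction with
  | mem f hf =>
    obtain ⟨S, ω, hω, hgω⟩ := hf
    have := h.fin S ω hω
    refine Submodule.subset_span ⟨S, ω, hω, ?_⟩
    have h1 := hu.ff hgω (Sum.inl s)
    have h2 : (fun v : Fin m ⊕ S → V => otimes f ω (update v (Sum.inl s) (u (v (Sum.inl s))))) =
        otimes (fun v => f (update v s (u (v s)))) ω := by
      funext v
      rw [otimes, otimes]
      congr 2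
      · funext i
        by_cases h3 : i = s
        · subst h3
          rw [update_self, update_self]
        · rw [update_of_ne (fun h4 => h3 (Sum.inl_injective h4)), update_of_ne h3]
    rw [h2] at h1
    exact h1
  | zero => exact Submodule.zero_mem _
  | add f f' _ _ hf hf' => exact Submodule.add_mem _ hf hf'
  | smul r f _ hf => exact Submodule.smul_mem _ r hf

/-- Stability under symmetries. -/
lemma loc_sym (h : MSys 𝓕 𝒲) {σ : V → V}
    (hσ : ∀ (m : ℕ) (f : (Fin m → V) → K), f ∈ 𝓕.F m → (fun v => f (σ ∘ v)) ∈ 𝓕.F m)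
    (hκ : ∀ (S : Type) (ω : (S → V) → K), ω ∈ 𝒲 S → ∃ κ : K, κ ≠ 0 ∧
      ∀ v, ω (σ ∘ v) = κ * ω v) :
    ∀ (m : ℕ) (f : (Fin m → V) → K), f ∈ (loc h).F m → (fun v => f (σ ∘ v)) ∈ (loc h).F m := by
  intro m f hf
  change _ ∈ locF 𝓕 𝒲 m
  replace hf : f ∈ locF 𝓕 𝒲 m := hf
  induction hf using Submodule.span_induction with
  | mem f hf =>
    obtain ⟨S, ω, hω, hgω⟩ := hf
    have := h.fin S ω hω
    obtain ⟨κ, hκ0, hκ⟩ := hκ S ω hω
    refine Submodule.subset_span ⟨S, ω, hω, ?_⟩
    have h1 : (fun v : Fin m ⊕ S → V => otimes f ω (σ ∘ v)) ∈ 𝓕.FF (Fin m ⊕ S) := by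
      intro n e
      exact hσ n _ (hgω n e)
    have h2 : (fun v : Fin m ⊕ S → V => otimes f ω (σ ∘ v)) =
        κ • otimes (fun v => f (σ ∘ v)) ω := by
      funext v
      rw [Pi.smul_apply, smul_eq_mul, otimes, otimes]
      have h3 := hκ (fun s => v (Sum.inr s))
      have h4 : (fun s => (σ ∘ v) (Sum.inr s)) = σ ∘ fun s => v (Sum.inr s) := rfl
      rw [h4, h3, mul_left_comm]
      rfl
    rw [h2] at h1
    have h3 := (𝓕.FF (Fin m ⊕ S)).smul_mem κ⁻¹ h1
    rwa [smul_smul, inv_mul_cancel₀ hκ0, one_smul] at h3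
  | zero => exact Submodule.zero_mem _
  | add f f' _ _ hf hf' => exact Submodule.add_mem _ hf hf'
  | smul r f _ hf => exact Submodule.smul_mem _ r hf

end Pool.Agent.Helper786.Inv
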