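import Pool.Agent.Helper786_Inv.Loc

/-!
# Volume forms of the blocks
-/

set_option linter.unusedSectionVars false
set_option linter.unusedVariables false
set_option linter.deprecated false

namespace Pool.Agent.Helper786.Inv

open Finset Function Pool.Agent.R908.Km

variable {K : Type*} [Field K] {V : Type*} [AddCommGroup V] [Module K V] {ι : Type}
  [Fintype ι] [DecidableEq ι] {ψ : V →ₗ[K] V →ₗ[K] K} {b c : ι → V} {ε : K}
  {Λ : Type*} [DecidableEq Λ]

/-- The indices of the block `l`. -/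
abbrev BI (β : ι → Λ) (l : Λ) : Type := {k : ι // β k = l}

/-- The volume form of the block `l`. -/
noncomputable def volF (ψ : V →ₗ[K] V →ₗ[K] K) (c : ι → V) (β : ι → Λ) (l : Λ) :
    (BI β l → V) → K :=
  fun v => (Matrix.of fun i k : BI β l => ψ (c i) (v k)).det

/-- The volume form of the conjugate block. -/
noncomputable def volG (ψ : V →ₗ[K] V →ₗ[K] K) (b : ι → V) (β : ι → Λ) (l : Λ) :
    (BI β l → V) → K :=
  fun v => (Matrix.of fun k i : BI β l => ψ (v k) (b i)).det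

/-- The products of volume forms; `d l` is the number of volume forms of the block `l`. -/
inductive IsVol (ψ : V →ₗ[K] V →ₗ[K] K) (b c : ι → V) (β : ι → Λ) (bar : Λ → Λ) :
    (Λ → ℕ) → (S : Type) → ((S → V) → K) → Prop
  | one : IsVol ψ b c β bar 0 Empty (fun _ => 1)
  | vol (l : Λ) : IsVol ψ b c β bar (Pi.single l 1) (BI β l) (volF ψ c β l)
  | vol' (l : Λ) : IsVol ψ b c β bar (Pi.single (bar l) 1) (BI β l) (volG ψ b β l)
  | mul {d d' : Λ → ℕ} {S S' : Type} {ω : (S → V) → K} {ω' : (S' → V) → K} :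
      IsVol ψ b c β bar d S ω → IsVol ψ b c β bar d' S' ω' →
        IsVol ψ b c β bar (d + d') (S ⊕ S') (otimes ω ω')

variable {β : ι → Λ} {bar : Λ → Λ} {P : Λ → (V →ₗ[K] V)} {𝓕 : FIdeal ψ b c}

lemma IsVol.finite {d : Λ → ℕ} {S : Type} {ω : (S → V) → K} (h : IsVol ψ b c β bar d S ω) :
    Finite S := by
  induction h with
  | one => infer_instance
  | vol l => infer_instance
  | vol' l => infer_instance
  | mul _ _ h1 h2 => infer_instance

/-! ### The blocks -/

lemma P_apply (h : DualPair ψ b c ε) (hPb : ∀ l i, P l (b i) = if β i = l then b i else 0)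
    (l : Λ) (x : V) : P l x = ∑ i : BI β l, ψ (c i) x • b i := by
  conv_lhs => rw [h.exp_b x]
  rw [map_sum, ← Finset.sum_subtype (Finset.univ.filter fun i => β i = l) (by simp)
    (fun i => ψ (c i) x • b i), Finset.sum_filter]
  refine Finset.sum_congr rfl fun i _ => ?_
  rw [map_smul, hPb]
  split_ifs
  · rfl
  · rw [smul_zero]

lemma Pbar_c (h : DualPair ψ b c ε) (hPb : ∀ l i, P l (b i) = if β i = l then b i else 0)
    (hPadj : ∀ l x y, ψ (P l x) y = ψ x (P (bar l) y)) (hbb : ∀ l, bar (bar l) = l) (l : Λ)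
    (i : ι) : P (bar l) (c i) = if β i = l then c i else 0 := by
  rw [h.exp_c (P (bar l) (c i))]
  have e1 : ∀ j, ψ (P (bar l) (c i)) (b j) = if β j = l then (if i = j then 1 else 0) else 0 := by
    intro j
    rw [hPadj, hbb, hPb]
    split_ifs with h1 h2 h2
    · rw [h.delta, if_pos h2]
    · rw [h.delta, if_neg h2]
    · rw [map_zero]
  rw [Finset.sum_congr rfl fun j _ => by rw [e1 j], Finset.sum_eq_single i]
  · rw [if_pos rfl]
    split_ifs
    · rw [one_smul]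
    · rw [zero_smul]
  · intro j _ hj
    rw [if_neg (Ne.symm hj), ite_self, zero_smul]
  · intro h0
    exact absurd (Finset.mem_univ _) h0

lemma Pbar_apply (h : DualPair ψ b c ε) (hPb : ∀ l i, P l (b i) = if β i = l then b i else 0)
    (hPadj : ∀ l x y, ψ (P l x) y = ψ x (P (bar l) y)) (hbb : ∀ l, bar (bar l) = l)
    (l : Λ) (x : V) : P (bar l) x = ∑ i : BI β l, ψ x (b i) • c i := by
  conv_lhs => rw [h.exp_c x]
  rw [map_sum, ← Finset.sum_subtype (Finset.univ.filter fun i => β i = l) (by simp)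
    (fun i => ψ x (b i) • c i), Finset.sum_filter]
  refine Finset.sum_congr rfl fun i _ => ?_
  rw [map_smul, Pbar_c h hPb hPadj hbb]
  split_ifs
  · rfl
  · rw [smul_zero]

/-! ### Values of the volume forms -/

lemma vol_b (h : DualPair ψ b c ε) (l : Λ) : volF ψ c β l (fun k => b k) = 1 := by
  have h1 : (Matrix.of fun i k : BI β l => ψ (c i) (b k)) = 1 := by
    ext i k
    rw [Matrix.of_apply, h.delta, Matrix.one_apply]
    simp only [Subtype.ext_iff]
  rw [volF, h1, Matrix.det_one]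

lemma vol'_c (h : DualPair ψ b c ε) (l : Λ) : volG ψ b β l (fun k => c k) = 1 := by
  have h1 : (Matrix.of fun k i : BI β l => ψ (c k) (b i)) = 1 := by
    ext i k
    rw [Matrix.of_apply, h.delta, Matrix.one_apply]
    simp only [Subtype.ext_iff]
  rw [volG, h1, Matrix.det_one]

lemma vol_mul (h : DualPair ψ b c ε) (hPb : ∀ l i, P l (b i) = if β i = l then b i else 0)
    (l : Λ) (x y : BI β l → V) :
    (Matrix.of fun j k : BI β l => ψ (y j) (P l (x k))).det = volF ψ c β l x * volG ψ b β l y := by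
  have h1 : (Matrix.of fun j k : BI β l => ψ (y j) (P l (x k))) =
      (Matrix.of fun k i : BI β l => ψ (y k) (b i)) *
        (Matrix.of fun i k : BI β l => ψ (c i) (x k)) := by
    ext j k
    rw [Matrix.of_apply, Matrix.mul_apply, P_apply h hPb, map_sum]
    refine Finset.sum_congr rfl fun i _ => ?_
    rw [map_smul, smul_eq_mul, mul_comm]
    rfl
  rw [h1, Matrix.det_mul, mul_comm]
  rfl

/-- The matrix of an operator on the block. -/
def mL (ψ : V →ₗ[K] V →ₗ[K] K) (b c : ι → V) (β : ι → Λ) (σ : V → V) (l : Λ) :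
    Matrix (BI β l) (BI β l) K := Matrix.of fun i j => ψ (c i) (σ (b j))

/-- The matrix of an operator on the conjugate block. -/
def mL' (ψ : V →ₗ[K] V →ₗ[K] K) (b c : ι → V) (β : ι → Λ) (σ : V → V) (l : Λ) :
    Matrix (BI β l) (BI β l) K := Matrix.of fun i j => ψ (σ (c i)) (b j)

lemma vol_σ (h : DualPair ψ b c ε) (hPb : ∀ l i, P l (b i) = if β i = l then b i else 0)
    (hPadj : ∀ l x y, ψ (P l x) y = ψ x (P (bar l) y)) (hbb : ∀ l, bar (bar l) = l)
    (σ : V →ₗ[K] V) (hσ : ∀ l x, σ (P l x) = P l (σ x)) (l : Λ) (x : BI β l → V) :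
    volF ψ c β l (σ ∘ x) = (mL ψ b c β σ l).det * volF ψ c β l x := by
  have h1 : (Matrix.of fun i k : BI β l => ψ (c i) ((σ ∘ x) k)) =
      mL ψ b c β σ l * (Matrix.of fun i k : BI β l => ψ (c i) (x k)) := by
    ext i k
    rw [Matrix.of_apply, Matrix.mul_apply, Function.comp_apply]
    have e1 : ψ (c i) (σ (x k)) = ψ (c i) (P l (σ (x k))) := by
      have e2 := hPadj (bar l) (c i) (σ (x k))
      rw [Pbar_c h hPb hPadj hbb, if_pos i.2, hbb] at e2
      exact e2
    rw [e1, ← hσ, P_apply h hPb, map_sum, map_sum]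
    refine Finset.sum_congr rfl fun j _ => ?_
    rw [map_smul, map_smul, smul_eq_mul, mul_comm]
    rfl
  rw [volF, h1, Matrix.det_mul]
  rfl

lemma vol'_σ (h : DualPair ψ b c ε) (hPb : ∀ l i, P l (b i) = if β i = l then b i else 0)
    (hPadj : ∀ l x y, ψ (P l x) y = ψ x (P (bar l) y)) (hbb : ∀ l, bar (bar l) = l)
    (σ : V →ₗ[K] V) (hσ : ∀ l x, σ (P l x) = P l (σ x)) (l : Λ) (x : BI β l → V) :
    volG ψ b β l (σ ∘ x) = (mL' ψ b c β σ l).det * volG ψ b β l x := by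
  have h1 : (Matrix.of fun k i : BI β l => ψ ((σ ∘ x) k) (b i)) =
      (Matrix.of fun k i : BI β l => ψ (x k) (b i)) * mL' ψ b c β σ l := by
    ext k i
    rw [Matrix.of_apply, Matrix.mul_apply, Function.comp_apply]
    have e1 : ψ (σ (x k)) (b i) = ψ (P (bar l) (σ (x k))) (b i) := by
      rw [hPadj, hbb, hPb, if_pos i.2]
    rw [e1, ← hσ, Pbar_apply h hPb hPadj hbb, map_sum, map_sum, LinearMap.sum_apply]
    refine Finset.sum_congr rfl fun j _ => ?_
    rw [map_smul, map_smul, LinearMap.smul_apply, smul_eq_mul]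
    rfl
  rw [volG, h1, Matrix.det_mul, mul_comm]
  rfl

lemma mL_mul (h : DualPair ψ b c ε) (hPb : ∀ l i, P l (b i) = if β i = l then b i else 0)
    (σ : V →ₗ[K] V) (hσ : ∀ l x, σ (P l x) = P l (σ x)) {χ : K}
    (hχ : ∀ x y, ψ (σ x) (σ y) = χ * ψ x y) (l : Λ) :
    mL' ψ b c β σ l * mL ψ b c β σ l = χ • (1 : Matrix (BI β l) (BI β l) K) := by
  ext i k
  rw [Matrix.mul_apply, Matrix.smul_apply, smul_eq_mul]
  have h1 : ψ (σ (c i)) (P l (σ (b k))) = χ * (1 : Matrix (BI β l) (BI β l) K) i k := by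
    rw [← hσ, hPb, if_pos k.2, hχ, h.delta, Matrix.one_apply]
    simp only [Subtype.ext_iff]
  rw [← h1, P_apply h hPb, map_sum]
  refine Finset.sum_congr rfl fun j _ => ?_
  rw [map_smul, smul_eq_mul, mul_comm]
  rfl

lemma mL_ne (h : DualPair ψ b c ε) (hPb : ∀ l i, P l (b i) = if β i = l then b i else 0)
    (σ : V →ₗ[K] V) (hσ : ∀ l x, σ (P l x) = P l (σ x)) {χ : K} (hχ0 : χ ≠ 0)
    (hχ : ∀ x y, ψ (σ x) (σ y) = χ * ψ x y) (l : Λ) :
    (mL' ψ b c β σ l).det ≠ 0 ∧ (mL ψ b c β σ l).det ≠ 0 := by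
  have h1 := congrArg Matrix.det (mL_mul h hPb σ hσ hχ l)
  rw [Matrix.det_mul, Matrix.det_smul, Matrix.det_one, mul_one] at h1
  have h2 : (mL' ψ b c β σ l).det * (mL ψ b c β σ l).det ≠ 0 := by
    rw [h1]
    exact pow_ne_zero _ hχ0
  exact ⟨left_ne_zero_of_mul h2, right_ne_zero_of_mul h2⟩

/-- The products of volume forms are eigenvectors. -/
lemma IsVol.exists_eig (h : DualPair ψ b c ε)
    (hPb : ∀ l i, P l (b i) = if β i = l then b i else 0)
    (hPadj : ∀ l x y, ψ (P l x) y = ψ x (P (bar l) y)) (hbb : ∀ l, bar (bar l) = l)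
    (σ : V →ₗ[K] V) (hσ : ∀ l x, σ (P l x) = P l (σ x)) {χ : K} (hχ0 : χ ≠ 0)
    (hχ : ∀ x y, ψ (σ x) (σ y) = χ * ψ x y) {d : Λ → ℕ} {S : Type} {ω : (S → V) → K}
    (hω : IsVol ψ b c β bar d S ω) : ∃ κ : K, κ ≠ 0 ∧ ∀ v, ω (σ ∘ v) = κ * ω v := by
  induction hω with
  | one => exact ⟨1, one_ne_zero, fun v => (one_mul _).symm⟩
  | vol l => exact ⟨_, (mL_ne h hPb σ hσ hχ0 hχ l).2, vol_σ h hPb hPadj hbb σ hσ l⟩
  | vol' l => exact ⟨_, (mL_ne h hPb σ hσ hχ0 hχ l).1, vol'_σ h hPb hPadj hbb σ hσ l⟩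
  | mul _ _ h1 h2 =>
    obtain ⟨κ, hκ, h3⟩ := h1
    obtain ⟨κ', hκ', h4⟩ := h2
    refine ⟨κ * κ', mul_ne_zero hκ hκ', fun v => ?_⟩
    have h5 := h3 fun s => v (Sum.inl s)
    have h6 := h4 fun s => v (Sum.inr s)
    rw [otimes, otimes, mul_mul_mul_comm, ← h5, ← h6]
    rfl

/-- The eigenvalue. -/
lemma IsVol.eig [Fintype Λ] (h : DualPair ψ b c ε)
    (hPb : ∀ l i, P l (b i) = if β i = l then b i else 0)
    (hPadj : ∀ l x y, ψ (P l x) y = ψ x (P (bar l) y)) (hbb : ∀ l, bar (bar l) = l)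
    (σ : V →ₗ[K] V) (hσ : ∀ l x, σ (P l x) = P l (σ x)) {D : Λ → K}
    (hD : ∀ l, (mL ψ b c β σ l).det = D l) (hD' : ∀ l, (mL' ψ b c β σ l).det = D (bar l))
    {d : Λ → ℕ} {S : Type} {ω : (S → V) → K} (hω : IsVol ψ b c β bar d S ω) :
    ∀ v, ω (σ ∘ v) = (∏ l, D l ^ d l) * ω v := by
  have hs : ∀ l, ∏ l', D l' ^ (Pi.single l 1 : Λ → ℕ) l' = D l := by
    intro l
    rw [Finset.prod_eq_single l]
    · rw [Pi.single_eq_same, pow_one]
    · intro l' _ hl
      rw [Pi.single_eq_of_ne hl, pow_zero]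
    · intro h0
      exact absurd (Finset.mem_univ _) h0
  induction hω with
  | one =>
    intro v
    simp
  | vol l =>
    intro v
    rw [hs, vol_σ h hPb hPadj hbb σ hσ l, hD]
  | vol' l =>
    intro v
    rw [hs, vol'_σ h hPb hPadj hbb σ hσ l, hD']
  | mul _ _ h1 h2 =>
    intro v
    have h5 := h1 fun s => v (Sum.inl s)
    have h6 := h2 fun s => v (Sum.inr s)
    simp only [Pi.add_apply, pow_add, Finset.prod_mul_distrib]
    rw [otimes, otimes, mul_mul_mul_comm, ← h5, ← h6]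
    rfl

/-! ### Insertion of the volume forms -/

/-- Two more variables. -/
def eP (n : ℕ) (S : Type) :
    Option (Option (S ⊕ (Fin n ⊕ Fin n))) ≃ S ⊕ (Fin (n + 1) ⊕ Fin (n + 1)) where
  toFun := fun o => match o with
    | none => Sum.inr (Sum.inr 0)
    | some none => Sum.inr (Sum.inl 0)
    | some (some (Sum.inl i)) => Sum.inl i
    | some (some (Sum.inr (Sum.inl k))) => Sum.inr (Sum.inl k.succ)
    | some (some (Sum.inr (Sum.inr k))) => Sum.inr (Sum.inr k.succ)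
  invFun := fun s => match s with
    | Sum.inl i => some (some (Sum.inl i))
    | Sum.inr (Sum.inl k) => Fin.cases (some none) (fun k => some (some (Sum.inr (Sum.inl k)))) k
    | Sum.inr (Sum.inr k) => Fin.cases none (fun k => some (some (Sum.inr (Sum.inr k)))) k
  left_inv := by
    rintro (_ | _ | s | s | s) <;> rfl
  right_inv := by
    rintro (i | i | i)
    · rfl
    · refine Fin.cases rfl (fun k => rfl) i
    · refine Fin.cases rfl (fun k => rfl) i

lemma ins_pairs {u : V → V} (hu : 𝓕.VarSt u) {S : Type} [Finite S] {f : (S → V) → K}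
    (hf : f ∈ 𝓕.FF S) : ∀ n : ℕ, (fun v : S ⊕ (Fin n ⊕ Fin n) → V => f (fun s => v (Sum.inl s)) *
      ∏ k, ψ (v (Sum.inr (Sum.inr k))) (u (v (Sum.inr (Sum.inl k))))) ∈
        𝓕.FF (S ⊕ (Fin n ⊕ Fin n)) := by
  intro n
  induction n with
  | zero =>
    have h1 := 𝓕.FF_reindex (Equiv.sumEmpty S (Fin 0 ⊕ Fin 0)).symm hf
    have h2 : (fun v : S ⊕ (Fin 0 ⊕ Fin 0) → V =>
        f (v ∘ (Equiv.sumEmpty S (Fin 0 ⊕ Fin 0)).symm)) =
        fun v : S ⊕ (Fin 0 ⊕ Fin 0) → V => f (fun s => v (Sum.inl s)) *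
      ∏ k, ψ (v (Sum.inr (Sum.inr k))) (u (v (Sum.inr (Sum.inl k)))) := by
      funext v
      rw [Finset.univ_eq_empty, Finset.prod_empty, mul_one]
      rfl
    rw [← h2]
    exact h1
  | succ n ih =>
    classical
    have h1 := 𝓕.FF_reindex (eP n S) (hu.ff (𝓕.FF_ins ih) (some none))
    have h2 : ∀ v : S ⊕ (Fin (n + 1) ⊕ Fin (n + 1)) → V,
        (fun w : Option (Option (S ⊕ (Fin n ⊕ Fin n))) → V => ψ (w none) (w (some none)) *
          (f (fun s => w (some (some (Sum.inl s)))) *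
            ∏ k, ψ (w (some (some (Sum.inr (Sum.inr k)))))
              (u (w (some (some (Sum.inr (Sum.inl k))))))))
          (update (v ∘ (eP n S)) (some none) (u ((v ∘ (eP n S)) (some none)))) =
        f (fun s => v (Sum.inl s)) *
          ∏ k, ψ (v (Sum.inr (Sum.inr k))) (u (v (Sum.inr (Sum.inl k)))) := by
      intro v
      beta_reduce
      have h3 : ∀ o : Option (Option (S ⊕ (Fin n ⊕ Fin n))), o ≠ some none →
          update (v ∘ (eP n S)) (some none) (u ((v ∘ (eP n S)) (some none))) o =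
            (v ∘ (eP n S)) o := fun o ho => update_of_ne ho _ _
      rw [update_self, h3 none (by simp)]
      simp only [h3 (some (some _)) (by simp)]
      rw [Fin.prod_univ_succ]
      change ψ (v (Sum.inr (Sum.inr 0))) (u (v (Sum.inr (Sum.inl 0)))) *
        (f (fun s => v (Sum.inl s)) * ∏ k : Fin n, ψ (v (Sum.inr (Sum.inr k.succ)))
          (u (v (Sum.inr (Sum.inl k.succ))))) = _
      ring
    have h3 : (fun v : S ⊕ (Fin (n + 1) ⊕ Fin (n + 1)) → V =>
        (fun w : Option (Option (S ⊕ (Fin n ⊕ Fin n))) → V => ψ (w none) (w (some none)) *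
          (f (fun s => w (some (some (Sum.inl s)))) *
            ∏ k, ψ (w (some (some (Sum.inr (Sum.inr k)))))
              (u (w (some (some (Sum.inr (Sum.inl k))))))))
          (update (v ∘ (eP n S)) (some none) (u ((v ∘ (eP n S)) (some none))))) =
        fun v => f (fun s => v (Sum.inl s)) *
          ∏ k, ψ (v (Sum.inr (Sum.inr k))) (u (v (Sum.inr (Sum.inl k)))) := funext h2
    rw [← h3]
    exact h1

lemma ins_pairs' {u : V → V} (hu : 𝓕.VarSt u) {S : Type} [Finite S] {f : (S → V) → K}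
    (hf : f ∈ 𝓕.FF S) (B : Type) [Fintype B] :
    (fun v : S ⊕ (B ⊕ B) → V => f (fun s => v (Sum.inl s)) *
      ∏ k, ψ (v (Sum.inr (Sum.inr k))) (u (v (Sum.inr (Sum.inl k))))) ∈ 𝓕.FF (S ⊕ (B ⊕ B)) := by
  set e := (Fintype.equivFin B).symm with he
  have h1 := 𝓕.FF_reindex (Equiv.sumCongr (Equiv.refl S) (Equiv.sumCongr e e))
    (ins_pairs hu hf (Fintype.card B))
  have h2 : (fun v : S ⊕ (B ⊕ B) → V => (fun w : S ⊕ (Fin (Fintype.card B) ⊕
        Fin (Fintype.card B)) → V => f (fun s => w (Sum.inl s)) *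
      ∏ k, ψ (w (Sum.inr (Sum.inr k))) (u (w (Sum.inr (Sum.inl k)))))
        (v ∘ (Equiv.sumCongr (Equiv.refl S) (Equiv.sumCongr e e)))) =
      fun v : S ⊕ (B ⊕ B) → V => f (fun s => v (Sum.inl s)) *
        ∏ k, ψ (v (Sum.inr (Sum.inr k))) (u (v (Sum.inr (Sum.inl k)))) := by
    funext v
    beta_reduce
    rw [← Equiv.prod_comp e]
    rfl
  rw [← h2]
  exact h1

lemma ins_det {u : V → V} (hu : 𝓕.VarSt u) {S : Type} [Finite S] {f : (S → V) → K}
    (hf : f ∈ 𝓕.FF S) (B : Type) [Fintype B] [DecidableEq B] :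
    (fun v : S ⊕ (B ⊕ B) → V => f (fun s => v (Sum.inl s)) *
      (Matrix.of fun j k : B => ψ (v (Sum.inr (Sum.inr j))) (u (v (Sum.inr (Sum.inl k))))).det) ∈
        𝓕.FF (S ⊕ (B ⊕ B)) := by
  have h1 : (fun v : S ⊕ (B ⊕ B) → V => f (fun s => v (Sum.inl s)) *
      (Matrix.of fun j k : B => ψ (v (Sum.inr (Sum.inr j))) (u (v (Sum.inr (Sum.inl k))))).det) =
      ∑ σ : Equiv.Perm B, ((Equiv.Perm.sign σ : ℤ) : K) • fun v : S ⊕ (B ⊕ B) → V =>
        f (fun s => v (Sum.inl s)) *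
          ∏ k, ψ (v (Sum.inr (Sum.inr (σ k)))) (u (v (Sum.inr (Sum.inl k)))) := by
    funext v
    rw [Matrix.det_apply', Finset.sum_apply, Finset.mul_sum]
    refine Finset.sum_congr rfl fun σ _ => ?_
    rw [Pi.smul_apply, smul_eq_mul, mul_left_comm]
    rfl
  rw [h1]
  refine Submodule.sum_mem _ fun σ _ => Submodule.smul_mem _ _ ?_
  exact 𝓕.FF_reindex (Equiv.sumCongr (Equiv.refl S) (Equiv.sumCongr (Equiv.refl B) σ))
    (ins_pairs' hu hf B)

/-- Partners. -/
lemma IsVol.exists_partner (h : DualPair ψ b c ε)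
    (hPb : ∀ l i, P l (b i) = if β i = l then b i else 0) (hPst : ∀ l, 𝓕.VarSt (P l))
    {d : Λ → ℕ} {S' : Type} {ω : (S' → V) → K} (hω : IsVol ψ b c β bar d S' ω) :
    ∃ (d' : Λ → ℕ) (S'' : Type) (ω' : (S'' → V) → K), IsVol ψ b c β bar d' S'' ω' ∧
      ∀ (S : Type) [Finite S] (f : (S → V) → K), f ∈ 𝓕.FF S →
        otimes f (otimes ω ω') ∈ 𝓕.FF (S ⊕ (S' ⊕ S'')) := by
  induction hω with
  | one =>
    refine ⟨0, Empty, fun _ => 1, IsVol.one, fun S _ f hf => ?_⟩
    have h1 := 𝓕.FF_reindex (Equiv.sumEmpty S (Empty ⊕ Empty)).symm hf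
    have h2 : (fun v : S ⊕ (Empty ⊕ Empty) → V =>
        f (v ∘ (Equiv.sumEmpty S (Empty ⊕ Empty)).symm)) =
        otimes f (otimes (fun _ => 1) (fun _ => 1)) := by
      funext v
      rw [otimes, otimes, mul_one, mul_one]
      rfl
    rw [← h2]
    exact h1
  | vol l =>
    refine ⟨_, _, _, IsVol.vol' l, fun S _ f hf => ?_⟩
    have h1 := ins_det (hPst l) hf (BI β l)
    have h2 : (fun v : S ⊕ (BI β l ⊕ BI β l) → V => f (fun s => v (Sum.inl s)) *
      (Matrix.of fun j k : BI β l => ψ (v (Sum.inr (Sum.inr j)))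
        (P l (v (Sum.inr (Sum.inl k))))).det) = otimes f (otimes (volF ψ c β l) (volG ψ b β l)) := by
      funext v
      rw [vol_mul h hPb l (fun k => v (Sum.inr (Sum.inl k))) (fun k => v (Sum.inr (Sum.inr k)))]
      rfl
    rw [← h2]
    exact h1
  | vol' l =>
    refine ⟨_, _, _, IsVol.vol l, fun S _ f hf => ?_⟩
    have h1 := 𝓕.FF_reindex (Equiv.sumCongr (Equiv.refl S) (Equiv.sumComm (BI β l) (BI β l)))
      (ins_det (hPst l) hf (BI β l))
    have h2 : (fun v : S ⊕ (BI β l ⊕ BI β l) → V => (fun w : S ⊕ (BI β l ⊕ BI β l) → V =>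
      f (fun s => w (Sum.inl s)) *
      (Matrix.of fun j k : BI β l => ψ (w (Sum.inr (Sum.inr j)))
        (P l (w (Sum.inr (Sum.inl k))))).det)
        (v ∘ (Equiv.sumCongr (Equiv.refl S) (Equiv.sumComm (BI β l) (BI β l))))) =
        otimes f (otimes (volG ψ b β l) (volF ψ c β l)) := by
      funext v
      beta_reduce
      rw [vol_mul h hPb l (fun k => (v ∘ (Equiv.sumCongr (Equiv.refl S)
        (Equiv.sumComm (BI β l) (BI β l)))) (Sum.inr (Sum.inl k)))
        (fun k => (v ∘ (Equiv.sumCongr (Equiv.refl S)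
        (Equiv.sumComm (BI β l) (BI β l)))) (Sum.inr (Sum.inr k))), mul_comm (volF ψ c β l _)]
      rfl
    rw [← h2]
    exact h1
  | @mul d1 d2 S1 S2 ω1 ω2 hω1 hω2 ih1 ih2 =>
    obtain ⟨d1', S1', ω1', hω1', h1⟩ := ih1
    obtain ⟨d2', S2', ω2', hω2', h2⟩ := ih2
    have := hω1.finite
    have := hω2.finite
    have := hω1'.finite
    have := hω2'.finite
    refine ⟨_, _, _, IsVol.mul hω1' hω2', fun S _ f hf => ?_⟩
    have h3 := 𝓕.FF_reindex ((Equiv.sumAssoc S (S1 ⊕ S1') (S2 ⊕ S2')).trans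
      (Equiv.sumCongr (Equiv.refl S) (Equiv.sumSumSumComm S1 S1' S2 S2')))
      (h2 (S ⊕ (S1 ⊕ S1')) _ (h1 S f hf))
    have h4 : (fun v : S ⊕ ((S1 ⊕ S2) ⊕ (S1' ⊕ S2')) → V =>
        otimes (otimes f (otimes ω1 ω1')) (otimes ω2 ω2')
          (v ∘ ((Equiv.sumAssoc S (S1 ⊕ S1') (S2 ⊕ S2')).trans
      (Equiv.sumCongr (Equiv.refl S) (Equiv.sumSumSumComm S1 S1' S2 S2'))))) =
        otimes f (otimes (otimes ω1 ω2) (otimes ω1' ω2')) := by
      funext v
      change f (fun s => v (Sum.inl s)) * (ω1 (fun s => v (Sum.inr (Sum.inl (Sum.inl s)))) *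
        ω1' (fun s => v (Sum.inr (Sum.inr (Sum.inl s))))) *
        (ω2 (fun s => v (Sum.inr (Sum.inl (Sum.inr s)))) *
          ω2' (fun s => v (Sum.inr (Sum.inr (Sum.inr s))))) =
        f (fun s => v (Sum.inl s)) * (ω1 (fun s => v (Sum.inr (Sum.inl (Sum.inl s)))) *
          ω2 (fun s => v (Sum.inr (Sum.inl (Sum.inr s)))) *
          (ω1' (fun s => v (Sum.inr (Sum.inr (Sum.inl s)))) *
            ω2' (fun s => v (Sum.inr (Sum.inr (Sum.inr s))))))
      ring
    rw [← h4]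
    exact h3

end Pool.Agent.Helper786.Inv
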